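import Mathlib

set_option autoImplicit false
set_option linter.unusedVariables false
set_option linter.unusedSectionVars false
set_option linter.unusedSimpArgs false

namespace Pool.Agent.Helper340.MB

open Finset

section basic
variable {E Φ U : Type*} [DecidableEq E] [Fintype U]

/-- plain weight of a set `S` of edges: `(1/c)^(number of edges still missing)` if Breaker has no
edge of `S`, and `0` otherwise -/
noncomputable def pw (c : ℝ) (X Y S : Finset E) : ℝ :=
  if Disjoint S Y then (1 / c) ^ (S \ X).card else 0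

/-- star sum -/
noncomputable def ss (c : ℝ) (X : Finset E) (s : U → Finset E) : ℝ :=
  ∑ u, (1 / c) ^ (s u \ X).card

/-- star sum at an edge -/
noncomputable def pp (c : ℝ) (X : Finset E) (s : U → Finset E) (z : E) : ℝ :=
  ∑ u, if z ∈ s u then (1 / c) ^ (s u \ X).card else 0

lemma card_step {X A0 S : Finset E} (h : Disjoint A0 X) :
    (S \ (X ∪ A0)).card + (A0 ∩ S).card = (S \ X).card := by
  have h1 : S \ X = (S \ (X ∪ A0)) ∪ (A0 ∩ S) := by
    ext z
    simp only [mem_sdiff, mem_union, mem_inter, not_or]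
    constructor
    · rintro ⟨h1, h2⟩
      by_cases h3 : z ∈ A0
      · right; exact ⟨h3, h1⟩
      · left; exact ⟨h1, h2, h3⟩
    · rintro (⟨h1, h2, h3⟩ | ⟨h1, h2⟩)
      · exact ⟨h1, h2⟩
      · exact ⟨h2, disjoint_left.mp h h1⟩
  have h2 : Disjoint (S \ (X ∪ A0)) (A0 ∩ S) := by
    rw [disjoint_left]
    intro z hz hz'
    simp only [mem_sdiff, mem_union, mem_inter, not_or] at hz hz'
    exact hz.2.2 hz'.1
  rw [h1, card_union_of_disjoint h2]

lemma pow_step {c : ℝ} (hc : 1 < c) {X A0 S : Finset E} (h : Disjoint A0 X) :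
    (1 / c) ^ (S \ (X ∪ A0)).card = c ^ (A0 ∩ S).card * (1 / c) ^ (S \ X).card := by
  rw [← card_step (S := S) h, pow_add]
  have hc0 : c ≠ 0 := by linarith
  have : c ^ (A0 ∩ S).card * (1 / c) ^ (A0 ∩ S).card = 1 := by
    rw [← mul_pow, mul_one_div_cancel hc0, one_pow]
  calc (1 / c) ^ (S \ (X ∪ A0)).card
      = (1 / c) ^ (S \ (X ∪ A0)).card * (c ^ (A0 ∩ S).card * (1 / c) ^ (A0 ∩ S).card) := by
        rw [this, mul_one]
    _ = _ := by ring

lemma pw_empty (c : ℝ) (X Y : Finset E) : pw c X Y ∅ = 1 := by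
  unfold pw
  rw [if_pos (disjoint_empty_left Y), empty_sdiff, card_empty, pow_zero]

lemma pw_nonneg {c : ℝ} (hc : 1 < c) (X Y S : Finset E) : 0 ≤ pw c X Y S := by
  unfold pw
  split_ifs
  · have : 0 ≤ 1 / c := by positivity
    positivity
  · exact le_refl _

lemma pw_le_one {c : ℝ} (hc : 1 < c) (X Y S : Finset E) : pw c X Y S ≤ 1 := by
  unfold pw
  split_ifs
  · apply pow_le_one₀ (by positivity)
    rw [div_le_one (by linarith)]
    exact hc.le
  · norm_num

lemma pw_step {c : ℝ} (hc : 1 < c) {X Y A0 B0 : Finset E} (S : Finset E) (h : Disjoint A0 X) :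
    pw c (X ∪ A0) (Y ∪ B0) S
      = (if (B0 ∩ S).card = 0 then c ^ (A0 ∩ S).card else 0) * pw c X Y S := by
  unfold pw
  have hd : Disjoint S (Y ∪ B0) ↔ Disjoint S Y ∧ Disjoint S B0 := disjoint_union_right
  by_cases h1 : Disjoint S Y
  · by_cases h2 : Disjoint S B0
    · have h3 : (B0 ∩ S).card = 0 := by
        rw [card_eq_zero, ← disjoint_iff_inter_eq_empty]
        exact h2.symm
      rw [if_pos (hd.mpr ⟨h1, h2⟩), if_pos h1, if_pos h3, pow_step hc h]
    · have h3 : ¬ (B0 ∩ S).card = 0 := by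
        rw [card_eq_zero, ← disjoint_iff_inter_eq_empty]
        intro h4
        exact h2 h4.symm
      rw [if_neg (fun h4 => h2 (hd.mp h4).2), if_neg h3, zero_mul]
  · rw [if_neg (fun h4 => h1 (hd.mp h4).1), if_neg h1, mul_zero]

lemma pw_union {c : ℝ} (X Y S S' : Finset E) (h : Disjoint S S') :
    pw c X Y (S ∪ S') = pw c X Y S * pw c X Y S' := by
  unfold pw
  have hd : Disjoint (S ∪ S') Y ↔ Disjoint S Y ∧ Disjoint S' Y := disjoint_union_left
  by_cases h1 : Disjoint S Y
  · by_cases h2 : Disjoint S' Y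
    · rw [if_pos (hd.mpr ⟨h1, h2⟩), if_pos h1, if_pos h2, ← pow_add]
      congr 1
      rw [union_sdiff_distrib, card_union_of_disjoint]
      exact disjoint_of_subset_left sdiff_subset (disjoint_of_subset_right sdiff_subset h)
    · rw [if_neg (fun h3 => h2 (hd.mp h3).2), if_neg h2, mul_zero]
  · rw [if_neg (fun h3 => h1 (hd.mp h3).1), if_neg h1, zero_mul]

lemma pw_split {c : ℝ} (X Y : Finset E) {S S' : Finset E} (h : S' ⊆ S) :
    pw c X Y S = pw c X Y S' * pw c X Y (S \ S') := by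
  rw [← pw_union X Y S' (S \ S') disjoint_sdiff, union_sdiff_of_subset h]

lemma ss_nonneg {c : ℝ} (hc : 1 < c) (X : Finset E) (s : U → Finset E) : 0 ≤ ss c X s := by
  unfold ss
  apply sum_nonneg
  intro u _
  have : 0 ≤ 1 / c := by positivity
  positivity

lemma ss_le {c : ℝ} (hc : 1 < c) (X : Finset E) (s : U → Finset E) :
    ss c X s ≤ Fintype.card U := by
  unfold ss
  have : ∀ u ∈ (univ : Finset U), (1 / c) ^ (s u \ X).card ≤ (1 : ℝ) := by
    intro u _
    apply pow_le_one₀ (by positivity)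
    rw [div_le_one (by linarith)]
    exact hc.le
  refine (sum_le_sum this).trans ?_
  simp

lemma ss_anti {c : ℝ} (hc : 1 < c) (X : Finset E) {s s' : U → Finset E}
    (h : ∀ u, s u ⊆ s' u) : ss c X s' ≤ ss c X s := by
  unfold ss
  apply sum_le_sum
  intro u _
  apply pow_le_pow_of_le_one (by positivity)
  · rw [div_le_one (by linarith)]
    exact hc.le
  · exact card_le_card (sdiff_subset_sdiff (h u) (le_refl _))

lemma pp_nonneg {c : ℝ} (hc : 1 < c) (X : Finset E) (s : U → Finset E) (z : E) :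
    0 ≤ pp c X s z := by
  unfold pp
  apply sum_nonneg
  intro u _
  have : 0 ≤ 1 / c := by positivity
  split_ifs
  · positivity
  · exact le_refl _

lemma pp_le {c : ℝ} (hc : 1 < c) (X : Finset E) (s : U → Finset E) (z : E)
    (h2 : (univ.filter (fun u => z ∈ s u)).card ≤ 2) : pp c X s z ≤ 2 := by
  unfold pp
  rw [← sum_filter]
  have : ∀ u ∈ (univ : Finset U).filter (fun u => z ∈ s u), (1 / c) ^ (s u \ X).card ≤ (1 : ℝ) := by
    intro u _
    apply pow_le_one₀ (by positivity)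
    rw [div_le_one (by linarith)]
    exact hc.le
  refine (sum_le_sum this).trans ?_
  rw [sum_const, nsmul_eq_mul, mul_one]
  exact_mod_cast h2

lemma pp_eq_zero {c : ℝ} (X : Finset E) {s : U → Finset E} {z : E} {S : Finset E}
    (hs : ∀ u, s u ⊆ S) (hz : z ∉ S) : pp c X s z = 0 := by
  unfold pp
  apply sum_eq_zero
  intro u _
  rw [if_neg (fun h => hz (hs u h))]

lemma card_inter_eq_sum (A0 S : Finset E) :
    ((A0 ∩ S).card : ℝ) = ∑ x ∈ A0, if x ∈ S then (1 : ℝ) else 0 := by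
  rw [← sum_filter, sum_const, nsmul_eq_mul, mul_one]
  congr 2

lemma sum_card_inter (F : Finset Φ) (f : Φ → ℝ) (S : Φ → Finset E) (A0 : Finset E) :
    ∑ φ ∈ F, f φ * ((A0 ∩ S φ).card : ℝ)
      = ∑ x ∈ A0, ∑ φ ∈ F, if x ∈ S φ then f φ else 0 := by
  rw [sum_comm]
  apply sum_congr rfl
  intro φ _
  rw [card_inter_eq_sum, mul_sum]
  apply sum_congr rfl
  intro x _
  split_ifs <;> simp

lemma ss_step {c : ℝ} (hc : 1 < c) {X A0 : Finset E} (s : U → Finset E) (h : Disjoint A0 X) :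
    ss c X s + (c - 1) * ∑ x ∈ A0, pp c X s x ≤ ss c (X ∪ A0) s := by
  unfold ss pp
  rw [sum_comm, mul_sum, ← sum_add_distrib]
  apply sum_le_sum
  intro u _
  rw [pow_step hc h]
  have h1 : ∑ x ∈ A0, (if x ∈ s u then (1 / c) ^ (s u \ X).card else 0)
      = ((A0 ∩ s u).card : ℝ) * (1 / c) ^ (s u \ X).card := by
    rw [card_inter_eq_sum, sum_mul]
    apply sum_congr rfl
    intro x _
    split_ifs <;> simp
  rw [h1]
  have h2 : 1 + ((A0 ∩ s u).card : ℝ) * (c - 1) ≤ c ^ (A0 ∩ s u).card := by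
    have := one_add_mul_le_pow (show (-2 : ℝ) ≤ c - 1 by linarith) (A0 ∩ s u).card
    rwa [add_sub_cancel] at this
  have h3 : (0 : ℝ) ≤ (1 / c) ^ (s u \ X).card := by positivity
  nlinarith [mul_le_mul_of_nonneg_right h2 h3]

lemma ss_mono {c : ℝ} (hc : 1 < c) {X A0 : Finset E} (s : U → Finset E) (h : Disjoint A0 X) :
    ss c X s ≤ ss c (X ∪ A0) s := by
  have h1 := ss_step hc s h
  have h2 : 0 ≤ ∑ x ∈ A0, pp c X s x := sum_nonneg (fun x _ => pp_nonneg hc X s x)
  nlinarith

/-- total star mass of the new Maker edges -/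
lemma sum_pp_le {c : ℝ} (hc : 1 < c) (X A0 : Finset E) (s : U → Finset E) {S : Finset E}
    (hs : ∀ u, s u ⊆ S) (h2 : ∀ z, (univ.filter (fun u => z ∈ s u)).card ≤ 2) :
    ∑ x ∈ A0, pp c X s x ≤ 2 * ((A0 ∩ S).card : ℝ) := by
  rw [card_inter_eq_sum, mul_sum]
  apply sum_le_sum
  intro x _
  split_ifs with h
  · rw [mul_one]; exact pp_le hc X s x (h2 x)
  · rw [mul_zero, pp_eq_zero X hs h]

lemma exp_neg_le {x : ℝ} (h0 : 0 ≤ x) (h1 : x ≤ 1 / 4) : Real.exp (-x) ≤ 1 - 3 / 4 * x := by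
  have h := Real.abs_exp_sub_one_sub_id_le (x := -x) (by rw [abs_neg, abs_of_nonneg h0]; linarith)
  rw [abs_le] at h
  nlinarith [h.2]

end basic

end Pool.Agent.Helper340.MB
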