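import Mathlib
import Pool.Agent.Helper340.MB.Core

set_option autoImplicit false
set_option linter.unusedVariables false
set_option linter.unusedSectionVars false
set_option linter.unusedSimpArgs false

namespace Pool.Agent.Helper340.MB

open Finset

/-- growth factor -/
noncomputable def cc (m b : ℕ) : ℝ := 1 + (b : ℝ) / m

/-- abstract system of cliques and levels -/
structure Sys (E Φ K U : Type*) [DecidableEq E] [DecidableEq Φ] [Fintype K] [Fintype U] where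
  A : Φ → Finset E
  mem : K → Finset Φ
  inn : K → Finset E
  lam : K → ℝ
  st : K → U → Finset E
  stA : Φ → U → Finset E
  inn_sub : ∀ κ, ∀ φ ∈ mem κ, inn κ ⊆ A φ
  st_sub : ∀ κ u, st κ u ⊆ inn κ
  stA_sub : ∀ φ u, stA φ u ⊆ A φ
  two : ∀ κ z, (univ.filter (fun u => z ∈ st κ u)).card ≤ 2
  twoA : ∀ φ z, (univ.filter (fun u => z ∈ stA φ u)).card ≤ 2
  lam_nonneg : ∀ κ, 0 ≤ lam κ
  m : ℕ
  b : ℕ
  hm : 1 ≤ m
  hb : 1 ≤ b
  η : ℝ
  η_pos : 0 < η
  η_le : η * (8 * b) ≤ 1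

namespace Sys

variable {E Φ K U : Type*} [DecidableEq E] [DecidableEq Φ] [Fintype K] [Fintype U]
variable (S : Sys E Φ K U)

noncomputable def c : ℝ := cc S.m S.b

lemma mpos : (0 : ℝ) < S.m := by
  have := S.hm
  exact_mod_cast this

lemma bpos : (0 : ℝ) < S.b := by
  have := S.hb
  exact_mod_cast this

lemma one_le_m : (1 : ℝ) ≤ S.m := by
  have := S.hm
  exact_mod_cast this

lemma one_le_b : (1 : ℝ) ≤ S.b := by
  have := S.hb
  exact_mod_cast this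

lemma c_gt : 1 < S.c := by
  unfold c cc
  have := div_pos S.bpos S.mpos
  linarith

lemma c_sub : (S.c - 1) * S.m = S.b := by
  unfold c cc
  have := S.mpos
  field_simp
  ring

noncomputable def T1 (X Y : Finset E) (φ : Φ) : ℝ :=
  pw S.c X Y (S.A φ) * Real.exp (S.η * ss S.c X (S.stA φ))

noncomputable def w (X Y : Finset E) (κ : K) : ℝ :=
  pw S.c X Y (S.inn κ) * Real.exp (-(S.η * ss S.c X (S.st κ)))

noncomputable def vv (X Y : Finset E) (κ : K) (φ : Φ) : ℝ := pw S.c X Y (S.A φ \ S.inn κ)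

noncomputable def V (X Y : Finset E) (F : Finset Φ) (κ : K) : ℝ :=
  ∑ φ ∈ F ∩ S.mem κ, S.vv X Y κ φ

noncomputable def Vz (X Y : Finset E) (F : Finset Φ) (κ : K) (z : E) : ℝ :=
  ∑ φ ∈ F ∩ S.mem κ, if z ∈ S.A φ \ S.inn κ then S.vv X Y κ φ else 0

noncomputable def T (X Y : Finset E) (F : Finset Φ) : ℝ := ∑ φ ∈ F, S.T1 X Y φ

noncomputable def g (X Y : Finset E) (F : Finset Φ) (κ : K) : ℝ :=
  S.lam κ * (S.w X Y κ * S.V X Y F κ ^ 2)

noncomputable def G (X Y : Finset E) (F : Finset Φ) : ℝ := ∑ κ, S.g X Y F κ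

noncomputable def L (X Y : Finset E) (F : Finset Φ) : ℝ := S.T X Y F - S.G X Y F

noncomputable def DT (X Y : Finset E) (F : Finset Φ) (z : E) : ℝ :=
  ∑ φ ∈ F, S.T1 X Y φ * pp S.c X (S.stA φ) z

noncomputable def DG (X Y : Finset E) (F : Finset Φ) (z : E) : ℝ :=
  ∑ κ, S.g X Y F κ * pp S.c X (S.st κ) z

noncomputable def T0 (X Y : Finset E) (F : Finset Φ) (z : E) : ℝ :=
  ∑ φ ∈ F, if z ∈ S.A φ then S.T1 X Y φ else 0

noncomputable def G0 (X Y : Finset E) (F : Finset Φ) (z : E) : ℝ :=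
  ∑ κ, if z ∈ S.inn κ then S.g X Y F κ else 0

noncomputable def H (X Y : Finset E) (F : Finset Φ) (z : E) : ℝ :=
  ∑ κ, S.lam κ * (2 * S.w X Y κ * S.V X Y F κ * S.Vz X Y F κ z)

noncomputable def Sq (X Y : Finset E) (F : Finset Φ) (z : E) : ℝ :=
  ∑ κ, S.lam κ * (S.w X Y κ * S.Vz X Y F κ z ^ 2)

noncomputable def j (X Y : Finset E) (F : Finset Φ) (z : E) : ℝ :=
  S.T0 X Y F z - S.G0 X Y F z - S.H X Y F z + S.η / 4 * (S.DT X Y F z + S.DG X Y F z)

/-- constants -/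
noncomputable def C0 : ℝ := S.c ^ S.m + S.b
noncomputable def C1 : ℝ := S.b + 2
noncomputable def NN : ℝ := S.m + S.b
noncomputable def C2 : ℝ :=
  (S.c ^ S.m) ^ 3 + S.b + 2 * S.NN + 2 * S.c ^ 2 * S.NN + S.c * (2 * S.C0 + 2 * S.C0 ^ 2)
noncomputable def C3 : ℝ := 2 * S.c ^ 3 * S.NN

lemma T1_nonneg (X Y : Finset E) (φ : Φ) : 0 ≤ S.T1 X Y φ :=
  mul_nonneg (pw_nonneg S.c_gt _ _ _) (Real.exp_pos _).le

lemma w_nonneg (X Y : Finset E) (κ : K) : 0 ≤ S.w X Y κ :=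
  mul_nonneg (pw_nonneg S.c_gt _ _ _) (Real.exp_pos _).le

lemma vv_nonneg (X Y : Finset E) (κ : K) (φ : Φ) : 0 ≤ S.vv X Y κ φ :=
  pw_nonneg S.c_gt _ _ _

lemma V_nonneg (X Y : Finset E) (F : Finset Φ) (κ : K) : 0 ≤ S.V X Y F κ :=
  sum_nonneg (fun φ _ => S.vv_nonneg X Y κ φ)

lemma Vz_nonneg (X Y : Finset E) (F : Finset Φ) (κ : K) (z : E) : 0 ≤ S.Vz X Y F κ z := by
  apply sum_nonneg
  intro φ _
  split_ifs
  · exact S.vv_nonneg X Y κ φ
  · exact le_refl _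

lemma Vz_le_V (X Y : Finset E) (F : Finset Φ) (κ : K) (z : E) :
    S.Vz X Y F κ z ≤ S.V X Y F κ := by
  apply sum_le_sum
  intro φ _
  split_ifs
  · exact le_refl _
  · exact S.vv_nonneg X Y κ φ

lemma V_mono (X Y : Finset E) {F F' : Finset Φ} (h : F' ⊆ F) (κ : K) :
    S.V X Y F' κ ≤ S.V X Y F κ := by
  apply sum_le_sum_of_subset_of_nonneg
  · exact inter_subset_inter h (le_refl _)
  · intro φ _ _
    exact S.vv_nonneg X Y κ φ

lemma g_nonneg (X Y : Finset E) (F : Finset Φ) (κ : K) : 0 ≤ S.g X Y F κ :=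
  mul_nonneg (S.lam_nonneg κ) (mul_nonneg (S.w_nonneg X Y κ) (sq_nonneg _))

lemma T_nonneg (X Y : Finset E) (F : Finset Φ) : 0 ≤ S.T X Y F :=
  sum_nonneg (fun φ _ => S.T1_nonneg X Y φ)

lemma G_nonneg (X Y : Finset E) (F : Finset Φ) : 0 ≤ S.G X Y F :=
  sum_nonneg (fun φ _ => S.g_nonneg X Y F φ)

lemma DT_nonneg (X Y : Finset E) (F : Finset Φ) (z : E) : 0 ≤ S.DT X Y F z :=
  sum_nonneg (fun φ _ => mul_nonneg (S.T1_nonneg X Y φ) (pp_nonneg S.c_gt _ _ _))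

lemma DG_nonneg (X Y : Finset E) (F : Finset Φ) (z : E) : 0 ≤ S.DG X Y F z :=
  sum_nonneg (fun κ _ => mul_nonneg (S.g_nonneg X Y F κ) (pp_nonneg S.c_gt _ _ _))

section round

variable {X Y A0 B0 : Finset E}

/-- mass bound `x ≤ 1/4` -/
lemma eta_small {D : ℝ} (hD0 : 0 ≤ D) (hD : D ≤ 2 * S.m) :
    0 ≤ S.η * ((S.c - 1) * D) ∧ S.η * ((S.c - 1) * D) ≤ 1 / 4 := by
  have h1 := S.c_gt
  have h2 := S.c_sub
  have h3 := S.η_pos
  have h4 := S.η_le
  have h5 : 0 ≤ (S.c - 1) * D := mul_nonneg (by linarith) hD0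
  refine ⟨mul_nonneg h3.le h5, ?_⟩
  have h6 : (S.c - 1) * D ≤ (S.c - 1) * (2 * S.m) := mul_le_mul_of_nonneg_left hD (by linarith)
  have h7 : (S.c - 1) * (2 * S.m) = 2 * S.b := by linarith
  have h8 := mul_le_mul_of_nonneg_left (h6.trans h7.le) h3.le
  linarith

lemma T1_round (hAX : Disjoint A0 X) (hAB : Disjoint A0 B0) (hA : A0.card ≤ S.m) (φ : Φ) :
    S.T1 X Y φ * (1 + (S.c - 1) * ((A0 ∩ S.A φ).card + S.η * ∑ x ∈ A0, pp S.c X (S.stA φ) x)
        - (B0 ∩ S.A φ).card - (if 2 ≤ ((A0 ∪ B0) ∩ S.A φ).card then S.C1 else 0))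
      ≤ S.T1 (X ∪ A0) (Y ∪ B0) φ := by
  have hc := S.c_gt
  set D := ∑ x ∈ A0, pp S.c X (S.stA φ) x with hD
  have hD0 : 0 ≤ D := sum_nonneg (fun x _ => pp_nonneg hc X _ x)
  have hD1 : D ≤ 2 * ((A0 ∩ S.A φ).card : ℝ) := sum_pp_le hc X A0 _ (S.stA_sub φ) (S.twoA φ)
  have hk1 : (A0 ∩ S.A φ).card ≤ S.m := (card_le_card inter_subset_left).trans hA
  have hk1' : ((A0 ∩ S.A φ).card : ℝ) ≤ S.m := by exact_mod_cast hk1
  obtain ⟨he0, he1⟩ := S.eta_small hD0 (hD1.trans (by linarith))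
  have hk : ((A0 ∪ B0) ∩ S.A φ).card = (A0 ∩ S.A φ).card + (B0 ∩ S.A φ).card := by
    rw [union_inter_distrib_right, card_union_of_disjoint]
    exact disjoint_of_subset_left inter_subset_left
      (disjoint_of_subset_right inter_subset_left hAB)
  have hT := S.T1_nonneg X Y φ
  have hT' := S.T1_nonneg (X ∪ A0) (Y ∪ B0) φ
  set a := (A0 ∩ S.A φ).card with ha
  set d := (B0 ∩ S.A φ).card with hd
  by_cases h2 : 2 ≤ ((A0 ∪ B0) ∩ S.A φ).card
  · rw [if_pos h2]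
    refine le_trans ?_ hT'
    apply mul_nonpos_of_nonneg_of_nonpos hT
    unfold C1
    have h3 : (S.c - 1) * (a : ℝ) ≤ S.b := by
      rw [← S.c_sub]
      exact mul_le_mul_of_nonneg_left hk1' (by linarith)
    have h4 : (0 : ℝ) ≤ d := Nat.cast_nonneg d
    nlinarith
  · rw [if_neg h2]
    have hT1 : S.T1 (X ∪ A0) (Y ∪ B0) φ
        = (if d = 0 then S.c ^ a else 0) * pw S.c X Y (S.A φ)
          * Real.exp (S.η * ss S.c (X ∪ A0) (S.stA φ)) := by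
      unfold T1
      rw [pw_step hc (S.A φ) hAX]
    have hexp : Real.exp (S.η * ss S.c X (S.stA φ)) * (1 + S.η * ((S.c - 1) * D))
        ≤ Real.exp (S.η * ss S.c (X ∪ A0) (S.stA φ)) := by
      have h3 := ss_step hc (S.stA φ) hAX
      have h4 : S.η * ss S.c X (S.stA φ) + S.η * ((S.c - 1) * D)
          ≤ S.η * ss S.c (X ∪ A0) (S.stA φ) := by
        rw [← mul_add]
        exact mul_le_mul_of_nonneg_left h3 S.η_pos.le
      have h5 := Real.exp_le_exp.mpr h4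
      rw [Real.exp_add] at h5
      have h6 : 1 + S.η * ((S.c - 1) * D) ≤ Real.exp (S.η * ((S.c - 1) * D)) := by
        have := Real.add_one_le_exp (S.η * ((S.c - 1) * D))
        linarith
      exact (mul_le_mul_of_nonneg_left h6 (Real.exp_pos _).le).trans h5
    have hpw := pw_nonneg hc X Y (S.A φ)
    by_cases hd0 : d = 0
    · rw [hT1, if_pos hd0]
      have ha1 : a = 0 ∨ a = 1 := by omega
      have h5 : (1 + (S.c - 1) * ((a : ℝ) + S.η * D) - (d : ℝ) - 0)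
          ≤ S.c ^ a * (1 + S.η * ((S.c - 1) * D)) := by
        rw [hd0]
        rcases ha1 with h | h
        · rw [h]; push_cast; linarith
        · rw [h]; push_cast
          have : 0 ≤ (S.c - 1) * (S.η * ((S.c - 1) * D)) := mul_nonneg (by linarith) he0
          nlinarith
      have h6 : 0 ≤ S.c ^ a * pw S.c X Y (S.A φ) := mul_nonneg (by positivity) hpw
      calc S.T1 X Y φ * (1 + (S.c - 1) * ((a : ℝ) + S.η * D) - (d : ℝ) - 0)
          ≤ S.T1 X Y φ * (S.c ^ a * (1 + S.η * ((S.c - 1) * D))) :=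
            mul_le_mul_of_nonneg_left h5 hT
        _ = S.c ^ a * pw S.c X Y (S.A φ)
            * (Real.exp (S.η * ss S.c X (S.stA φ)) * (1 + S.η * ((S.c - 1) * D))) := by
            unfold T1; ring
        _ ≤ _ := mul_le_mul_of_nonneg_left hexp h6
    · have ha0 : a = 0 := by omega
      have hd1 : d = 1 := by omega
      have hD00 : D = 0 := by
        rw [ha0] at hD1
        push_cast at hD1
        linarith
      rw [ha0, hd1, hD00]
      push_cast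
      have : (1 + (S.c - 1) * (0 + S.η * 0) - 1 - 0 : ℝ) = 0 := by ring
      rw [this, mul_zero]
      exact hT'

lemma T_round (hAX : Disjoint A0 X) (hAB : Disjoint A0 B0) (hA : A0.card ≤ S.m) (F : Finset Φ) :
    S.T X Y F + (S.c - 1) * ∑ x ∈ A0, (S.T0 X Y F x + S.η * S.DT X Y F x)
        - ∑ y ∈ B0, S.T0 X Y F y
        - S.C1 * S.T X Y (F.filter (fun φ => 2 ≤ ((A0 ∪ B0) ∩ S.A φ).card))
      ≤ S.T (X ∪ A0) (Y ∪ B0) F := by
  have h1 : ∑ φ ∈ F, S.T1 X Y φ *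
        (1 + (S.c - 1) * ((A0 ∩ S.A φ).card + S.η * ∑ x ∈ A0, pp S.c X (S.stA φ) x)
        - (B0 ∩ S.A φ).card - (if 2 ≤ ((A0 ∪ B0) ∩ S.A φ).card then S.C1 else 0))
      ≤ S.T (X ∪ A0) (Y ∪ B0) F := by
    unfold T
    apply sum_le_sum
    intro φ _
    exact S.T1_round hAX hAB hA φ
  refine le_trans (le_of_eq ?_) h1
  obtain ⟨D, hD⟩ : ∃ D : Φ → ℝ, ∀ φ, D φ = ∑ x ∈ A0, pp S.c X (S.stA φ) x := ⟨_, fun _ => rfl⟩
  simp only [← hD]
  have e1 : ∑ x ∈ A0, S.T0 X Y F x = ∑ φ ∈ F, S.T1 X Y φ * ((A0 ∩ S.A φ).card : ℝ) := by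
    unfold T0
    rw [sum_card_inter]
  have e2 : ∑ y ∈ B0, S.T0 X Y F y = ∑ φ ∈ F, S.T1 X Y φ * ((B0 ∩ S.A φ).card : ℝ) := by
    unfold T0
    rw [sum_card_inter]
  have e3 : ∑ x ∈ A0, S.DT X Y F x
      = ∑ φ ∈ F, S.T1 X Y φ * D φ := by
    unfold DT
    rw [sum_comm]
    apply sum_congr rfl
    intro φ _
    rw [hD, mul_sum]
  have e4 : S.T X Y (F.filter (fun φ => 2 ≤ ((A0 ∪ B0) ∩ S.A φ).card))
      = ∑ φ ∈ F, if 2 ≤ ((A0 ∪ B0) ∩ S.A φ).card then S.T1 X Y φ else 0 := by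
    unfold T
    rw [sum_filter]
  rw [sum_add_distrib, ← mul_sum, e1, e2, e3, e4]
  unfold T
  simp only [mul_sum]
  rw [← sum_add_distrib, mul_sum, ← sum_add_distrib, ← sum_sub_distrib, ← sum_sub_distrib]
  apply sum_congr rfl
  intro φ _
  split_ifs <;> ring

end round

end Sys

end Pool.Agent.Helper340.MB
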