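import Mathlib
import Pool.Agent.Helper340.MB.Sys

set_option autoImplicit false
set_option linter.unusedVariables false
set_option linter.unusedSectionVars false
set_option linter.unusedSimpArgs false

namespace Pool.Agent.Helper340.MB

open Finset

namespace Sys

variable {E Φ K U : Type*} [DecidableEq E] [DecidableEq Φ] [Fintype K] [Fintype U]
variable (S : Sys E Φ K U)

lemma NN_nonneg : 0 ≤ S.NN := by
  unfold NN
  have := S.mpos; have := S.bpos; linarith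

lemma cm_ge : 1 ≤ S.c ^ S.m := one_le_pow₀ S.c_gt.le

lemma C0_ge : 1 ≤ S.C0 := by
  unfold C0
  have := S.cm_ge; have := S.bpos; linarith

section round

variable {X Y A0 B0 : Finset E}

lemma vv_round (hAX : Disjoint A0 X) (hAB : Disjoint A0 B0) (hA : A0.card ≤ S.m)
    (hB : B0.card ≤ S.b) (κ : K) (φ : Φ) :
    S.vv (X ∪ A0) (Y ∪ B0) κ φ ≤
    S.vv X Y κ φ * (1 + (S.c - 1) * (A0 ∩ (S.A φ \ S.inn κ)).card
        - (B0 ∩ (S.A φ \ S.inn κ)).card + (if 2 ≤ ((A0 ∪ B0) ∩ S.A φ).card then S.C0 else 0)) := by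
  have hc := S.c_gt
  have hv := S.vv_nonneg X Y κ φ
  have hcm := S.cm_ge
  unfold vv at hv ⊢
  rw [pw_step hc _ hAX, mul_comm (pw S.c X Y _)]
  apply mul_le_mul_of_nonneg_right _ hv
  set W := S.A φ \ S.inn κ with hW
  have hk : (A0 ∩ W).card + (B0 ∩ W).card ≤ ((A0 ∪ B0) ∩ S.A φ).card := by
    rw [← card_union_of_disjoint]
    · apply card_le_card
      intro z hz
      simp only [hW, mem_union, mem_inter, mem_sdiff] at hz ⊢
      tauto
    · exact disjoint_of_subset_left inter_subset_left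
        (disjoint_of_subset_right inter_subset_left hAB)
  have ha : (A0 ∩ W).card ≤ S.m := (card_le_card inter_subset_left).trans hA
  have hb : (B0 ∩ W).card ≤ S.b := (card_le_card inter_subset_left).trans hB
  have hb' : ((B0 ∩ W).card : ℝ) ≤ S.b := by exact_mod_cast hb
  set a := (A0 ∩ W).card
  set d := (B0 ∩ W).card
  have h0 : (0 : ℝ) ≤ (S.c - 1) * a := mul_nonneg (by linarith) (Nat.cast_nonneg a)
  by_cases h2 : 2 ≤ ((A0 ∪ B0) ∩ S.A φ).card
  · rw [if_pos h2]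
    have h3 : (if d = 0 then S.c ^ a else 0) ≤ S.c ^ S.m := by
      split_ifs
      · exact pow_le_pow_right₀ hc.le ha
      · linarith
    unfold C0
    linarith
  · rw [if_neg h2]
    by_cases hd0 : d = 0
    · rw [if_pos hd0, hd0]
      have ha1 : a = 0 ∨ a = 1 := by omega
      rcases ha1 with h | h
      · rw [h]; push_cast; linarith
      · rw [h]; push_cast; linarith
    · rw [if_neg hd0]
      have hd1 : d = 1 := by omega
      rw [hd1]; push_cast; linarith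

/-- mass of the cliques with at least two new edges -/
noncomputable def V2 (X Y A0 B0 : Finset E) (F : Finset Φ) (κ : K) : ℝ :=
  S.V X Y (F.filter (fun φ => 2 ≤ ((A0 ∪ B0) ∩ S.A φ).card)) κ

lemma V2_le (F : Finset Φ) (κ : K) : S.V2 X Y A0 B0 F κ ≤ S.V X Y F κ :=
  S.V_mono X Y (filter_subset _ _) κ

lemma V2_nonneg (F : Finset Φ) (κ : K) : 0 ≤ S.V2 X Y A0 B0 F κ := S.V_nonneg _ _ _ _

lemma V2_eq (F : Finset Φ) (κ : K) : S.V2 X Y A0 B0 F κ
    = ∑ φ ∈ F ∩ S.mem κ, if 2 ≤ ((A0 ∪ B0) ∩ S.A φ).card then S.vv X Y κ φ else 0 := by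
  unfold V2 V
  rw [← sum_filter]
  apply sum_congr _ (fun _ _ => rfl)
  ext φ
  simp only [mem_inter, mem_filter]
  tauto

lemma V_round (hAX : Disjoint A0 X) (hAB : Disjoint A0 B0) (hA : A0.card ≤ S.m)
    (hB : B0.card ≤ S.b) (F : Finset Φ) (κ : K) :
    S.V (X ∪ A0) (Y ∪ B0) F κ ≤ S.V X Y F κ + ((S.c - 1) * ∑ x ∈ A0, S.Vz X Y F κ x
        - ∑ y ∈ B0, S.Vz X Y F κ y) + S.C0 * S.V2 X Y A0 B0 F κ := by
  have h1 : S.V (X ∪ A0) (Y ∪ B0) F κ ≤ ∑ φ ∈ F ∩ S.mem κ,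
      S.vv X Y κ φ * (1 + (S.c - 1) * (A0 ∩ (S.A φ \ S.inn κ)).card
        - (B0 ∩ (S.A φ \ S.inn κ)).card
        + (if 2 ≤ ((A0 ∪ B0) ∩ S.A φ).card then S.C0 else 0)) := by
    unfold V
    apply sum_le_sum
    intro φ _
    exact S.vv_round hAX hAB hA hB κ φ
  refine h1.trans (le_of_eq ?_)
  have e1 : ∀ A0 : Finset E, ∑ x ∈ A0, S.Vz X Y F κ x
      = ∑ φ ∈ F ∩ S.mem κ, S.vv X Y κ φ * ((A0 ∩ (S.A φ \ S.inn κ)).card : ℝ) := by
    intro A0
    unfold Vz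
    rw [sum_card_inter]
  rw [V2_eq, e1, e1]
  unfold V
  simp only [mul_sum]
  rw [← sum_sub_distrib, ← sum_add_distrib, ← sum_add_distrib]
  apply sum_congr rfl
  intro φ _
  split_ifs <;> ring

lemma V_crude (hAX : Disjoint A0 X) (hA : A0.card ≤ S.m) (F : Finset Φ) (κ : K) :
    S.V (X ∪ A0) (Y ∪ B0) F κ ≤ S.c ^ S.m * S.V X Y F κ := by
  have hc := S.c_gt
  have hcm := S.cm_ge
  unfold V
  rw [mul_sum]
  apply sum_le_sum
  intro φ _
  unfold vv
  rw [pw_step hc _ hAX]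
  apply mul_le_mul_of_nonneg_right _ (pw_nonneg hc _ _ _)
  split_ifs
  · exact pow_le_pow_right₀ hc.le ((card_le_card inter_subset_left).trans hA)
  · linarith

lemma w_crude (hAX : Disjoint A0 X) (κ : K) :
    S.w (X ∪ A0) (Y ∪ B0) κ ≤ S.c ^ (A0 ∩ S.inn κ).card * S.w X Y κ := by
  have hc := S.c_gt
  unfold w
  rw [pw_step hc _ hAX, ← mul_assoc]
  have h1 := ss_mono hc (S.st κ) hAX
  have h2 : Real.exp (-(S.η * ss S.c (X ∪ A0) (S.st κ))) ≤ Real.exp (-(S.η * ss S.c X (S.st κ))) := by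
    apply Real.exp_le_exp.mpr
    have := mul_le_mul_of_nonneg_left h1 S.η_pos.le
    linarith
  have h3 := pw_nonneg hc X Y (S.inn κ)
  have h4 : (if (B0 ∩ S.inn κ).card = 0 then S.c ^ (A0 ∩ S.inn κ).card else 0)
      ≤ S.c ^ (A0 ∩ S.inn κ).card := by
    split_ifs
    · exact le_refl _
    · positivity
  exact mul_le_mul (mul_le_mul_of_nonneg_right h4 h3) h2 (Real.exp_pos _).le
    (mul_nonneg (by positivity) h3)

lemma w_zero (hAX : Disjoint A0 X) (κ : K) (h : (B0 ∩ S.inn κ).card ≠ 0) :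
    S.w (X ∪ A0) (Y ∪ B0) κ = 0 := by
  unfold w
  rw [pw_step S.c_gt _ hAX, if_neg h, zero_mul, zero_mul]

lemma w_one (hAX : Disjoint A0 X) (hA : A0.card ≤ S.m) (κ : K)
    (h : (A0 ∩ S.inn κ).card = 1) :
    S.w (X ∪ A0) (Y ∪ B0) κ
      ≤ (S.c - 3 / 4 * (S.η * ((S.c - 1) * ∑ x ∈ A0, pp S.c X (S.st κ) x))) * S.w X Y κ := by
  have hc := S.c_gt
  set D := ∑ x ∈ A0, pp S.c X (S.st κ) x with hD
  have hD0 : 0 ≤ D := sum_nonneg (fun x _ => pp_nonneg hc X _ x)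
  have hD1 : D ≤ 2 * ((A0 ∩ S.inn κ).card : ℝ) := sum_pp_le hc X A0 _ (S.st_sub κ) (S.two κ)
  obtain ⟨he0, he1⟩ := S.eta_small hD0 (hD1.trans (by
    rw [h]; push_cast
    have := S.one_le_m
    linarith))
  have h1 := ss_step hc (S.st κ) hAX
  rw [← hD] at h1
  have h2 : Real.exp (-(S.η * ss S.c (X ∪ A0) (S.st κ)))
      ≤ Real.exp (-(S.η * ss S.c X (S.st κ))) * (1 - 3 / 4 * (S.η * ((S.c - 1) * D))) := by
    have h3 : -(S.η * ss S.c (X ∪ A0) (S.st κ))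
        ≤ -(S.η * ss S.c X (S.st κ)) + -(S.η * ((S.c - 1) * D)) := by
      have := mul_le_mul_of_nonneg_left h1 S.η_pos.le
      linarith
    refine (Real.exp_le_exp.mpr h3).trans ?_
    rw [Real.exp_add]
    exact mul_le_mul_of_nonneg_left (exp_neg_le he0 he1) (Real.exp_pos _).le
  unfold w
  rw [pw_step hc _ hAX, h, pow_one]
  have h3 := pw_nonneg hc X Y (S.inn κ)
  have h4 : (if (B0 ∩ S.inn κ).card = 0 then S.c else 0) ≤ S.c := by
    split_ifs
    · exact le_refl _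
    · linarith
  have h5 : 0 ≤ Real.exp (-(S.η * ss S.c X (S.st κ))) * (1 - 3 / 4 * (S.η * ((S.c - 1) * D))) :=
    le_trans (Real.exp_pos _).le h2
  have h6 : 0 ≤ (1 - 3 / 4 * (S.η * ((S.c - 1) * D))) := by linarith
  calc (if (B0 ∩ S.inn κ).card = 0 then S.c else 0) * pw S.c X Y (S.inn κ)
        * Real.exp (-(S.η * ss S.c (X ∪ A0) (S.st κ)))
      ≤ S.c * pw S.c X Y (S.inn κ)
        * (Real.exp (-(S.η * ss S.c X (S.st κ))) * (1 - 3 / 4 * (S.η * ((S.c - 1) * D)))) :=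
        mul_le_mul (mul_le_mul_of_nonneg_right h4 h3) h2 (Real.exp_pos _).le
          (mul_nonneg (by linarith) h3)
    _ = (S.c * (1 - 3 / 4 * (S.η * ((S.c - 1) * D))))
        * (pw S.c X Y (S.inn κ) * Real.exp (-(S.η * ss S.c X (S.st κ)))) := by ring
    _ ≤ _ := by
        apply mul_le_mul_of_nonneg_right _ (mul_nonneg h3 (Real.exp_pos _).le)
        nlinarith

/-- Each outer edge mass is dominated by `V2` as soon as there is an inner new edge. -/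
lemma Vz_le_V2 (hAB : Disjoint A0 B0) (F : Finset Φ) (κ : K)
    (hk : 1 ≤ ((A0 ∪ B0) ∩ S.inn κ).card) {z : E} (hz : z ∈ A0 ∪ B0) :
    S.Vz X Y F κ z ≤ S.V2 X Y A0 B0 F κ := by
  rw [V2_eq]
  unfold Vz
  apply sum_le_sum
  intro φ hφ
  have hv := S.vv_nonneg X Y κ φ
  by_cases h : z ∈ S.A φ \ S.inn κ
  · rw [if_pos h, if_pos]
    rw [mem_sdiff] at h
    obtain ⟨z', hz'⟩ := card_pos.mp (lt_of_lt_of_le zero_lt_one hk)
    rw [mem_inter] at hz'
    have hne : z ≠ z' := by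
      rintro rfl
      exact h.2 hz'.2
    have hsub := S.inn_sub κ φ (mem_inter.mp hφ).2
    have h2 : ({z, z'} : Finset E) ⊆ (A0 ∪ B0) ∩ S.A φ := by
      intro t ht
      rw [mem_insert, mem_singleton] at ht
      rw [mem_inter]
      rcases ht with rfl | rfl
      · exact ⟨hz, h.1⟩
      · exact ⟨hz'.1, hsub hz'.2⟩
    have h3 := card_le_card h2
    rwa [card_pair hne] at h3
  · rw [if_neg h]
    split_ifs
    · exact hv
    · exact le_refl _

lemma V2_eq_V (F : Finset Φ) (κ : K)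
    (hk : 2 ≤ ((A0 ∪ B0) ∩ S.inn κ).card) :
    S.V2 X Y A0 B0 F κ = S.V X Y F κ := by
  rw [V2_eq]
  unfold V
  apply sum_congr rfl
  intro φ hφ
  rw [if_pos]
  exact hk.trans (card_le_card (inter_subset_inter (le_refl _)
    (S.inn_sub κ φ (mem_inter.mp hφ).2)))

/-- scalar square estimate -/
lemma sc_sq {c N C V V' R P Q Z : ℝ} (hc : 1 < c) (hC : 1 ≤ C) (hV' : 0 ≤ V') (hR : 0 ≤ R)
    (hRV : R ≤ V) (hP : 0 ≤ P) (hQ : 0 ≤ Q) (h : V' ≤ V + ((c - 1) * P - Q) + C * R)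
    (hPQ : (P + Q) ^ 2 ≤ N * Z) :
    V' ^ 2 ≤ V ^ 2 + 2 * V * ((c - 1) * P - Q)
      + (2 * C + 2 * C ^ 2) * (V * R) + 2 * c ^ 2 * N * Z := by
  have h1 : V' ^ 2 ≤ (V + ((c - 1) * P - Q) + C * R) ^ 2 := pow_le_pow_left₀ hV' h 2
  have h2 : ((c - 1) * P - Q) ^ 2 ≤ c ^ 2 * (P + Q) ^ 2 := by
    rw [← mul_pow]
    apply sq_le_sq'
    · nlinarith
    · nlinarith
  have h3 : c ^ 2 * (P + Q) ^ 2 ≤ c ^ 2 * (N * Z) := mul_le_mul_of_nonneg_left hPQ (by positivity)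
  have h4 : (C * R) ^ 2 ≤ C ^ 2 * (V * R) := by
    rw [mul_pow]
    apply mul_le_mul_of_nonneg_left _ (by positivity)
    nlinarith
  have h5 : (V + ((c - 1) * P - Q) + C * R) ^ 2
      ≤ V ^ 2 + 2 * V * ((c - 1) * P - Q) + 2 * V * (C * R)
        + 2 * ((c - 1) * P - Q) ^ 2 + 2 * (C * R) ^ 2 := by
    nlinarith [sq_nonneg (((c - 1) * P - Q) - C * R)]
  have h6 : 2 * V * (C * R) = 2 * C * (V * R) := by ring
  rw [h6] at h5
  linarith

lemma sc_case0 {w w' V V' R u Z K1 K2 C2 C3 : ℝ} (hw : 0 ≤ w) (hww : w' ≤ w) (hV : 0 ≤ V)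
    (hR : 0 ≤ R) (hZ : 0 ≤ Z)
    (hsq : V' ^ 2 ≤ V ^ 2 + 2 * V * u + K1 * (V * R) + K2 * Z)
    (h2 : K1 ≤ C2) (h3 : K2 ≤ C3) :
    w' * V' ^ 2 ≤ w * V ^ 2 + 2 * w * V * u + C2 * (w * V * R) + C3 * (w * Z) := by
  have h1 : w' * V' ^ 2 ≤ w * V' ^ 2 := mul_le_mul_of_nonneg_right hww (sq_nonneg _)
  have h4 := mul_le_mul_of_nonneg_left hsq hw
  have h5 : K1 * (w * V * R) ≤ C2 * (w * V * R) := mul_le_mul_of_nonneg_right h2 (by positivity)
  have h6 : K2 * (w * Z) ≤ C3 * (w * Z) := mul_le_mul_of_nonneg_right h3 (by positivity)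
  have h7 : w * (V ^ 2 + 2 * V * u + K1 * (V * R) + K2 * Z)
      = w * V ^ 2 + 2 * w * V * u + K1 * (w * V * R) + K2 * (w * Z) := by ring
  rw [h7] at h4
  linarith

lemma sc_case1 {c w w' V V' R u Z K1 K2 K3 C2 C3 α : ℝ} (hw : 0 ≤ w)
    (hww : w' ≤ α * w) (hV : 0 ≤ V) (hR : 0 ≤ R) (hZ : 0 ≤ Z) (hα1 : 1 ≤ α) (hαc : α ≤ c)
    (hK1 : 0 ≤ K1) (hK2 : 0 ≤ K2) (hK3 : 0 ≤ K3)
    (hsq : V' ^ 2 ≤ V ^ 2 + 2 * V * u + K1 * (V * R) + K2 * Z)
    (hu : u ≤ K3 * R) (h2 : c * (2 * K3) + c * K1 ≤ C2) (h3 : c * K2 ≤ C3) :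
    w' * V' ^ 2 ≤ w * V ^ 2 * α + 2 * w * V * u + C2 * (w * V * R) + C3 * (w * Z) := by
  have hα0 : 0 ≤ α := by linarith
  have h1 : w' * V' ^ 2 ≤ (α * w) * V' ^ 2 := mul_le_mul_of_nonneg_right hww (sq_nonneg _)
  have h4 := mul_le_mul_of_nonneg_left hsq (mul_nonneg hα0 hw)
  have h5 : (α - 1) * (2 * (w * V) * u) ≤ c * (2 * K3) * (w * V * R) := by
    have h6 : 2 * (w * V) * u ≤ 2 * (w * V) * (K3 * R) :=
      mul_le_mul_of_nonneg_left hu (by positivity)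
    have h7 : (α - 1) * (2 * (w * V) * u) ≤ (α - 1) * (2 * (w * V) * (K3 * R)) :=
      mul_le_mul_of_nonneg_left h6 (by linarith)
    have h8 : (α - 1) * (2 * (w * V) * (K3 * R)) ≤ c * (2 * (w * V) * (K3 * R)) :=
      mul_le_mul_of_nonneg_right (by linarith) (by positivity)
    refine h7.trans (h8.trans (le_of_eq ?_))
    ring
  have h6 : α * (K1 * (w * V * R)) ≤ c * K1 * (w * V * R) := by
    have h61 : c * K1 * (w * V * R) = c * (K1 * (w * V * R)) := by ring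
    rw [h61]
    exact mul_le_mul_of_nonneg_right hαc (by positivity)
  have h7 : α * (K2 * (w * Z)) ≤ C3 * (w * Z) := by
    have h8 : α * (K2 * (w * Z)) ≤ c * (K2 * (w * Z)) :=
      mul_le_mul_of_nonneg_right hαc (by positivity)
    have h9 : c * K2 * (w * Z) ≤ C3 * (w * Z) := mul_le_mul_of_nonneg_right h3 (by positivity)
    rw [← mul_assoc c] at h8
    exact h8.trans h9
  have h8 : (c * (2 * K3) + c * K1) * (w * V * R) ≤ C2 * (w * V * R) :=
    mul_le_mul_of_nonneg_right h2 (by positivity)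
  have h9 : α * w * (V ^ 2 + 2 * V * u + K1 * (V * R) + K2 * Z)
      = w * V ^ 2 * α + 2 * w * V * u + (α - 1) * (2 * (w * V) * u)
        + α * (K1 * (w * V * R)) + α * (K2 * (w * Z)) := by ring
  rw [h9] at h4
  rw [add_mul] at h8
  linarith

lemma sc_case2 {w V R u N C2 : ℝ} (hw : 0 ≤ w) (hV : 0 ≤ V) (hR : 0 ≤ R)
    (hu : -(N * R) ≤ u) (h2 : 2 * N ≤ C2) :
    0 ≤ 2 * w * V * u + C2 * (w * V * R) := by
  have h1 := mul_le_mul_of_nonneg_left hu (show 0 ≤ 2 * (w * V) by positivity)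
  have h3 : 2 * N * (w * V * R) ≤ C2 * (w * V * R) := mul_le_mul_of_nonneg_right h2 (by positivity)
  have h4 : 2 * (w * V) * -(N * R) = -(2 * N * (w * V * R)) := by ring
  rw [h4] at h1
  linarith

lemma sc_case3 {w w' V V' u N M b C2 β : ℝ} (hw : 0 ≤ w) (hV : 0 ≤ V) (hV' : 0 ≤ V') (hM : 0 ≤ M)
    (hww : w' ≤ M * w) (hVV : V' ≤ M * V) (hβ : -b ≤ β) (hu : -(N * V) ≤ u)
    (h2 : M ^ 3 + b + 2 * N ≤ C2) :
    w' * V' ^ 2 ≤ w * V ^ 2 * β + 2 * w * V * u + C2 * (w * V * V) := by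
  have h3 : V' ^ 2 ≤ (M * V) ^ 2 := pow_le_pow_left₀ hV' hVV 2
  have h4 : w' * V' ^ 2 ≤ (M * w) * (M * V) ^ 2 :=
    mul_le_mul hww h3 (sq_nonneg _) (by positivity)
  have hwV2 : 0 ≤ w * V ^ 2 := by positivity
  have h6 := mul_le_mul_of_nonneg_left hβ hwV2
  have h8 := mul_le_mul_of_nonneg_left hu (show 0 ≤ 2 * (w * V) by positivity)
  have h9 := mul_le_mul_of_nonneg_right h2 hwV2
  have h10 : (M * w) * (M * V) ^ 2 = M ^ 3 * (w * V ^ 2) := by ring
  have h11 : 2 * (w * V) * -(N * V) = -(2 * N * (w * V ^ 2)) := by ring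
  have h12 : w * V * V = w * V ^ 2 := by ring
  rw [h10] at h4
  rw [h11] at h8
  rw [h12]
  have h13 : (M ^ 3 + b + 2 * N) * (w * V ^ 2)
      = M ^ 3 * (w * V ^ 2) + b * (w * V ^ 2) + 2 * N * (w * V ^ 2) := by ring
  rw [h13] at h9
  have h14 : w * V ^ 2 * -b = -(b * (w * V ^ 2)) := by ring
  rw [h14] at h6
  have h15 : 2 * w * V * u = 2 * (w * V) * u := by ring
  rw [h15]
  linarith

/-- the crucial inequality for one level -/
lemma wV_round (hAX : Disjoint A0 X) (hAB : Disjoint A0 B0) (hA : A0.card ≤ S.m)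
    (hB : B0.card ≤ S.b) (F : Finset Φ) (κ : K) :
    S.w (X ∪ A0) (Y ∪ B0) κ * S.V (X ∪ A0) (Y ∪ B0) F κ ^ 2 ≤
      S.w X Y κ * S.V X Y F κ ^ 2 * (1 + (S.c - 1) * (((A0 ∩ S.inn κ).card : ℝ)
        - 3 / 4 * (S.η * ∑ x ∈ A0, pp S.c X (S.st κ) x)) - (B0 ∩ S.inn κ).card)
      + 2 * S.w X Y κ * S.V X Y F κ * ((S.c - 1) * ∑ x ∈ A0, S.Vz X Y F κ x
        - ∑ y ∈ B0, S.Vz X Y F κ y)
      + S.C2 * (S.w X Y κ * S.V X Y F κ * S.V2 X Y A0 B0 F κ)
      + S.C3 * (S.w X Y κ * ∑ z ∈ A0 ∪ B0, S.Vz X Y F κ z ^ 2) := by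
  have hc := S.c_gt
  have hcm := S.cm_ge
  have hC0 := S.C0_ge
  have hNN := S.NN_nonneg
  have hmp := S.mpos
  have hbp := S.bpos
  have hw0 : 0 ≤ S.w X Y κ := S.w_nonneg X Y κ
  have hw'0 : 0 ≤ S.w (X ∪ A0) (Y ∪ B0) κ := S.w_nonneg _ _ κ
  have hV0 : 0 ≤ S.V X Y F κ := S.V_nonneg X Y F κ
  have hV'0 : 0 ≤ S.V (X ∪ A0) (Y ∪ B0) F κ := S.V_nonneg _ _ F κ
  have hR0 : 0 ≤ S.V2 X Y A0 B0 F κ := S.V2_nonneg F κ
  have hRV : S.V2 X Y A0 B0 F κ ≤ S.V X Y F κ := S.V2_le F κ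
  have hP0 : 0 ≤ ∑ x ∈ A0, S.Vz X Y F κ x := sum_nonneg (fun x _ => S.Vz_nonneg X Y F κ x)
  have hQ0 : 0 ≤ ∑ y ∈ B0, S.Vz X Y F κ y := sum_nonneg (fun x _ => S.Vz_nonneg X Y F κ x)
  have hZ0 : 0 ≤ ∑ z ∈ A0 ∪ B0, S.Vz X Y F κ z ^ 2 := sum_nonneg (fun x _ => sq_nonneg _)
  have hD0 : 0 ≤ ∑ x ∈ A0, pp S.c X (S.st κ) x := sum_nonneg (fun x _ => pp_nonneg hc X _ x)
  have hD1 : ∑ x ∈ A0, pp S.c X (S.st κ) x ≤ 2 * ((A0 ∩ S.inn κ).card : ℝ) :=
    sum_pp_le hc X A0 _ (S.st_sub κ) (S.two κ)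
  have hAm : (A0.card : ℝ) ≤ S.m := by exact_mod_cast hA
  have hBb : (B0.card : ℝ) ≤ S.b := by exact_mod_cast hB
  have hk1 : (A0 ∩ S.inn κ).card ≤ S.m := (card_le_card inter_subset_left).trans hA
  have hk1' : ((A0 ∩ S.inn κ).card : ℝ) ≤ S.m := by exact_mod_cast hk1
  have hk2 : (B0 ∩ S.inn κ).card ≤ S.b := (card_le_card inter_subset_left).trans hB
  have hk2' : ((B0 ∩ S.inn κ).card : ℝ) ≤ S.b := by exact_mod_cast hk2
  obtain ⟨he0, he1⟩ := S.eta_small hD0 (hD1.trans (by linarith))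
  have hk : ((A0 ∪ B0) ∩ S.inn κ).card = (A0 ∩ S.inn κ).card + (B0 ∩ S.inn κ).card := by
    rw [union_inter_distrib_right, card_union_of_disjoint]
    exact disjoint_of_subset_left inter_subset_left
      (disjoint_of_subset_right inter_subset_left hAB)
  have hVr := S.V_round (X := X) (Y := Y) hAX hAB hA hB F κ
  have hPQ : (∑ x ∈ A0, S.Vz X Y F κ x) + ∑ y ∈ B0, S.Vz X Y F κ y
      = ∑ z ∈ A0 ∪ B0, S.Vz X Y F κ z := (sum_union hAB).symm
  have hZc : ((A0 ∪ B0).card : ℝ) ≤ S.NN := by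
    rw [card_union_of_disjoint hAB]
    push_cast
    unfold NN
    linarith
  have hPQ2 : ((∑ x ∈ A0, S.Vz X Y F κ x) + ∑ y ∈ B0, S.Vz X Y F κ y) ^ 2
      ≤ S.NN * ∑ z ∈ A0 ∪ B0, S.Vz X Y F κ z ^ 2 := by
    rw [hPQ]
    have := sq_sum_le_card_mul_sum_sq (s := A0 ∪ B0) (f := fun z => S.Vz X Y F κ z)
    refine this.trans ?_
    exact mul_le_mul_of_nonneg_right hZc hZ0
  have hQV : ∑ y ∈ B0, S.Vz X Y F κ y ≤ S.NN * S.V X Y F κ := by
    have h1 : ∑ y ∈ B0, S.Vz X Y F κ y ≤ ∑ y ∈ B0, S.V X Y F κ :=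
      sum_le_sum (fun y _ => S.Vz_le_V X Y F κ y)
    rw [sum_const, nsmul_eq_mul] at h1
    refine h1.trans (mul_le_mul_of_nonneg_right ?_ hV0)
    unfold NN
    linarith
  have hsq := sc_sq hc hC0 hV'0 hR0 hRV hP0 hQ0 hVr hPQ2
  have hPR : 1 ≤ ((A0 ∪ B0) ∩ S.inn κ).card →
      ∑ x ∈ A0, S.Vz X Y F κ x ≤ S.NN * S.V2 X Y A0 B0 F κ := by
    intro hcard
    have h1 : ∑ x ∈ A0, S.Vz X Y F κ x ≤ ∑ x ∈ A0, S.V2 X Y A0 B0 F κ := by
      apply sum_le_sum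
      intro x hx
      exact S.Vz_le_V2 hAB F κ hcard (mem_union_left _ hx)
    rw [sum_const, nsmul_eq_mul] at h1
    refine h1.trans (mul_le_mul_of_nonneg_right ?_ hR0)
    unfold NN
    linarith
  have hQR : 1 ≤ ((A0 ∪ B0) ∩ S.inn κ).card →
      ∑ x ∈ B0, S.Vz X Y F κ x ≤ S.NN * S.V2 X Y A0 B0 F κ := by
    intro hcard
    have h1 : ∑ x ∈ B0, S.Vz X Y F κ x ≤ ∑ x ∈ B0, S.V2 X Y A0 B0 F κ := by
      apply sum_le_sum
      intro x hx
      exact S.Vz_le_V2 hAB F κ hcard (mem_union_right _ hx)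
    rw [sum_const, nsmul_eq_mul] at h1
    refine h1.trans (mul_le_mul_of_nonneg_right ?_ hR0)
    unfold NN
    linarith
  have hwc := S.w_crude (Y := Y) (B0 := B0) hAX κ
  have hw1 := S.w_one (Y := Y) (B0 := B0) hAX hA κ
  have hwz := S.w_zero (Y := Y) (B0 := B0) hAX κ
  have hVc := S.V_crude (Y := Y) (B0 := B0) hAX hA F κ
  have hV2V := S.V2_eq_V (X := X) (Y := Y) (A0 := A0) (B0 := B0) F κ
  have hη8 : S.η * 8 ≤ 1 := by
    have h6 := S.η_le
    have h7 := S.one_le_b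
    have h8 := S.η_pos
    nlinarith
  have hηp := S.η_pos
  have hp1 : 0 ≤ 2 * S.c ^ 2 * S.NN := by positivity
  have hp2 : 0 ≤ 2 * S.C0 + 2 * S.C0 ^ 2 := by positivity
  have hp3 : 0 ≤ (S.c ^ S.m) ^ 3 := by positivity
  have hp4 : 2 * S.C0 + 2 * S.C0 ^ 2 ≤ S.c * (2 * S.C0 + 2 * S.C0 ^ 2) := by nlinarith
  have hp5 : 2 * S.c ^ 2 * S.NN ≤ S.c * (2 * S.c ^ 2 * S.NN) := by nlinarith
  have hC3e : S.C3 = S.c * (2 * S.c ^ 2 * S.NN) := by unfold C3; ring
  have hC2e : S.C2 = (S.c ^ S.m) ^ 3 + S.b + 2 * S.NN + 2 * S.c ^ 2 * S.NN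
      + S.c * (2 * S.C0 + 2 * S.C0 ^ 2) := rfl
  clear hVr hPQ
  generalize S.C2 = C2 at hC2e ⊢
  generalize S.C3 = C3 at hC3e ⊢
  generalize S.C0 = C0 at *
  generalize S.NN = N at *
  generalize S.w X Y κ = w at *
  generalize S.V X Y F κ = V at *
  generalize ∑ x ∈ A0, S.Vz X Y F κ x = P at *
  generalize ∑ y ∈ B0, S.Vz X Y F κ y = Q at *
  generalize S.V (X ∪ A0) (Y ∪ B0) F κ = V' at *
  generalize S.w (X ∪ A0) (Y ∪ B0) κ = w' at *
  generalize S.V2 X Y A0 B0 F κ = R at *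
  generalize ∑ x ∈ A0, pp S.c X (S.st κ) x = D at *
  generalize ∑ z ∈ A0 ∪ B0, S.Vz X Y F κ z ^ 2 = Z at *
  generalize (A0 ∩ S.inn κ).card = a at *
  generalize (B0 ∩ S.inn κ).card = d at *
  generalize ((A0 ∪ B0) ∩ S.inn κ).card = k at *
  generalize hMdef : S.c ^ S.m = M at *
  generalize S.η = e at *
  subst hk
  rcases Nat.lt_or_ge (a + d) 2 with hlt | hge
  · rcases Nat.eq_zero_or_pos d with hd0 | hdpos
    · rcases Nat.eq_zero_or_pos a with ha0 | hapos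
      · -- no new inner edge
        subst ha0 hd0
        rw [pow_zero, one_mul] at hwc
        have hD00 : D = 0 := by
          push_cast at hD1
          linarith
        have h := sc_case0 (C2 := C2) (C3 := C3) hw0 hwc hV0 hR0 hZ0 hsq (by rw [hC2e]; linarith)
          (by rw [hC3e]; linarith)
        rw [hD00]
        push_cast
        have h1 : (1 + (S.c - 1) * (0 - 3 / 4 * (e * 0)) - 0 : ℝ) = 1 := by ring
        rw [h1, mul_one]
        exact h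
      · -- one new Maker edge inside
        have ha1 : a = 1 := by omega
        subst ha1 hd0
        have hww := hw1 rfl
        have hP' := hPR (by omega)
        have hu : (S.c - 1) * P - Q ≤ (S.c * N) * R := by
          have : (S.c - 1) * P ≤ S.c * (N * R) :=
            mul_le_mul (by linarith) hP' hP0 (by linarith)
          linarith
        have hD2 : D ≤ 2 := by push_cast at hD1; linarith
        have hα2 : 1 ≤ S.c - 3 / 4 * (e * ((S.c - 1) * D)) := by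
          have h7 : e * D ≤ 1 := by nlinarith
          have h8 : (S.c - 1) * (e * D) ≤ (S.c - 1) * 1 := mul_le_mul_of_nonneg_left h7 (by linarith)
          have h9 : e * ((S.c - 1) * D) = (S.c - 1) * (e * D) := by ring
          rw [h9]
          linarith
        have h := sc_case1 (c := S.c) (C2 := C2) (C3 := C3) hw0 hww hV0 hR0 hZ0 hα2 (by linarith) hp2 hp1
          (by positivity) hsq hu (by
            rw [hC2e]
            have : S.c * (2 * (S.c * N)) = 2 * S.c ^ 2 * N := by ring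
            rw [this]
            linarith) (by rw [hC3e])
        push_cast
        have h1 : (1 + (S.c - 1) * (1 - 3 / 4 * (e * D)) - 0 : ℝ)
            = S.c - 3 / 4 * (e * ((S.c - 1) * D)) := by ring
        rw [h1]
        exact h
    · -- one new Breaker edge inside
      have hd1 : d = 1 := by omega
      have ha0 : a = 0 := by omega
      subst hd1 ha0
      have hw'z := hwz (by omega)
      have hQ' := hQR (by omega)
      have hD00 : D = 0 := by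
        push_cast at hD1
        linarith
      have hcP : 0 ≤ (S.c - 1) * P := mul_nonneg (by linarith) hP0
      have h := sc_case2 (C2 := C2) (u := (S.c - 1) * P - Q) (N := N) hw0 hV0 hR0 (by linarith)
        (by rw [hC2e]; linarith)
      rw [hw'z, zero_mul, hD00]
      push_cast
      have h1 : (1 + (S.c - 1) * (0 - 3 / 4 * (e * 0)) - 1 : ℝ) = 0 := by ring
      rw [h1, mul_zero, zero_add]
      have h2 : 0 ≤ C3 * (w * Z) := by
        rw [hC3e]; positivity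
      linarith
  · -- at least two new edges inside
    have hRV' : R = V := hV2V hge
    subst hRV'
    have hcP : 0 ≤ (S.c - 1) * P := mul_nonneg (by linarith) hP0
    have h1 : w' ≤ M * w := by
      refine hwc.trans ?_
      rw [← hMdef]
      exact mul_le_mul_of_nonneg_right (pow_le_pow_right₀ hc.le hk1) hw0
    have h5 : -((S.b : ℝ)) ≤ 1 + (S.c - 1) * ((a : ℝ) - 3 / 4 * (e * D)) - d := by
      have h7 : e * D ≤ a := by
        have h8 : (0 : ℝ) ≤ a := Nat.cast_nonneg a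
        have h9 : e * D ≤ e * (2 * a) := mul_le_mul_of_nonneg_left hD1 hηp.le
        nlinarith
      have h8 : 0 ≤ (S.c - 1) * ((a : ℝ) - 3 / 4 * (e * D)) := by
        apply mul_nonneg (by linarith)
        have : 0 ≤ e * D := mul_nonneg hηp.le hD0
        linarith
      linarith
    have h := sc_case3 (C2 := C2) (u := (S.c - 1) * P - Q) (N := N) hw0 hR0 hV'0
      (by linarith) h1 hVc h5 (by linarith) (by rw [hC2e]; linarith)
    have h2 : 0 ≤ C3 * (w * Z) := by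
      rw [hC3e]; positivity
    linarith

end round

end Sys

end Pool.Agent.Helper340.MB
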