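import Mathlib
import Pool.Agent.Helper340.MB.Level

set_option autoImplicit false
set_option linter.unusedVariables false
set_option linter.unusedSectionVars false
set_option linter.unusedSimpArgs false

namespace Pool.Agent.Helper340.MB

open Finset

namespace Sys

variable {E Φ K U : Type*} [DecidableEq E] [DecidableEq Φ] [Fintype K] [Fintype U]
variable (S : Sys E Φ K U)

/-- mass of cross terms -/
noncomputable def X2 (X Y A0 B0 : Finset E) (F : Finset Φ) : ℝ :=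
  ∑ κ, S.lam κ * (S.w X Y κ * S.V X Y F κ * S.V2 X Y A0 B0 F κ)

section
variable {X Y A0 B0 : Finset E}

lemma G_round (hAX : Disjoint A0 X) (hAB : Disjoint A0 B0) (hA : A0.card ≤ S.m)
    (hB : B0.card ≤ S.b) (F : Finset Φ) :
    S.G (X ∪ A0) (Y ∪ B0) F ≤ S.G X Y F
      + (S.c - 1) * ∑ x ∈ A0, (S.G0 X Y F x - 3 / 4 * (S.η * S.DG X Y F x) + S.H X Y F x)
      - ∑ y ∈ B0, (S.G0 X Y F y + S.H X Y F y)
      + S.C2 * S.X2 X Y A0 B0 F + S.C3 * ∑ z ∈ A0 ∪ B0, S.Sq X Y F z := by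
  obtain ⟨D, hD⟩ : ∃ D : K → ℝ, ∀ κ, D κ = ∑ x ∈ A0, pp S.c X (S.st κ) x := ⟨_, fun _ => rfl⟩
  obtain ⟨P, hP⟩ : ∃ P : K → ℝ, ∀ κ, P κ = ∑ x ∈ A0, S.Vz X Y F κ x := ⟨_, fun _ => rfl⟩
  obtain ⟨Q, hQ⟩ : ∃ Q : K → ℝ, ∀ κ, Q κ = ∑ x ∈ B0, S.Vz X Y F κ x := ⟨_, fun _ => rfl⟩
  obtain ⟨Z, hZ⟩ : ∃ Z : K → ℝ, ∀ κ, Z κ = ∑ z ∈ A0 ∪ B0, S.Vz X Y F κ z ^ 2 :=
    ⟨_, fun _ => rfl⟩
  have h1 : S.G (X ∪ A0) (Y ∪ B0) F ≤ ∑ κ, S.lam κ *
      (S.w X Y κ * S.V X Y F κ ^ 2 * (1 + (S.c - 1) * (((A0 ∩ S.inn κ).card : ℝ)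
        - 3 / 4 * (S.η * D κ)) - (B0 ∩ S.inn κ).card)
      + 2 * S.w X Y κ * S.V X Y F κ * ((S.c - 1) * P κ - Q κ)
      + S.C2 * (S.w X Y κ * S.V X Y F κ * S.V2 X Y A0 B0 F κ)
      + S.C3 * (S.w X Y κ * Z κ)) := by
    unfold G g
    apply sum_le_sum
    intro κ _
    rw [hD, hP, hQ, hZ]
    exact mul_le_mul_of_nonneg_left (S.wV_round hAX hAB hA hB F κ) (S.lam_nonneg κ)
  refine h1.trans (le_of_eq ?_)
  have e1 : ∑ x ∈ A0, S.G0 X Y F x = ∑ κ, S.g X Y F κ * ((A0 ∩ S.inn κ).card : ℝ) := by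
    unfold G0
    rw [sum_card_inter]
  have e2 : ∑ x ∈ B0, S.G0 X Y F x = ∑ κ, S.g X Y F κ * ((B0 ∩ S.inn κ).card : ℝ) := by
    unfold G0
    rw [sum_card_inter]
  have e3 : ∑ x ∈ A0, 3 / 4 * (S.η * S.DG X Y F x) = ∑ κ, S.g X Y F κ * (3 / 4 * (S.η * D κ)) := by
    unfold DG
    rw [← mul_sum, ← mul_sum, sum_comm, mul_sum, mul_sum]
    apply sum_congr rfl
    intro κ _
    rw [hD, ← mul_sum]
    ring
  have e4 : ∑ x ∈ A0, S.H X Y F x
      = ∑ κ, S.lam κ * (2 * S.w X Y κ * S.V X Y F κ * P κ) := by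
    unfold H
    rw [sum_comm]
    apply sum_congr rfl
    intro κ _
    rw [hP, ← mul_sum, ← mul_sum]
  have e5 : ∑ x ∈ B0, S.H X Y F x
      = ∑ κ, S.lam κ * (2 * S.w X Y κ * S.V X Y F κ * Q κ) := by
    unfold H
    rw [sum_comm]
    apply sum_congr rfl
    intro κ _
    rw [hQ, ← mul_sum, ← mul_sum]
  have e6 : ∑ z ∈ A0 ∪ B0, S.Sq X Y F z = ∑ κ, S.lam κ * (S.w X Y κ * Z κ) := by
    unfold Sq
    rw [sum_comm]
    apply sum_congr rfl
    intro κ _
    rw [hZ, ← mul_sum, ← mul_sum]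
  rw [sum_add_distrib, sum_add_distrib, sum_sub_distrib, e1, e2, e3, e4, e5, e6]
  unfold G X2
  simp only [mul_sum, mul_add, mul_sub]
  rw [← sum_sub_distrib, ← sum_add_distrib, ← sum_add_distrib, ← sum_add_distrib,
    ← sum_sub_distrib, ← sum_add_distrib, ← sum_add_distrib]
  apply sum_congr rfl
  intro κ _
  unfold g
  ring

lemma L_round (hAX : Disjoint A0 X) (hAB : Disjoint A0 B0) (hA : A0.card ≤ S.m)
    (hB : B0.card ≤ S.b) (F : Finset Φ) :
    S.L X Y F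
      + (S.c - 1) * ∑ x ∈ A0, (S.j X Y F x + S.η / 2 * (S.DT X Y F x + S.DG X Y F x))
      - ∑ y ∈ B0, (S.j X Y F y - S.η / 4 * (S.DT X Y F y + S.DG X Y F y))
      - S.C1 * S.T X Y (F.filter (fun φ => 2 ≤ ((A0 ∪ B0) ∩ S.A φ).card))
      - S.C2 * S.X2 X Y A0 B0 F - S.C3 * ∑ z ∈ A0 ∪ B0, S.Sq X Y F z
      ≤ S.L (X ∪ A0) (Y ∪ B0) F := by
  have h1 := S.T_round (X := X) (Y := Y) hAX hAB hA F
  have h2 := S.G_round (X := X) (Y := Y) hAX hAB hA hB F
  have h3 : (S.c - 1) * ∑ x ∈ A0, (S.j X Y F x + S.η / 2 * (S.DT X Y F x + S.DG X Y F x))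
      ≤ (S.c - 1) * ∑ x ∈ A0, (S.T0 X Y F x + S.η * S.DT X Y F x)
        - (S.c - 1) * ∑ x ∈ A0,
          (S.G0 X Y F x - 3 / 4 * (S.η * S.DG X Y F x) + S.H X Y F x) := by
    rw [← mul_sub, ← sum_sub_distrib]
    apply mul_le_mul_of_nonneg_left _ (by have := S.c_gt; linarith)
    apply sum_le_sum
    intro x _
    unfold j
    have h4 := mul_nonneg S.η_pos.le (S.DT_nonneg X Y F x)
    linarith
  have h4 : ∑ y ∈ B0, (S.j X Y F y - S.η / 4 * (S.DT X Y F y + S.DG X Y F y))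
      = ∑ y ∈ B0, S.T0 X Y F y - ∑ y ∈ B0, (S.G0 X Y F y + S.H X Y F y) := by
    rw [← sum_sub_distrib]
    apply sum_congr rfl
    intro y _
    unfold j
    ring
  unfold L
  rw [h4]
  linarith

/-- the family is locally optimal -/
def Clean (X Y : Finset E) (F : Finset Φ) : Prop := ∀ F' ⊆ F, S.L X Y F' ≤ S.L X Y F

lemma exists_clean (X Y : Finset E) (F : Finset Φ) :
    ∃ F' ⊆ F, S.Clean X Y F' ∧ S.L X Y F ≤ S.L X Y F' := by
  obtain ⟨F', hF', hmax⟩ := exists_max_image F.powerset (fun F' => S.L X Y F')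
    ⟨F, mem_powerset.mpr (le_refl _)⟩
  rw [mem_powerset] at hF'
  refine ⟨F', hF', ?_, hmax F (mem_powerset.mpr (le_refl _))⟩
  intro F'' h
  exact hmax F'' (mem_powerset.mpr (h.trans hF'))

lemma V_filter (X Y : Finset E) (F : Finset Φ) (P : Φ → Prop) [DecidablePred P] (κ : K) :
    S.V X Y (F.filter P) κ + S.V X Y (F.filter (fun φ => ¬ P φ)) κ = S.V X Y F κ := by
  unfold V
  rw [filter_inter, filter_inter, sum_filter_add_sum_filter_not]

lemma T_filter (X Y : Finset E) (F : Finset Φ) (P : Φ → Prop) [DecidablePred P] :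
    S.T X Y (F.filter P) + S.T X Y (F.filter (fun φ => ¬ P φ)) = S.T X Y F := by
  unfold T
  rw [sum_filter_add_sum_filter_not]

lemma clean_gain {F : Finset Φ} (h : S.Clean X Y F) (P : Φ → Prop) [DecidablePred P] :
    ∑ κ, S.lam κ * (S.w X Y κ * (S.V X Y (F.filter P) κ
      * (2 * S.V X Y F κ - S.V X Y (F.filter P) κ))) ≤ S.T X Y (F.filter P) := by
  have h1 := h (F.filter (fun φ => ¬ P φ)) (filter_subset _ _)
  unfold L at h1
  have h2 := S.T_filter X Y F P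
  have h3 : S.G X Y F - S.G X Y (F.filter (fun φ => ¬ P φ))
      = ∑ κ, S.lam κ * (S.w X Y κ * (S.V X Y (F.filter P) κ
      * (2 * S.V X Y F κ - S.V X Y (F.filter P) κ))) := by
    unfold G g
    rw [← sum_sub_distrib]
    apply sum_congr rfl
    intro κ _
    have h4 := S.V_filter X Y F P κ
    rw [show S.V X Y (F.filter (fun φ => ¬ P φ)) κ
      = S.V X Y F κ - S.V X Y (F.filter P) κ by linarith]
    ring
  linarith

lemma clean_gain' {F : Finset Φ} (h : S.Clean X Y F) (P : Φ → Prop) [DecidablePred P] :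
    ∑ κ, S.lam κ * (S.w X Y κ * S.V X Y F κ * S.V X Y (F.filter P) κ)
      ≤ S.T X Y (F.filter P) := by
  refine le_trans ?_ (S.clean_gain h P)
  apply sum_le_sum
  intro κ _
  apply mul_le_mul_of_nonneg_left _ (S.lam_nonneg κ)
  rw [mul_assoc]
  apply mul_le_mul_of_nonneg_left _ (S.w_nonneg X Y κ)
  have h1 := S.V_mono X Y (filter_subset P F) κ
  have h2 := S.V_nonneg X Y (F.filter P) κ
  nlinarith

lemma X2_le {F : Finset Φ} (h : S.Clean X Y F) :
    S.X2 X Y A0 B0 F ≤ S.T X Y (F.filter (fun φ => 2 ≤ ((A0 ∪ B0) ∩ S.A φ).card)) :=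
  S.clean_gain' h _

lemma Vz_eq_zero (F : Finset Φ) (κ : K) {z : E} (h : z ∈ S.inn κ) : S.Vz X Y F κ z = 0 := by
  unfold Vz
  apply sum_eq_zero
  intro φ _
  rw [if_neg]
  rw [mem_sdiff]
  exact fun h' => h'.2 h

/-- in a clean family the linear functional is at least the star mass minus the square term -/
lemma j_lower {F : Finset Φ} (h : S.Clean X Y F) (z : E) :
    S.η / 4 * (S.DT X Y F z + S.DG X Y F z) - S.Sq X Y F z ≤ S.j X Y F z := by
  have h1 := S.clean_gain h (fun φ => z ∈ S.A φ)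
  have h2 : S.T X Y (F.filter (fun φ => z ∈ S.A φ)) = S.T0 X Y F z := by
    unfold T T0
    rw [sum_filter]
  have h3 : S.G0 X Y F z + S.H X Y F z - S.Sq X Y F z
      ≤ ∑ κ, S.lam κ * (S.w X Y κ * (S.V X Y (F.filter (fun φ => z ∈ S.A φ)) κ
      * (2 * S.V X Y F κ - S.V X Y (F.filter (fun φ => z ∈ S.A φ)) κ))) := by
    unfold G0 H Sq
    rw [← sum_add_distrib, ← sum_sub_distrib]
    apply sum_le_sum
    intro κ _
    by_cases hz : z ∈ S.inn κ
    · have h4 : S.V X Y (F.filter (fun φ => z ∈ S.A φ)) κ = S.V X Y F κ := by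
        unfold V
        apply sum_congr _ (fun _ _ => rfl)
        ext φ
        simp only [mem_inter, mem_filter]
        constructor
        · rintro ⟨⟨h5, h6⟩, h7⟩
          exact ⟨h5, h7⟩
        · rintro ⟨h5, h7⟩
          exact ⟨⟨h5, S.inn_sub κ φ h7 hz⟩, h7⟩
      rw [h4, if_pos hz, S.Vz_eq_zero F κ hz]
      unfold g
      apply le_of_eq
      ring
    · have h4 : S.V X Y (F.filter (fun φ => z ∈ S.A φ)) κ = S.Vz X Y F κ z := by
        unfold V Vz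
        rw [← sum_filter]
        apply sum_congr _ (fun _ _ => rfl)
        ext φ
        simp only [mem_inter, mem_filter, mem_sdiff]
        tauto
      rw [h4, if_neg hz]
      apply le_of_eq
      ring
  unfold j
  linarith

/-- cap on the mass through two edges -/
lemma cap {F : Finset Φ} (h : S.Clean X Y F) {z z' : E} {κ : K} {l3 : ℝ} (hl3 : 0 < l3)
    (hl : l3 ≤ S.lam κ) (hk : ∀ φ, z ∈ S.A φ → z' ∈ S.A φ → φ ∈ S.mem κ) :
    S.T X Y (F.filter (fun φ => z ∈ S.A φ ∧ z' ∈ S.A φ))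
      ≤ Real.exp (3 * (S.η * Fintype.card U)) / l3 := by
  have hc := S.c_gt
  set P : Φ → Prop := fun φ => z ∈ S.A φ ∧ z' ∈ S.A φ with hP
  have h1 := S.clean_gain' h P
  set t := S.T X Y (F.filter P) with ht
  set v := S.V X Y (F.filter P) κ with hv
  set p := pw S.c X Y (S.inn κ) with hp
  set e := Real.exp (S.η * Fintype.card U) with he
  have he0 : 0 < e := Real.exp_pos _
  have hp0 : 0 ≤ p := pw_nonneg hc _ _ _
  have hp1 : p ≤ 1 := pw_le_one hc _ _ _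
  have hv0 : 0 ≤ v := S.V_nonneg _ _ _ _
  have ht0 : 0 ≤ t := S.T_nonneg _ _ _
  have h2 : t ≤ e * (p * v) := by
    rw [ht, hv]
    unfold T V
    have h3 : F.filter P ∩ S.mem κ = F.filter P := by
      rw [inter_eq_left]
      intro φ hφ
      rw [mem_filter] at hφ
      exact hk φ hφ.2.1 hφ.2.2
    rw [h3, mul_sum, mul_sum]
    apply sum_le_sum
    intro φ hφ
    rw [mem_filter] at hφ
    have hφκ := hk φ hφ.2.1 hφ.2.2
    unfold T1 vv
    rw [pw_split X Y (S.inn_sub κ φ hφκ), ← hp]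
    have h4 : Real.exp (S.η * ss S.c X (S.stA φ)) ≤ e := by
      apply Real.exp_le_exp.mpr
      exact mul_le_mul_of_nonneg_left (ss_le hc X _) S.η_pos.le
    have h5 : 0 ≤ p * pw S.c X Y (S.A φ \ S.inn κ) := mul_nonneg hp0 (pw_nonneg hc _ _ _)
    calc p * pw S.c X Y (S.A φ \ S.inn κ) * Real.exp (S.η * ss S.c X (S.stA φ))
        ≤ p * pw S.c X Y (S.A φ \ S.inn κ) * e := mul_le_mul_of_nonneg_left h4 h5
      _ = _ := by ring
  have h3 : l3 * (p * v ^ 2) ≤ e * t := by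
    have h4 : S.lam κ * (S.w X Y κ * S.V X Y F κ * v) ≤ t := by
      refine le_trans ?_ h1
      apply single_le_sum (f := fun κ => S.lam κ * (S.w X Y κ * S.V X Y F κ
        * S.V X Y (F.filter P) κ)) _ (mem_univ κ)
      intro κ' _
      exact mul_nonneg (S.lam_nonneg κ') (mul_nonneg (mul_nonneg (S.w_nonneg _ _ _)
        (S.V_nonneg _ _ _ _)) (S.V_nonneg _ _ _ _))
    have h5 : p ≤ e * S.w X Y κ := by
      unfold w
      rw [← hp]
      have h6 : (1 : ℝ) ≤ e * Real.exp (-(S.η * ss S.c X (S.st κ))) := by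
        rw [he, ← Real.exp_add, Real.one_le_exp_iff]
        have := mul_le_mul_of_nonneg_left (ss_le hc X (S.st κ)) S.η_pos.le
        linarith
      calc p = p * 1 := by ring
        _ ≤ p * (e * Real.exp (-(S.η * ss S.c X (S.st κ)))) := mul_le_mul_of_nonneg_left h6 hp0
        _ = _ := by ring
    have h6 : v ≤ S.V X Y F κ := S.V_mono X Y (filter_subset _ _) κ
    have h7 : p * v ^ 2 ≤ e * S.w X Y κ * (S.V X Y F κ * v) := by
      rw [sq]
      exact mul_le_mul h5 (mul_le_mul_of_nonneg_right h6 hv0) (mul_nonneg hv0 hv0)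
        (mul_nonneg he0.le (S.w_nonneg _ _ _))
    calc l3 * (p * v ^ 2) ≤ S.lam κ * (e * S.w X Y κ * (S.V X Y F κ * v)) :=
          mul_le_mul hl h7 (by positivity) (by linarith)
      _ = e * (S.lam κ * (S.w X Y κ * S.V X Y F κ * v)) := by ring
      _ ≤ e * t := mul_le_mul_of_nonneg_left h4 he0.le
  have h4 : Real.exp (3 * (S.η * Fintype.card U)) = e ^ 3 := by
    rw [he, ← Real.exp_nat_mul]
    norm_num
  rw [h4, le_div_iff₀ hl3]
  rcases ht0.eq_or_lt with h5 | h5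
  · rw [← h5, zero_mul]; positivity
  · -- `t * l3 * t ≤ e^3 * t`
    have h6 : (t * l3) * t ≤ e ^ 3 * t := by
      have h7 : t * t ≤ (e * (p * v)) * (e * (p * v)) := mul_le_mul h2 h2 ht0 (by positivity)
      have h8 : l3 * (t * t) ≤ l3 * ((e * (p * v)) * (e * (p * v))) :=
        mul_le_mul_of_nonneg_left h7 hl3.le
      have h9 : l3 * ((e * (p * v)) * (e * (p * v))) = e ^ 2 * p * (l3 * (p * v ^ 2)) := by ring
      have h10 : e ^ 2 * p * (l3 * (p * v ^ 2)) ≤ e ^ 2 * p * (e * t) :=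
        mul_le_mul_of_nonneg_left h3 (by positivity)
      have h11 : e ^ 2 * p * (e * t) = p * (e ^ 3 * t) := by ring
      have h12 : p * (e ^ 3 * t) ≤ 1 * (e ^ 3 * t) :=
        mul_le_mul_of_nonneg_right hp1 (by positivity)
      calc (t * l3) * t = l3 * (t * t) := by ring
        _ ≤ e ^ 3 * t := by linarith
    exact le_of_mul_le_mul_right h6 h5

/-- bound for the mass of the cliques with at least two new edges -/
lemma T_two_le {F : Finset Φ} {Cap : ℝ}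
    (hcap : ∀ z z', z ≠ z' → S.T X Y (F.filter (fun φ => z ∈ S.A φ ∧ z' ∈ S.A φ)) ≤ Cap)
    (hC : 0 ≤ Cap) (Z : Finset E) (hZ : (Z.card : ℝ) ≤ S.NN) :
    S.T X Y (F.filter (fun φ => 2 ≤ (Z ∩ S.A φ).card)) ≤ S.NN ^ 2 * Cap := by
  have h1 : S.T X Y (F.filter (fun φ => 2 ≤ (Z ∩ S.A φ).card))
      ≤ ∑ p ∈ Z ×ˢ Z, if p.1 ≠ p.2 then
          S.T X Y (F.filter (fun φ => p.1 ∈ S.A φ ∧ p.2 ∈ S.A φ)) else 0 := by
    unfold T
    have h2 : ∀ p : E × E, (if p.1 ≠ p.2 then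
          ∑ φ ∈ F.filter (fun φ => p.1 ∈ S.A φ ∧ p.2 ∈ S.A φ), S.T1 X Y φ else 0)
        = ∑ φ ∈ F, if p.1 ≠ p.2 ∧ p.1 ∈ S.A φ ∧ p.2 ∈ S.A φ then S.T1 X Y φ else 0 := by
      intro p
      by_cases hp : p.1 ≠ p.2
      · rw [if_pos hp, sum_filter]
        apply sum_congr rfl
        intro φ _
        by_cases h3 : p.1 ∈ S.A φ ∧ p.2 ∈ S.A φ
        · rw [if_pos h3, if_pos ⟨hp, h3⟩]
        · rw [if_neg h3, if_neg (fun h4 => h3 h4.2)]
      · rw [if_neg hp]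
        symm
        apply sum_eq_zero
        intro φ _
        rw [if_neg (fun h4 => hp h4.1)]
    rw [sum_congr rfl (fun p _ => h2 p), sum_comm, sum_filter]
    apply sum_le_sum
    intro φ _
    split_ifs with h3
    · have h4 : 1 < (Z ∩ S.A φ).card := h3
      obtain ⟨z, hz, z', hz', hne⟩ := one_lt_card.mp h4
      rw [mem_inter] at hz hz'
      have h5 : (z, z') ∈ Z ×ˢ Z := mem_product.mpr ⟨hz.1, hz'.1⟩
      have h6 := single_le_sum (f := fun p : E × E =>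
        if p.1 ≠ p.2 ∧ p.1 ∈ S.A φ ∧ p.2 ∈ S.A φ then S.T1 X Y φ else 0) (by
          intro p _
          split_ifs
          · exact S.T1_nonneg X Y φ
          · exact le_refl _) h5
      refine le_trans (le_of_eq ?_) h6
      dsimp only
      rw [if_pos ⟨hne, hz.2, hz'.2⟩]
    · apply sum_nonneg
      intro p _
      split_ifs
      · exact S.T1_nonneg X Y φ
      · exact le_refl _
  refine h1.trans ?_
  have h2 : ∀ p ∈ Z ×ˢ Z, (if p.1 ≠ p.2 then
          S.T X Y (F.filter (fun φ => p.1 ∈ S.A φ ∧ p.2 ∈ S.A φ)) else 0) ≤ Cap := by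
    intro p _
    split_ifs with h3
    · exact hcap _ _ h3
    · exact hC
  refine (sum_le_sum h2).trans ?_
  rw [sum_const, nsmul_eq_mul, card_product]
  apply mul_le_mul_of_nonneg_right _ hC
  push_cast
  rw [sq]
  exact mul_le_mul hZ hZ (Nat.cast_nonneg _) S.NN_nonneg

lemma C3_ge : 1 ≤ S.C3 := by
  unfold C3 NN
  have h1 := S.one_le_m
  have h2 := S.one_le_b
  have h3 : 1 ≤ S.c ^ 3 := one_le_pow₀ S.c_gt.le
  nlinarith

lemma C2_nonneg : 0 ≤ S.C2 := by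
  unfold C2
  have h1 := S.NN_nonneg
  have h2 := S.c_gt
  have h3 := S.C0_ge
  have h4 := S.bpos
  have h5 : 0 ≤ S.C0 := by linarith
  have h6 : 0 ≤ S.c := by linarith
  positivity

/-- **Round lemma.** -/
theorem round {F : Finset Φ} {ρ Cap : ℝ} (hclean : S.Clean X Y F)
    (hchain : ∀ z, z ∉ X → z ∉ Y → S.Sq X Y F z ≤ ρ * (S.DT X Y F z + S.DG X Y F z))
    (hρ0 : 0 ≤ ρ) (hρ1 : S.C3 * ρ ≤ S.η / 4) (hρ2 : S.C3 * ρ ≤ (S.c - 1) * (S.η / 4))
    (hcap : ∀ z z', z ≠ z' → S.T X Y (F.filter (fun φ => z ∈ S.A φ ∧ z' ∈ S.A φ)) ≤ Cap)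
    (hC : 0 ≤ Cap)
    (hAX : Disjoint A0 X) (hAY : Disjoint A0 Y) (hBX : Disjoint B0 X) (hBY : Disjoint B0 Y)
    (hAB : Disjoint A0 B0) (hA : A0.card ≤ S.m) (hB : B0.card ≤ S.b)
    (hfull : B0 = ∅ ∨ A0.card = S.m)
    (hsel : ∀ x ∈ A0, ∀ y ∈ B0, S.j X Y F y ≤ S.j X Y F x) :
    S.L X Y F - (S.C1 + S.C2) * (S.NN ^ 2 * Cap) ≤ S.L (X ∪ A0) (Y ∪ B0) F := by
  have hc := S.c_gt
  have hη := S.η_pos
  have h1 := S.L_round (X := X) (Y := Y) hAX hAB hA hB F
  have hC3 := S.C3_ge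
  have hDT := S.DT_nonneg X Y F
  have hDG := S.DG_nonneg X Y F
  have hρη : ρ ≤ S.η / 4 := by nlinarith
  have hfree : ∀ z ∈ A0 ∪ B0, z ∉ X ∧ z ∉ Y := by
    intro z hz
    rcases mem_union.mp hz with h | h
    · exact ⟨disjoint_left.mp hAX h, disjoint_left.mp hAY h⟩
    · exact ⟨disjoint_left.mp hBX h, disjoint_left.mp hBY h⟩
  have hj0 : ∀ z ∈ A0 ∪ B0, 0 ≤ S.j X Y F z := by
    intro z hz
    have h2 := S.j_lower hclean z
    have h3 := hchain z (hfree z hz).1 (hfree z hz).2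
    have h4 : ρ * (S.DT X Y F z + S.DG X Y F z) ≤ S.η / 4 * (S.DT X Y F z + S.DG X Y F z) :=
      mul_le_mul_of_nonneg_right hρη (by linarith [hDT z, hDG z])
    linarith
  have hZc : ((A0 ∪ B0).card : ℝ) ≤ S.NN := by
    rw [card_union_of_disjoint hAB]
    push_cast
    unfold NN
    have h5 : (A0.card : ℝ) ≤ S.m := by exact_mod_cast hA
    have h6 : (B0.card : ℝ) ≤ S.b := by exact_mod_cast hB
    linarith
  have hT2 := S.T_two_le hcap hC (A0 ∪ B0) hZc
  have hX2 := S.X2_le (A0 := A0) (B0 := B0) hclean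
  have hC1 : 0 ≤ S.C1 := by unfold C1; have := S.bpos; linarith
  have hC2 := S.C2_nonneg
  have h2 : S.C1 * S.T X Y (F.filter (fun φ => 2 ≤ ((A0 ∪ B0) ∩ S.A φ).card))
      ≤ S.C1 * (S.NN ^ 2 * Cap) := mul_le_mul_of_nonneg_left hT2 hC1
  have h3 : S.C2 * S.X2 X Y A0 B0 F ≤ S.C2 * (S.NN ^ 2 * Cap) :=
    mul_le_mul_of_nonneg_left (hX2.trans hT2) hC2
  -- the squares are paid by the stars
  have h4 : S.C3 * ∑ z ∈ A0 ∪ B0, S.Sq X Y F z
      ≤ (S.c - 1) * ∑ x ∈ A0, (S.η / 2 * (S.DT X Y F x + S.DG X Y F x))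
        + ∑ y ∈ B0, (S.η / 4 * (S.DT X Y F y + S.DG X Y F y)) := by
    rw [sum_union hAB, mul_add, mul_sum, mul_sum, mul_sum]
    apply add_le_add
    · apply sum_le_sum
      intro x hx
      have h5 := hchain x (hfree x (mem_union_left _ hx)).1 (hfree x (mem_union_left _ hx)).2
      have h6 := mul_le_mul_of_nonneg_left h5 (show 0 ≤ S.C3 by linarith)
      have h7 : 0 ≤ S.DT X Y F x + S.DG X Y F x := by linarith [hDT x, hDG x]
      have h8 := mul_le_mul_of_nonneg_right hρ2 h7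
      have h9 : 0 ≤ (S.c - 1) * (S.η / 4) * (S.DT X Y F x + S.DG X Y F x) := by
        apply mul_nonneg (mul_nonneg (by linarith) (by linarith)) h7
      nlinarith
    · apply sum_le_sum
      intro y hy
      have h5 := hchain y (hfree y (mem_union_right _ hy)).1 (hfree y (mem_union_right _ hy)).2
      have h6 := mul_le_mul_of_nonneg_left h5 (show 0 ≤ S.C3 by linarith)
      have h7 : 0 ≤ S.DT X Y F y + S.DG X Y F y := by linarith [hDT y, hDG y]
      have h8 := mul_le_mul_of_nonneg_right hρ1 h7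
      nlinarith
  -- selection
  have h5 : ∑ y ∈ B0, S.j X Y F y ≤ (S.c - 1) * ∑ x ∈ A0, S.j X Y F x := by
    rcases B0.eq_empty_or_nonempty with hBe | hBn
    · rw [hBe, sum_empty]
      apply mul_nonneg (by linarith)
      exact sum_nonneg (fun x hx => hj0 x (mem_union_left _ hx))
    · have hAc : A0.card = S.m := by
        rcases hfull with h | h
        · exact absurd h hBn.ne_empty
        · exact h
      obtain ⟨y0, hy0, hmax⟩ := exists_max_image B0 (fun y => S.j X Y F y) hBn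
      have h6 : ∑ y ∈ B0, S.j X Y F y ≤ S.b * S.j X Y F y0 := by
        have h7 : ∑ y ∈ B0, S.j X Y F y ≤ ∑ y ∈ B0, S.j X Y F y0 := sum_le_sum hmax
        rw [sum_const, nsmul_eq_mul] at h7
        refine h7.trans (mul_le_mul_of_nonneg_right (by exact_mod_cast hB)
          (hj0 y0 (mem_union_right _ hy0)))
      have h7 : S.m * S.j X Y F y0 ≤ ∑ x ∈ A0, S.j X Y F x := by
        have h8 : ∑ x ∈ A0, S.j X Y F y0 ≤ ∑ x ∈ A0, S.j X Y F x :=
          sum_le_sum (fun x hx => hsel x hx y0 hy0)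
        rw [sum_const, nsmul_eq_mul, hAc] at h8
        exact h8
      have h8 := mul_le_mul_of_nonneg_left h7 (show 0 ≤ S.c - 1 by linarith)
      have h9 : (S.c - 1) * (S.m * S.j X Y F y0) = S.b * S.j X Y F y0 := by
        rw [← mul_assoc, S.c_sub]
      linarith
  have h6 : (S.c - 1) * ∑ x ∈ A0, (S.j X Y F x + S.η / 2 * (S.DT X Y F x + S.DG X Y F x))
      = (S.c - 1) * ∑ x ∈ A0, S.j X Y F x
        + (S.c - 1) * ∑ x ∈ A0, (S.η / 2 * (S.DT X Y F x + S.DG X Y F x)) := by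
    rw [← mul_add, sum_add_distrib]
  have h7 : ∑ y ∈ B0, (S.j X Y F y - S.η / 4 * (S.DT X Y F y + S.DG X Y F y))
      = ∑ y ∈ B0, S.j X Y F y - ∑ y ∈ B0, (S.η / 4 * (S.DT X Y F y + S.DG X Y F y)) := by
    rw [sum_sub_distrib]
  rw [h6, h7] at h1
  rw [add_mul]
  linarith

end

end Sys

end Pool.Agent.Helper340.MB
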