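import Mathlib
import Pool.Agent.Helper340.MB.Round

set_option autoImplicit false
set_option linter.unusedVariables false
set_option linter.unusedSectionVars false
set_option linter.unusedSimpArgs false

namespace Pool.Agent.Helper340.MB

open Finset

namespace Sys

variable {E Φ K U : Type*} [DecidableEq E] [DecidableEq Φ] [Fintype Φ] [Fintype K] [DecidableEq K]
  [Fintype U]
variable (S : Sys E Φ K U)

/-- `κ'` extends `κ` by the endpoints of `z` -/
structure Ext (κ κ' : K) (z : E) : Prop where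
  inn : S.inn κ ⊆ S.inn κ'
  st : ∀ u, S.st κ u ⊆ S.st κ' u
  mem : ∀ φ ∈ S.mem κ, z ∈ S.A φ → z ∉ S.inn κ → φ ∈ S.mem κ'
  star : ∃ u, z ∈ S.st κ' u ∧ S.st κ' u ⊆ S.inn κ' \ S.inn κ

section
variable {X Y : Finset E}

lemma Ext.Vz_le {κ κ' : K} {z : E} (h : S.Ext κ κ' z) (F : Finset Φ) :
    S.Vz X Y F κ z ≤ pw S.c X Y (S.inn κ' \ S.inn κ) * S.V X Y F κ' := by
  have hc := S.c_gt
  unfold Vz V
  rw [← sum_filter, mul_sum]
  have hsub : (F ∩ S.mem κ).filter (fun φ => z ∈ S.A φ \ S.inn κ) ⊆ F ∩ S.mem κ' := by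
    intro φ hφ
    rw [mem_filter, mem_inter, mem_sdiff] at hφ
    rw [mem_inter]
    exact ⟨hφ.1.1, h.mem φ hφ.1.2 hφ.2.1 hφ.2.2⟩
  have h1 : ∀ φ ∈ (F ∩ S.mem κ).filter (fun φ => z ∈ S.A φ \ S.inn κ), S.vv X Y κ φ
      = pw S.c X Y (S.inn κ' \ S.inn κ) * S.vv X Y κ' φ := by
    intro φ hφ
    have hφ' := mem_inter.mp (hsub hφ)
    have h2 := S.inn_sub κ' φ hφ'.2
    unfold vv
    have h3 : S.inn κ' \ S.inn κ ⊆ S.A φ \ S.inn κ := sdiff_subset_sdiff h2 (le_refl _)
    rw [pw_split X Y h3]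
    congr 2
    ext t
    simp only [mem_sdiff, not_and, not_not]
    constructor
    · rintro ⟨⟨h4, h5⟩, h6⟩
      exact ⟨h4, fun h7 => h5 (h6 h7)⟩
    · rintro ⟨h4, h5⟩
      exact ⟨⟨h4, fun h6 => h5 (h.inn h6)⟩, fun h6 => absurd h6 h5⟩
  rw [sum_congr rfl h1]
  apply sum_le_sum_of_subset_of_nonneg hsub
  intro φ _ _
  exact mul_nonneg (pw_nonneg hc _ _ _) (S.vv_nonneg X Y κ' φ)

lemma Ext.w_le {κ κ' : K} {z : E} (h : S.Ext κ κ' z) :
    S.w X Y κ * pw S.c X Y (S.inn κ' \ S.inn κ) ≤ S.w X Y κ' := by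
  have hc := S.c_gt
  unfold w
  rw [pw_split X Y h.inn]
  have h1 := ss_anti hc X h.st
  have h2 : Real.exp (-(S.η * ss S.c X (S.st κ))) ≤ Real.exp (-(S.η * ss S.c X (S.st κ'))) := by
    apply Real.exp_le_exp.mpr
    have := mul_le_mul_of_nonneg_left h1 S.η_pos.le
    linarith
  have h3 : 0 ≤ pw S.c X Y (S.inn κ) * pw S.c X Y (S.inn κ' \ S.inn κ) :=
    mul_nonneg (pw_nonneg hc _ _ _) (pw_nonneg hc _ _ _)
  calc pw S.c X Y (S.inn κ) * Real.exp (-(S.η * ss S.c X (S.st κ)))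
        * pw S.c X Y (S.inn κ' \ S.inn κ)
      = pw S.c X Y (S.inn κ) * pw S.c X Y (S.inn κ' \ S.inn κ)
        * Real.exp (-(S.η * ss S.c X (S.st κ))) := by ring
    _ ≤ _ := mul_le_mul_of_nonneg_left h2 h3

lemma Ext.pw_le {κ κ' : K} {z : E} (h : S.Ext κ κ' z) :
    pw S.c X Y (S.inn κ' \ S.inn κ) ≤ pp S.c X (S.st κ') z := by
  have hc := S.c_gt
  obtain ⟨u, hu, hsub⟩ := h.star
  have h1 : pw S.c X Y (S.inn κ' \ S.inn κ) ≤ (1 / S.c) ^ (S.st κ' u \ X).card := by
    unfold pw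
    split_ifs
    · apply pow_le_pow_of_le_one (by positivity)
      · rw [div_le_one (by linarith)]
        exact hc.le
      · exact card_le_card (sdiff_subset_sdiff hsub (le_refl _))
    · positivity
  refine h1.trans ?_
  unfold pp
  have h2 := single_le_sum (f := fun u => if z ∈ S.st κ' u then (1 / S.c) ^ (S.st κ' u \ X).card
    else 0) (s := univ) (by
      intro v _
      split_ifs
      · positivity
      · exact le_refl _) (mem_univ u)
  refine le_trans (le_of_eq ?_) h2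
  rw [if_pos hu]

lemma Ext.main {κ κ' : K} {z : E} (h : S.Ext κ κ' z) (F : Finset Φ) :
    S.w X Y κ * S.Vz X Y F κ z ^ 2
      ≤ S.w X Y κ' * S.V X Y F κ' ^ 2 * pp S.c X (S.st κ') z := by
  have hc := S.c_gt
  have h1 := h.Vz_le (X := X) (Y := Y) S F
  have h2 := h.w_le (X := X) (Y := Y)
  have h3 := h.pw_le (X := X) (Y := Y)
  have hw := S.w_nonneg X Y κ
  have hw' := S.w_nonneg X Y κ'
  have hp := pw_nonneg hc X Y (S.inn κ' \ S.inn κ)
  have hV := S.V_nonneg X Y F κ'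
  have hVz := S.Vz_nonneg X Y F κ z
  generalize pw S.c X Y (S.inn κ' \ S.inn κ) = p at *
  generalize S.V X Y F κ' = V at *
  generalize S.Vz X Y F κ z = v at *
  generalize S.w X Y κ = w at *
  generalize S.w X Y κ' = w' at *
  generalize pp S.c X (S.st κ') z = t at *
  calc w * v ^ 2 ≤ w * (p * V) ^ 2 :=
        mul_le_mul_of_nonneg_left (pow_le_pow_left₀ hVz h1 2) hw
    _ = (w * p) * (p * V ^ 2) := by ring
    _ ≤ w' * (t * V ^ 2) :=
        mul_le_mul h2 (mul_le_mul_of_nonneg_right h3 (sq_nonneg _))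
          (mul_nonneg hp (sq_nonneg _)) hw'
    _ = _ := by ring

/-- Abstract chain lemma: every level is extended by the endpoints of `z`; each level arises at most
three times; the multipliers grow by a factor `1/ρ`, and the full levels correspond to
cliques. -/
lemma chain_le {F : Finset Φ} {z : E} {ρ : ℝ} (hρ : 0 ≤ ρ) (ext : K → K)
    (full : Finset K) (fl : K → Φ)
    (hinj : ∀ κ ∈ full, ∀ κ' ∈ full, fl κ = fl κ' → κ = κ')
    (hfmem : ∀ κ ∈ full, S.mem κ = {fl κ}) (hfinn : ∀ κ ∈ full, S.inn κ = S.A (fl κ))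
    (hfst : ∀ κ ∈ full, S.st κ = S.stA (fl κ))
    (hext : ∀ κ, S.lam κ ≠ 0 → S.Vz X Y F κ z ≠ 0 →
      S.Ext κ (ext κ) z ∧ (S.lam κ ≤ ρ * S.lam (ext κ) ∨ (ext κ ∈ full ∧ S.lam κ ≤ ρ)))
    (hfib : ∀ κ', (univ.filter (fun κ => (S.lam κ ≠ 0 ∧ S.Vz X Y F κ z ≠ 0) ∧ ext κ = κ')).card
      ≤ 3) :
    S.Sq X Y F z ≤ 3 * ρ * (S.DT X Y F z + S.DG X Y F z) := by
  have hc := S.c_gt
  obtain ⟨Gd, hGd⟩ : ∃ Gd : K → ℝ, ∀ κ', Gd κ' = S.g X Y F κ' * pp S.c X (S.st κ') z
    + (if κ' ∈ full then (if fl κ' ∈ F then S.T1 X Y (fl κ') * pp S.c X (S.stA (fl κ')) z else 0)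
      else 0) := ⟨_, fun _ => rfl⟩
  have hGd0 : ∀ κ', 0 ≤ Gd κ' := by
    intro κ'
    rw [hGd]
    apply add_nonneg
    · exact mul_nonneg (S.g_nonneg X Y F κ') (pp_nonneg hc _ _ _)
    · split_ifs
      · exact mul_nonneg (S.T1_nonneg X Y _) (pp_nonneg hc _ _ _)
      · exact le_refl _
      · exact le_refl _
  have h1 : ∀ κ, S.lam κ * (S.w X Y κ * S.Vz X Y F κ z ^ 2)
      ≤ if (S.lam κ ≠ 0 ∧ S.Vz X Y F κ z ≠ 0) then ρ * Gd (ext κ) else 0 := by
    intro κ
    by_cases h : S.lam κ ≠ 0 ∧ S.Vz X Y F κ z ≠ 0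
    · rw [if_pos h]
      obtain ⟨h2, h3⟩ := hext κ h.1 h.2
      have h4 := h2.main (X := X) (Y := Y) S F
      have h5 : 0 ≤ S.w X Y (ext κ) * S.V X Y F (ext κ) ^ 2 * pp S.c X (S.st (ext κ)) z :=
        mul_nonneg (mul_nonneg (S.w_nonneg _ _ _) (sq_nonneg _)) (pp_nonneg hc _ _ _)
      have h6 := mul_le_mul_of_nonneg_left h4 (S.lam_nonneg κ)
      refine h6.trans ?_
      rcases h3 with h7 | ⟨h7, h8⟩
      · have h8 := mul_le_mul_of_nonneg_right h7 h5
        refine h8.trans ?_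
        have h9 : S.g X Y F (ext κ) * pp S.c X (S.st (ext κ)) z ≤ Gd (ext κ) := by
          rw [hGd]
          have : 0 ≤ (if ext κ ∈ full then (if fl (ext κ) ∈ F then
            S.T1 X Y (fl (ext κ)) * pp S.c X (S.stA (fl (ext κ))) z else 0) else 0) := by
            split_ifs
            · exact mul_nonneg (S.T1_nonneg X Y _) (pp_nonneg hc _ _ _)
            · exact le_refl _
            · exact le_refl _
          linarith
        have h10 := mul_le_mul_of_nonneg_left h9 hρ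
        refine le_trans (le_of_eq ?_) h10
        unfold g
        ring
      · have h9 := mul_le_mul_of_nonneg_right h8 h5
        refine h9.trans ?_
        apply mul_le_mul_of_nonneg_left _ hρ
        rw [hGd, if_pos h7]
        have h10 : 0 ≤ S.g X Y F (ext κ) * pp S.c X (S.st (ext κ)) z :=
          mul_nonneg (S.g_nonneg X Y F _) (pp_nonneg hc _ _ _)
        by_cases hF : fl (ext κ) ∈ F
        · rw [if_pos hF]
          have h11 : S.V X Y F (ext κ) = 1 := by
            unfold V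
            rw [hfmem _ h7]
            have : F ∩ {fl (ext κ)} = {fl (ext κ)} := by
              rw [inter_eq_right, singleton_subset_iff]
              exact hF
            rw [this, sum_singleton]
            unfold vv
            rw [hfinn _ h7, Finset.sdiff_self, pw_empty]
          have h12 : S.w X Y (ext κ) ≤ S.T1 X Y (fl (ext κ)) := by
            unfold w T1
            rw [hfinn _ h7, hfst _ h7]
            apply mul_le_mul_of_nonneg_left _ (pw_nonneg hc _ _ _)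
            apply Real.exp_le_exp.mpr
            have := mul_nonneg S.η_pos.le (ss_nonneg hc X (S.stA (fl (ext κ))))
            linarith
          rw [h11, hfst _ h7, one_pow, mul_one]
          have h13 := mul_le_mul_of_nonneg_right h12 (pp_nonneg hc X (S.stA (fl (ext κ))) z)
          rw [hfst _ h7] at h10
          linarith
        · rw [if_neg hF]
          have h11 : S.V X Y F (ext κ) = 0 := by
            unfold V
            rw [hfmem _ h7]
            have : F ∩ {fl (ext κ)} = ∅ := by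
              rw [inter_singleton_of_notMem hF]
            rw [this, sum_empty]
          rw [h11]
          have : S.w X Y (ext κ) * 0 ^ 2 * pp S.c X (S.st (ext κ)) z = 0 := by ring
          rw [this]
          linarith
    · rw [if_neg h]
      rw [not_and_or, not_not, not_not] at h
      rcases h with h | h
      · rw [h, zero_mul]
      · rw [h]; apply le_of_eq; ring
  have h2 : S.Sq X Y F z ≤ ∑ κ, if (S.lam κ ≠ 0 ∧ S.Vz X Y F κ z ≠ 0) then ρ * Gd (ext κ) else 0 :=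
    sum_le_sum (fun κ _ => h1 κ)
  have h3 : (∑ κ, if (S.lam κ ≠ 0 ∧ S.Vz X Y F κ z ≠ 0) then ρ * Gd (ext κ) else 0)
      = ∑ κ', ρ * Gd κ' * ((univ.filter (fun κ => (S.lam κ ≠ 0 ∧ S.Vz X Y F κ z ≠ 0)
        ∧ ext κ = κ')).card : ℝ) := by
    rw [← sum_filter]
    rw [← sum_fiberwise (univ.filter (fun κ => S.lam κ ≠ 0 ∧ S.Vz X Y F κ z ≠ 0)) ext]
    apply sum_congr rfl
    intro κ' _
    rw [filter_filter]
    rw [sum_congr rfl (g := fun _ => ρ * Gd κ')]
    · rw [sum_const, nsmul_eq_mul, mul_comm]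
    · intro κ hκ
      rw [mem_filter] at hκ
      rw [hκ.2.2]
  have h4 : ∑ κ', ρ * Gd κ' * ((univ.filter (fun κ => (S.lam κ ≠ 0 ∧ S.Vz X Y F κ z ≠ 0)
        ∧ ext κ = κ')).card : ℝ) ≤ 3 * ρ * ∑ κ', Gd κ' := by
    rw [mul_sum]
    apply sum_le_sum
    intro κ' _
    have h5 : ((univ.filter (fun κ => (S.lam κ ≠ 0 ∧ S.Vz X Y F κ z ≠ 0)
        ∧ ext κ = κ')).card : ℝ) ≤ 3 := by exact_mod_cast hfib κ'
    have h6 : 0 ≤ ρ * Gd κ' := mul_nonneg hρ (hGd0 κ')
    calc ρ * Gd κ' * ((univ.filter (fun κ => (S.lam κ ≠ 0 ∧ S.Vz X Y F κ z ≠ 0)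
        ∧ ext κ = κ')).card : ℝ) ≤ ρ * Gd κ' * 3 := mul_le_mul_of_nonneg_left h5 h6
      _ = _ := by ring
  have h5 : ∑ κ', Gd κ' ≤ S.DT X Y F z + S.DG X Y F z := by
    rw [sum_congr rfl (fun κ' _ => hGd κ'), sum_add_distrib, add_comm]
    apply add_le_add _ (le_of_eq rfl)
    rw [← sum_filter]
    have h6 : (univ.filter (fun κ => κ ∈ full)) = full := by ext κ; simp
    rw [h6]
    have h7 : ∑ κ' ∈ full, (if fl κ' ∈ F then S.T1 X Y (fl κ') * pp S.c X (S.stA (fl κ')) z else 0)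
        = ∑ φ ∈ full.image fl, (if φ ∈ F then S.T1 X Y φ * pp S.c X (S.stA φ) z else 0) := by
      rw [sum_image]
      intro κ hκ κ' hκ' h
      exact hinj κ hκ κ' hκ' h
    rw [h7, ← sum_filter]
    unfold DT
    apply sum_le_sum_of_subset_of_nonneg
    · intro φ hφ
      exact (mem_filter.mp hφ).2
    · intro φ _ _
      exact mul_nonneg (S.T1_nonneg X Y _) (pp_nonneg hc _ _ _)
  have h6 := mul_le_mul_of_nonneg_left h5 (show 0 ≤ 3 * ρ by linarith)
  linarith

end

end Sys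

end Pool.Agent.Helper340.MB
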