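import Mathlib
import Pool.Agent.Helper340.MB.Chain
import Pool.Agent.Helper340.TwoCol.Edges

set_option autoImplicit false
set_option linter.unusedVariables false
set_option linter.unusedSectionVars false
set_option linter.unusedSimpArgs false

namespace Pool.Agent.Helper340.MB

open Finset Pool.Agent.Helper340.TwoEdges

/-- levels: partial transversals -/
abbrev Lv (q n : ℕ) := Fin q → Option (Fin n)

section conc
variable {V : Type*} [DecidableEq V] {q n : ℕ} [NeZero n]

def dom (κ : Lv q n) : Finset (Fin q) := univ.filter (fun i => (κ i).isSome)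

def fl (κ : Lv q n) : Fin q → Fin n := fun i => (κ i).getD 0

def es (e : Fin q × Fin n → V) (I : Finset (Fin q)) (φ : Fin q → Fin n) : Finset (Sym2 V) :=
  (prs I).image (ed e φ)

def sts (e : Fin q × Fin n → V) (I : Finset (Fin q)) (φ : Fin q → Fin n) (u : Fin q) :
    Finset (Sym2 V) :=
  ((prs I).filter (fun p => p.1 = u ∨ p.2 = u)).image (ed e φ)

def lmm (κ : Lv q n) : Finset (Fin q → Fin n) :=
  univ.filter (fun φ => ∀ i ∈ dom κ, φ i = fl κ i)

lemma mem_prs {I : Finset (Fin q)} {p : Fin q × Fin q} :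
    p ∈ prs I ↔ p.1 ∈ I ∧ p.2 ∈ I ∧ p.1 < p.2 := by
  unfold prs
  rw [mem_filter, mem_product]
  tauto

lemma mem_dom {κ : Lv q n} {i : Fin q} : i ∈ dom κ ↔ κ i = some (fl κ i) := by
  unfold dom fl
  rw [mem_filter]
  constructor
  · rintro ⟨_, h⟩
    obtain ⟨a, ha⟩ := Option.isSome_iff_exists.mp h
    rw [ha]; rfl
  · intro h
    exact ⟨mem_univ _, by rw [h]; rfl⟩

lemma dom_of_some {κ : Lv q n} {i : Fin q} {a : Fin n} (h : κ i = some a) :
    i ∈ dom κ ∧ fl κ i = a := by
  unfold dom fl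
  rw [mem_filter]
  exact ⟨⟨mem_univ _, by rw [h]; rfl⟩, by rw [h]; rfl⟩

lemma none_of_notMem {κ : Lv q n} {i : Fin q} (h : i ∉ dom κ) : κ i = none := by
  unfold dom at h
  rw [mem_filter] at h
  by_contra h2
  exact h ⟨mem_univ _, Option.isSome_iff_ne_none.mpr h2⟩

lemma ed_congr (e : Fin q × Fin n → V) {φ φ' : Fin q → Fin n} {p : Fin q × Fin q}
    (h1 : φ p.1 = φ' p.1) (h2 : φ p.2 = φ' p.2) : ed e φ p = ed e φ' p := by
  unfold ed
  rw [h1, h2]

lemma es_congr (e : Fin q × Fin n → V) {I : Finset (Fin q)} {φ φ' : Fin q → Fin n}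
    (h : ∀ i ∈ I, φ i = φ' i) : es e I φ = es e I φ' := by
  unfold es
  apply image_congr
  intro p hp
  rw [mem_coe, mem_prs] at hp
  exact ed_congr e (h _ hp.1) (h _ hp.2.1)

lemma sts_congr (e : Fin q × Fin n → V) {I : Finset (Fin q)} {φ φ' : Fin q → Fin n}
    (h : ∀ i ∈ I, φ i = φ' i) (u : Fin q) : sts e I φ u = sts e I φ' u := by
  unfold sts
  apply image_congr
  intro p hp
  rw [mem_coe, mem_filter, mem_prs] at hp
  exact ed_congr e (h _ hp.1.1) (h _ hp.1.2.1)

lemma es_mono (e : Fin q × Fin n → V) {I J : Finset (Fin q)} (h : I ⊆ J) (φ : Fin q → Fin n) :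
    es e I φ ⊆ es e J φ := image_subset_image (prs_mono h)

lemma sts_mono (e : Fin q × Fin n → V) {I J : Finset (Fin q)} (h : I ⊆ J) (φ : Fin q → Fin n)
    (u : Fin q) : sts e I φ u ⊆ sts e J φ u :=
  image_subset_image (filter_subset_filter _ (prs_mono h))

lemma sts_sub_es (e : Fin q × Fin n → V) (I : Finset (Fin q)) (φ : Fin q → Fin n)
    (u : Fin q) : sts e I φ u ⊆ es e I φ :=
  image_subset_image (filter_subset _ _)

lemma mem_es {e : Fin q × Fin n → V} {I : Finset (Fin q)} {φ : Fin q → Fin n} {z : Sym2 V} :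
    z ∈ es e I φ ↔ ∃ p : Fin q × Fin q, p ∈ prs I ∧ ed e φ p = z := by
  unfold es
  rw [mem_image]

lemma mem_sts {e : Fin q × Fin n → V} {I : Finset (Fin q)} {φ : Fin q → Fin n} {u : Fin q}
    {z : Sym2 V} :
    z ∈ sts e I φ u ↔ ∃ p : Fin q × Fin q, p ∈ prs I ∧ (p.1 = u ∨ p.2 = u) ∧ ed e φ p = z := by
  unfold sts
  rw [mem_image]
  constructor
  · rintro ⟨p, hp, h⟩
    rw [mem_filter] at hp
    exact ⟨p, hp.1, hp.2, h⟩
  · rintro ⟨p, hp, h, h'⟩
    exact ⟨p, mem_filter.mpr ⟨hp, h⟩, h'⟩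

lemma two_sts {e : Fin q × Fin n → V} (he : Function.Injective e) (I : Finset (Fin q))
    (φ : Fin q → Fin n) (z : Sym2 V) :
    (univ.filter (fun u => z ∈ sts e I φ u)).card ≤ 2 := by
  by_cases h : ∃ p : Fin q × Fin q, p ∈ prs I ∧ ed e φ p = z
  · obtain ⟨p, hp, hpz⟩ := h
    have hsub : univ.filter (fun u => z ∈ sts e I φ u) ⊆ {p.1, p.2} := by
      intro u hu
      rw [mem_filter, mem_sts] at hu
      obtain ⟨_, p', hp', hu', hz'⟩ := hu
      have := (ed_inj he (mem_prs.mp hp').2.2 (mem_prs.mp hp).2.2 (hz'.trans hpz.symm)).1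
      subst this
      rw [mem_insert, mem_singleton]
      rcases hu' with h | h
      · left; exact h.symm
      · right; exact h.symm
    exact (card_le_card hsub).trans card_le_two
  · have : univ.filter (fun u => z ∈ sts e I φ u) = ∅ := by
      rw [filter_eq_empty_iff]
      intro u _ hu
      rw [mem_sts] at hu
      obtain ⟨p, hp, _, hz⟩ := hu
      exact h ⟨p, hp, hz⟩
    rw [this, card_empty]
    omega

/-- the data of the concrete system -/
structure Dat (q n : ℕ) (V : Type*) where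
  e : Fin q × Fin n → V
  he : Function.Injective e
  m : ℕ
  b : ℕ
  hm : 1 ≤ m
  hb : 1 ≤ b
  η : ℝ
  η_pos : 0 < η
  η_le : η * (8 * b) ≤ 1
  l : ℕ → ℝ
  hl : ∀ i, 0 ≤ l i

/-- the concrete system of cliques and partial cliques -/
noncomputable def Dat.sys (D : Dat q n V) :
    Sys (Sym2 V) (Fin q → Fin n) (Lv q n) (Fin q) where
  A := es D.e univ
  mem := lmm
  inn := fun κ => es D.e (dom κ) (fl κ)
  lam := fun κ => if 3 ≤ (dom κ).card ∧ (dom κ).card < q then D.l (dom κ).card else 0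
  st := fun κ => sts D.e (dom κ) (fl κ)
  stA := sts D.e univ
  inn_sub := by
    intro κ φ hφ
    unfold lmm at hφ
    rw [mem_filter] at hφ
    rw [← es_congr D.e hφ.2]
    exact es_mono D.e (subset_univ _) φ
  st_sub := fun κ u => sts_sub_es D.e _ _ u
  stA_sub := fun φ u => sts_sub_es D.e _ _ u
  two := fun κ z => two_sts D.he _ _ z
  twoA := fun φ z => two_sts D.he _ _ z
  lam_nonneg := by
    intro κ
    split_ifs
    · exact D.hl _
    · exact le_refl _
  m := D.m
  b := D.b
  hm := D.hm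
  hb := D.hb
  η := D.η
  η_pos := D.η_pos
  η_le := D.η_le

lemma Dat.Vz_ne (D : Dat q n V) {X Y : Finset (Sym2 V)} {F : Finset (Fin q → Fin n)} {κ : Lv q n}
    {z : Sym2 V} (h : D.sys.Vz X Y F κ z ≠ 0) :
    ∃ φ ∈ lmm κ, z ∈ es D.e univ φ ∧ z ∉ es D.e (dom κ) (fl κ) := by
  by_contra hcon
  apply h
  unfold Sys.Vz
  apply sum_eq_zero
  intro φ hφ
  rw [if_neg]
  intro hz
  rw [mem_sdiff] at hz
  exact hcon ⟨φ, (mem_inter.mp hφ).2, hz.1, hz.2⟩

/-- extension of a level by the endpoints of an edge -/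
def extl (a v : Fin q) (α β : Fin n) (κ : Lv q n) : Lv q n :=
  Function.update (Function.update κ a (some α)) v (some β)

/-- compatibility -/
structure Comp (a v : Fin q) (α β : Fin n) (κ : Lv q n) : Prop where
  ha : κ a = none ∨ κ a = some α
  hv : κ v = none ∨ κ v = some β
  hn : κ a = none ∨ κ v = none

lemma extl_v (a v : Fin q) (α β : Fin n) (κ : Lv q n) : extl a v α β κ v = some β := by
  unfold extl; simp

lemma extl_a {a v : Fin q} (h : a < v) (α β : Fin n) (κ : Lv q n) :
    extl a v α β κ a = some α := by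
  unfold extl
  rw [Function.update_of_ne h.ne]
  simp

lemma extl_o {a v : Fin q} (α β : Fin n) (κ : Lv q n) {i : Fin q} (h1 : i ≠ a) (h2 : i ≠ v) :
    extl a v α β κ i = κ i := by
  unfold extl
  rw [Function.update_of_ne h2, Function.update_of_ne h1]

lemma Comp.keep {a v : Fin q} (h : a < v) {α β : Fin n} {κ : Lv q n} (hc : Comp a v α β κ)
    {i : Fin q} (hi : i ∈ dom κ) : i ∈ dom (extl a v α β κ) ∧ fl (extl a v α β κ) i = fl κ i := by
  have h1 := mem_dom.mp hi
  have h2 : extl a v α β κ i = some (fl κ i) := by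
    by_cases hia : i = a
    · subst hia
      rw [extl_a h]
      rcases hc.ha with h3 | h3
      · rw [h3] at h1; exact absurd h1 (by simp)
      · rw [← h1, h3]
    · by_cases hiv : i = v
      · subst hiv
        rw [extl_v]
        rcases hc.hv with h3 | h3
        · rw [h3] at h1; exact absurd h1 (by simp)
        · rw [← h1, h3]
      · rw [extl_o α β κ hia hiv, h1]
  exact dom_of_some h2

lemma dom_extl {a v : Fin q} (h : a < v) {α β : Fin n} {κ : Lv q n} (hc : Comp a v α β κ) :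
    dom (extl a v α β κ) = dom κ ∪ {a, v} := by
  ext i
  rw [mem_union, mem_insert, mem_singleton]
  constructor
  · intro hi
    by_cases hia : i = a
    · right; left; exact hia
    · by_cases hiv : i = v
      · right; right; exact hiv
      · left
        have h1 := mem_dom.mp hi
        rw [extl_o α β κ hia hiv] at h1
        exact (dom_of_some h1).1
  · rintro (hi | rfl | rfl)
    · exact (hc.keep h hi).1
    · exact (dom_of_some (extl_a h α β κ)).1
    · exact (dom_of_some (extl_v a _ α β κ)).1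

lemma Comp.card_lt {a v : Fin q} (h : a < v) {α β : Fin n} {κ : Lv q n} (hc : Comp a v α β κ) :
    (dom κ).card < (dom (extl a v α β κ)).card := by
  apply card_lt_card
  rw [dom_extl h hc, ssubset_iff_subset_ne]
  refine ⟨subset_union_left, ?_⟩
  intro heq
  have ha : a ∈ dom κ := by rw [heq]; simp
  have hv : v ∈ dom κ := by rw [heq]; simp
  rcases hc.hn with h1 | h1
  · have := mem_dom.mp ha
    rw [h1] at this
    exact absurd this (by simp)
  · have := mem_dom.mp hv
    rw [h1] at this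
    exact absurd this (by simp)

lemma comp_of (D : Dat q n V) {φ₀ : Fin q → Fin n} {p : Fin q × Fin q} (hp : p.1 < p.2)
    {κ : Lv q n} (h : ∃ φ ∈ lmm κ, ed D.e φ₀ p ∈ es D.e univ φ ∧
      ed D.e φ₀ p ∉ es D.e (dom κ) (fl κ)) : Comp p.1 p.2 (φ₀ p.1) (φ₀ p.2) κ := by
  obtain ⟨φ, hφ, h1, h2⟩ := h
  obtain ⟨p', hp', h3⟩ := mem_es.mp h1
  obtain ⟨rfl, h4, h5⟩ := ed_inj D.he (mem_prs.mp hp').2.2 hp h3
  unfold lmm at hφ
  rw [mem_filter] at hφ
  refine ⟨?_, ?_, ?_⟩
  · by_cases h6 : p'.1 ∈ dom κ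
    · right
      rw [mem_dom.mp h6, ← hφ.2 _ h6, h4]
    · left; exact none_of_notMem h6
  · by_cases h6 : p'.2 ∈ dom κ
    · right
      rw [mem_dom.mp h6, ← hφ.2 _ h6, h5]
    · left; exact none_of_notMem h6
  · by_contra hcon
    rw [not_or] at hcon
    have h6 : p'.1 ∈ dom κ := by
      by_contra h7
      exact hcon.1 (none_of_notMem h7)
    have h7 : p'.2 ∈ dom κ := by
      by_contra h7
      exact hcon.2 (none_of_notMem h7)
    apply h2
    rw [mem_es]
    refine ⟨p', mem_prs.mpr ⟨h6, h7, hp⟩, ?_⟩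
    rw [← h3]
    exact ed_congr D.e (hφ.2 _ h6).symm (hφ.2 _ h7).symm

lemma Comp.ext (D : Dat q n V) {φ₀ : Fin q → Fin n} {p : Fin q × Fin q} (hp : p.1 < p.2)
    {κ : Lv q n} (hc : Comp p.1 p.2 (φ₀ p.1) (φ₀ p.2) κ) :
    D.sys.Ext κ (extl p.1 p.2 (φ₀ p.1) (φ₀ p.2) κ) (ed D.e φ₀ p) := by
  set κ' := extl p.1 p.2 (φ₀ p.1) (φ₀ p.2) κ with hκ'
  have hsub : dom κ ⊆ dom κ' := fun i hi => (hc.keep hp hi).1
  have hfl : ∀ i ∈ dom κ, fl κ i = fl κ' i := fun i hi => (hc.keep hp hi).2.symm
  have h1 : fl κ' p.1 = φ₀ p.1 := (dom_of_some (extl_a hp _ _ κ)).2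
  have h2 : fl κ' p.2 = φ₀ p.2 := (dom_of_some (extl_v _ _ _ _ κ)).2
  have h1' : p.1 ∈ dom κ' := (dom_of_some (extl_a hp _ _ κ)).1
  have h2' : p.2 ∈ dom κ' := (dom_of_some (extl_v _ _ _ _ κ)).1
  refine ⟨?_, ?_, ?_, ?_⟩
  · show es D.e (dom κ) (fl κ) ⊆ es D.e (dom κ') (fl κ')
    rw [es_congr D.e hfl]
    exact es_mono D.e hsub _
  · intro u
    show sts D.e (dom κ) (fl κ) u ⊆ sts D.e (dom κ') (fl κ') u
    rw [sts_congr D.e hfl]
    exact sts_mono D.e hsub _ u
  · intro φ hφ hz _
    have hφ' : ∀ i ∈ dom κ, φ i = fl κ i := by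
      have := hφ
      show ∀ i ∈ dom κ, φ i = fl κ i
      exact (mem_filter.mp this).2
    obtain ⟨p', hp', h3⟩ := mem_es.mp (show ed D.e φ₀ p ∈ es D.e univ φ from hz)
    obtain ⟨rfl, h4, h5⟩ := ed_inj D.he (mem_prs.mp hp').2.2 hp h3
    show φ ∈ lmm κ'
    unfold lmm
    rw [mem_filter]
    refine ⟨mem_univ _, ?_⟩
    intro i hi
    rw [hκ', dom_extl hp hc, mem_union, mem_insert, mem_singleton] at hi
    rcases hi with hi | rfl | rfl
    · rw [hφ' i hi, hfl i hi]
    · rw [h1, h4]
    · rw [h2, h5]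
  · have hu : ∃ u, (p.1 = u ∨ p.2 = u) ∧ u ∉ dom κ := by
      rcases hc.hn with h | h
      · refine ⟨p.1, Or.inl rfl, ?_⟩
        intro h3
        have := mem_dom.mp h3
        rw [h] at this
        exact absurd this (by simp)
      · refine ⟨p.2, Or.inr rfl, ?_⟩
        intro h3
        have := mem_dom.mp h3
        rw [h] at this
        exact absurd this (by simp)
    obtain ⟨u, hu1, hu2⟩ := hu
    refine ⟨u, ?_, ?_⟩
    · show ed D.e φ₀ p ∈ sts D.e (dom κ') (fl κ') u
      rw [mem_sts]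
      exact ⟨p, mem_prs.mpr ⟨h1', h2', hp⟩, hu1, ed_congr D.e h1 h2⟩
    · show sts D.e (dom κ') (fl κ') u ⊆ es D.e (dom κ') (fl κ') \ es D.e (dom κ) (fl κ)
      intro t ht
      rw [mem_sdiff]
      refine ⟨sts_sub_es D.e _ _ u ht, ?_⟩
      intro ht'
      obtain ⟨p1, hp1, hpu, he1⟩ := mem_sts.mp ht
      obtain ⟨p2, hp2, he2⟩ := mem_es.mp ht'
      obtain ⟨rfl, _, _⟩ := ed_inj D.he (mem_prs.mp hp1).2.2 (mem_prs.mp hp2).2.2
        (he1.trans he2.symm)
      have := mem_prs.mp hp2
      rcases hpu with h | h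
      · rw [← h] at hu2; exact hu2 this.1
      · rw [← h] at hu2; exact hu2 this.2.1

lemma fib_le (p : Fin q × Fin q) (hp : p.1 < p.2) (α β : Fin n) (κ' : Lv q n)
    (P : Lv q n → Prop) [DecidablePred P] (hP : ∀ κ, P κ → Comp p.1 p.2 α β κ) :
    (univ.filter (fun κ => P κ ∧ extl p.1 p.2 α β κ = κ')).card ≤ 3 := by
  have hsub : univ.filter (fun κ => P κ ∧ extl p.1 p.2 α β κ = κ') ⊆
      {Function.update κ' p.1 none, Function.update κ' p.2 none,
        Function.update (Function.update κ' p.1 none) p.2 none} := by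
    intro κ hκ
    rw [mem_filter] at hκ
    obtain ⟨_, h1, h2⟩ := hκ
    have hc := hP κ h1
    rw [mem_insert, mem_insert, mem_singleton]
    have hκa : κ' p.1 = some α := by rw [← h2]; exact extl_a hp α β κ
    have hκv : κ' p.2 = some β := by rw [← h2]; exact extl_v _ _ α β κ
    have hκo : ∀ i, i ≠ p.1 → i ≠ p.2 → κ' i = κ i := by
      intro i h3 h4
      rw [← h2]
      exact extl_o α β κ h3 h4
    rcases hc.ha with ha | ha
    · rcases hc.hv with hv | hv
      · right; right
        funext i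
        by_cases h4 : i = p.2
        · subst h4; rw [Function.update_self, hv]
        · rw [Function.update_of_ne h4]
          by_cases h3 : i = p.1
          · subst h3; rw [Function.update_self, ha]
          · rw [Function.update_of_ne h3, hκo i h3 h4]
      · left
        funext i
        by_cases h3 : i = p.1
        · subst h3; rw [Function.update_self, ha]
        · rw [Function.update_of_ne h3]
          by_cases h4 : i = p.2
          · subst h4; rw [hκv, hv]
          · rw [hκo i h3 h4]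
    · rcases hc.hv with hv | hv
      · right; left
        funext i
        by_cases h4 : i = p.2
        · subst h4; rw [Function.update_self, hv]
        · rw [Function.update_of_ne h4]
          by_cases h3 : i = p.1
          · subst h3; rw [hκa, ha]
          · rw [hκo i h3 h4]
      · rcases hc.hn with h | h
        · rw [h] at ha; exact absurd ha (by simp)
        · rw [h] at hv; exact absurd hv (by simp)
  exact (card_le_card hsub).trans card_le_three

/-- **Chain inequality** for cliques. -/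
theorem Dat.chain (D : Dat q n V) {ρ : ℝ} (hρ : 0 ≤ ρ)
    (h1 : ∀ i j, 3 ≤ i → i < j → j < q → D.l i ≤ ρ * D.l j)
    (h2 : ∀ i, 3 ≤ i → i < q → D.l i ≤ ρ)
    (X Y : Finset (Sym2 V)) (F : Finset (Fin q → Fin n)) (z : Sym2 V) :
    D.sys.Sq X Y F z ≤ 3 * ρ * (D.sys.DT X Y F z + D.sys.DG X Y F z) := by
  by_cases hz : ∃ (φ₀ : Fin q → Fin n) (p : Fin q × Fin q), p.1 < p.2 ∧ ed D.e φ₀ p = z
  · obtain ⟨φ₀, p, hp, rfl⟩ := hz
    refine D.sys.chain_le hρ (extl p.1 p.2 (φ₀ p.1) (φ₀ p.2))
      (univ.filter (fun κ => dom κ = univ)) fl ?_ ?_ ?_ ?_ ?_ ?_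
    · intro κ hκ κ' hκ' h
      rw [mem_filter] at hκ hκ'
      funext i
      have h3 : i ∈ dom κ := by rw [hκ.2]; exact mem_univ _
      have h4 : i ∈ dom κ' := by rw [hκ'.2]; exact mem_univ _
      rw [mem_dom.mp h3, mem_dom.mp h4, h]
    · intro κ hκ
      rw [mem_filter] at hκ
      show lmm κ = {fl κ}
      ext φ
      unfold lmm
      rw [mem_filter, mem_singleton, hκ.2]
      constructor
      · rintro ⟨_, h⟩
        funext i
        exact h i (mem_univ _)
      · rintro rfl
        exact ⟨mem_univ _, fun _ _ => rfl⟩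
    · intro κ hκ
      rw [mem_filter] at hκ
      show es D.e (dom κ) (fl κ) = es D.e univ (fl κ)
      rw [hκ.2]
    · intro κ hκ
      rw [mem_filter] at hκ
      show sts D.e (dom κ) (fl κ) = sts D.e univ (fl κ)
      rw [hκ.2]
    · intro κ hlam hVz
      have hc := comp_of D hp (D.Vz_ne hVz)
      refine ⟨hc.ext D hp, ?_⟩
      have hlt := hc.card_lt hp
      have hlam' : 3 ≤ (dom κ).card ∧ (dom κ).card < q := by
        by_contra hcon
        apply hlam
        show (if 3 ≤ (dom κ).card ∧ (dom κ).card < q then D.l (dom κ).card else 0) = 0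
        rw [if_neg hcon]
      have e1 : D.sys.lam κ = D.l (dom κ).card := by
        show (if 3 ≤ (dom κ).card ∧ (dom κ).card < q then D.l (dom κ).card else 0) = _
        rw [if_pos hlam']
      rw [e1]
      have hle : (dom (extl p.1 p.2 (φ₀ p.1) (φ₀ p.2) κ)).card ≤ q := by
        have := card_le_univ (dom (extl p.1 p.2 (φ₀ p.1) (φ₀ p.2) κ))
        rwa [Fintype.card_fin] at this
      rcases hle.lt_or_eq with h | h
      · left
        have e2 : D.sys.lam (extl p.1 p.2 (φ₀ p.1) (φ₀ p.2) κ)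
            = D.l (dom (extl p.1 p.2 (φ₀ p.1) (φ₀ p.2) κ)).card := by
          show (if 3 ≤ (dom (extl p.1 p.2 (φ₀ p.1) (φ₀ p.2) κ)).card ∧
            (dom (extl p.1 p.2 (φ₀ p.1) (φ₀ p.2) κ)).card < q
            then D.l (dom (extl p.1 p.2 (φ₀ p.1) (φ₀ p.2) κ)).card else 0) = _
          rw [if_pos ⟨by omega, h⟩]
        rw [e2]
        exact h1 _ _ hlam'.1 hlt h
      · right
        refine ⟨?_, h2 _ hlam'.1 hlam'.2⟩
        rw [mem_filter]
        refine ⟨mem_univ _, ?_⟩
        apply eq_univ_of_card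
        rw [h, Fintype.card_fin]
    · intro κ'
      apply fib_le p hp (φ₀ p.1) (φ₀ p.2) κ'
        (P := fun κ => D.sys.lam κ ≠ 0 ∧ D.sys.Vz X Y F κ (ed D.e φ₀ p) ≠ 0)
      intro κ hκ
      exact comp_of D hp (D.Vz_ne hκ.2)
  · have h3 : D.sys.Sq X Y F z = 0 := by
      unfold Sys.Sq
      apply sum_eq_zero
      intro κ _
      have h4 : D.sys.Vz X Y F κ z = 0 := by
        by_contra hne
        obtain ⟨φ, _, h5, _⟩ := D.Vz_ne hne
        obtain ⟨p, hp, h6⟩ := mem_es.mp h5
        exact hz ⟨φ, p, (mem_prs.mp hp).2.2, h6⟩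
      rw [h4]
      ring
    rw [h3]
    have h4 := D.sys.DT_nonneg X Y F z
    have h5 := D.sys.DG_nonneg X Y F z
    positivity

/-- **Cap inequality** for cliques. -/
theorem Dat.cap (D : Dat q n V) {l3 : ℝ} (hl3 : 0 < l3)
    (h1 : ∀ i, 3 ≤ i → i ≤ 4 → l3 ≤ D.l i) (hq : 5 ≤ q)
    {X Y : Finset (Sym2 V)} {F : Finset (Fin q → Fin n)} (hcl : D.sys.Clean X Y F)
    (z z' : Sym2 V) (hne : z ≠ z') :
    D.sys.T X Y (F.filter (fun φ => z ∈ D.sys.A φ ∧ z' ∈ D.sys.A φ))
      ≤ Real.exp (3 * (D.η * q)) / l3 := by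
  by_cases hz : ∃ φ₀ : Fin q → Fin n, z ∈ es D.e univ φ₀ ∧ z' ∈ es D.e univ φ₀
  · obtain ⟨φ₀, hz1, hz2⟩ := hz
    obtain ⟨p, hp, rfl⟩ := mem_es.mp hz1
    obtain ⟨t, ht, rfl⟩ := mem_es.mp hz2
    have hp3 := (mem_prs.mp hp).2.2
    have ht3 := (mem_prs.mp ht).2.2
    have hpt : p ≠ t := by
      rintro rfl
      exact hne rfl
    set I : Finset (Fin q) := {p.1, p.2} ∪ {t.1, t.2} with hI
    set κ : Lv q n := fun i => if i ∈ I then some (φ₀ i) else none with hκ
    have hdom : dom κ = I := by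
      ext i
      rw [mem_dom, hκ]
      constructor
      · intro h
        by_contra hi
        simp only [if_neg hi] at h
        exact absurd h (by simp)
      · intro hi
        have : fl κ i = φ₀ i := by
          unfold fl
          rw [hκ]
          simp only [if_pos hi, Option.getD_some]
        simp only [if_pos hi]
        rw [← this]
    have hfl : ∀ i ∈ I, fl κ i = φ₀ i := by
      intro i hi
      unfold fl
      rw [hκ]
      simp only [if_pos hi, Option.getD_some]
    have hI4 : I.card ≤ 4 := by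
      refine (card_union_le _ _).trans ?_
      have c1 : ({p.1, p.2} : Finset (Fin q)).card ≤ 2 := card_le_two
      have c2 : ({t.1, t.2} : Finset (Fin q)).card ≤ 2 := card_le_two
      omega
    have hI3 : 3 ≤ I.card := by
      by_contra hlt
      push Not at hlt
      have h1 : ({p.1, p.2} : Finset (Fin q)) ⊆ I := subset_union_left
      have h2 : ({t.1, t.2} : Finset (Fin q)) ⊆ I := subset_union_right
      have c1 : ({p.1, p.2} : Finset (Fin q)).card = 2 := card_pair hp3.ne
      have c2 : ({t.1, t.2} : Finset (Fin q)).card = 2 := card_pair ht3.ne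
      have h3 := eq_of_subset_of_card_le h1 (by omega)
      have h4 := eq_of_subset_of_card_le h2 (by omega)
      have h5 : ({p.1, p.2} : Finset (Fin q)) = {t.1, t.2} := h3.trans h4.symm
      apply hpt
      obtain ⟨a, b⟩ := p
      obtain ⟨c, d⟩ := t
      simp only at hp3 ht3 h5
      have ha : a = c ∨ a = d := by
        have : a ∈ ({a, b} : Finset (Fin q)) := by simp
        rw [h5] at this
        simpa using this
      have hb : b = c ∨ b = d := by
        have : b ∈ ({a, b} : Finset (Fin q)) := by simp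
        rw [h5] at this
        simpa using this
      rcases ha with rfl | rfl <;> rcases hb with rfl | rfl
      · exact absurd hp3 (lt_irrefl _)
      · rfl
      · exact absurd hp3 (lt_asymm ht3)
      · exact absurd hp3 (lt_irrefl _)
    have hlam : l3 ≤ D.sys.lam κ := by
      show l3 ≤ (if 3 ≤ (dom κ).card ∧ (dom κ).card < q then D.l (dom κ).card else 0)
      rw [hdom, if_pos ⟨hI3, by omega⟩]
      exact h1 _ hI3 hI4
    have hmem : ∀ φ, ed D.e φ₀ p ∈ D.sys.A φ → ed D.e φ₀ t ∈ D.sys.A φ → φ ∈ D.sys.mem κ := by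
      intro φ h3 h4
      obtain ⟨p', hp', h5⟩ := mem_es.mp (show ed D.e φ₀ p ∈ es D.e univ φ from h3)
      obtain ⟨t', ht', h6⟩ := mem_es.mp (show ed D.e φ₀ t ∈ es D.e univ φ from h4)
      obtain ⟨rfl, h7, h8⟩ := ed_inj D.he (mem_prs.mp hp').2.2 hp3 h5
      obtain ⟨rfl, h9, h10⟩ := ed_inj D.he (mem_prs.mp ht').2.2 ht3 h6
      show φ ∈ lmm κ
      unfold lmm
      rw [mem_filter]
      refine ⟨mem_univ _, ?_⟩
      intro i hi
      rw [hdom] at hi
      rw [hfl i hi]
      rw [hI] at hi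
      simp only [mem_union, mem_insert, mem_singleton] at hi
      rcases hi with (rfl | rfl) | (rfl | rfl)
      · exact h7
      · exact h8
      · exact h9
      · exact h10
    have := D.sys.cap hcl hl3 hlam hmem
    rwa [Fintype.card_fin] at this
  · have h3 : F.filter (fun φ => z ∈ D.sys.A φ ∧ z' ∈ D.sys.A φ) = ∅ := by
      rw [filter_eq_empty_iff]
      intro φ _ h
      exact hz ⟨φ, h.1, h.2⟩
    rw [h3]
    unfold Sys.T
    rw [sum_empty]
    positivity

end conc

end Pool.Agent.Helper340.MB
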