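import Mathlib
import Pool.Agent.Helper340.MB.Round

set_option autoImplicit false
set_option linter.unusedVariables false
set_option linter.unusedSectionVars false
set_option linter.unusedSimpArgs false

namespace Pool.Agent.Helper340.MB

open Finset

/-- Maker (to move, `m` edges per turn) can force that at the end of the play his set has `goal`;
Breaker claims `b` edges per turn. A player who cannot claim that many edges claims all the
remaining ones. -/
inductive Forces {E : Type*} [DecidableEq E] (m b : ℕ) (Bd : Finset E) (goal : Finset E → Prop) :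
    Finset E → Finset E → Prop
  | done {M B : Finset E} (h0 : Bd \ (M ∪ B) = ∅) (hg : goal M) : Forces m b Bd goal M B
  | move {M B : Finset E} (hne : (Bd \ (M ∪ B)).Nonempty) (Q : Finset E) (hQ : Q ⊆ Bd \ (M ∪ B))
      (hc : Q.card = min m (Bd \ (M ∪ B)).card)
      (h : ∀ R ⊆ (Bd \ (M ∪ B)) \ Q, R.card = min b ((Bd \ (M ∪ B)) \ Q).card →
        Forces m b Bd goal (M ∪ Q) (B ∪ R)) : Forces m b Bd goal M B

lemma exists_top {E : Type*} [DecidableEq E] (f : E → ℝ) (s : Finset E) :
    ∀ r : ℕ, r ≤ s.card → ∃ Q ⊆ s, Q.card = r ∧ ∀ x ∈ Q, ∀ y ∈ s \ Q, f y ≤ f x := by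
  intro r
  induction r with
  | zero => intro _; exact ⟨∅, empty_subset _, card_empty, by simp⟩
  | succ r ih =>
    intro hr
    obtain ⟨Q, hQ, hc, ht⟩ := ih (by omega)
    have hne : (s \ Q).Nonempty := by
      rw [← card_pos, card_sdiff_of_subset hQ]
      omega
    obtain ⟨x, hx, hmax⟩ := exists_max_image (s \ Q) f hne
    rw [mem_sdiff] at hx
    refine ⟨insert x Q, ?_, ?_, ?_⟩
    · intro y hy
      rw [mem_insert] at hy
      rcases hy with rfl | hy
      · exact hx.1
      · exact hQ hy
    · rw [card_insert_of_notMem hx.2, hc]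
    · intro x' hx' y hy
      rw [mem_sdiff, mem_insert, not_or] at hy
      have hy' : y ∈ s \ Q := mem_sdiff.mpr ⟨hy.1, hy.2.2⟩
      rw [mem_insert] at hx'
      rcases hx' with rfl | hx'
      · exact hmax y hy'
      · exact ht x' hx' y hy'

section
variable {E Φ K U : Type*} [DecidableEq E] [DecidableEq Φ] [Fintype K] [Fintype U]
variable (S : Sys E Φ K U)

theorem forces_of_pot (Bd : Finset E) (goal : Finset E → Prop) (hA : ∀ φ, S.A φ ⊆ Bd)
    (hgoal : ∀ φ M, S.A φ ⊆ M → goal M)
    {ρ Cap loss : ℝ}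
    (hchain : ∀ (X Y : Finset E) (F : Finset Φ) (z : E),
      S.Sq X Y F z ≤ ρ * (S.DT X Y F z + S.DG X Y F z))
    (hρ0 : 0 ≤ ρ) (hρ1 : S.C3 * ρ ≤ S.η / 4) (hρ2 : S.C3 * ρ ≤ (S.c - 1) * (S.η / 4))
    (hcap : ∀ (X Y : Finset E) (F : Finset Φ), S.Clean X Y F → ∀ z z', z ≠ z' →
      S.T X Y (F.filter (fun φ => z ∈ S.A φ ∧ z' ∈ S.A φ)) ≤ Cap)
    (hC : 0 ≤ Cap) (hloss : (S.C1 + S.C2) * (S.NN ^ 2 * Cap) ≤ loss) (hloss0 : 0 ≤ loss) :
    ∀ (k : ℕ) (M B : Finset E) (F : Finset Φ), (Bd \ (M ∪ B)).card = k → Disjoint M B →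
      (k : ℝ) * loss < S.L M B F → Forces S.m S.b Bd goal M B := by
  intro k
  induction k using Nat.strong_induction_on with
  | _ k ih =>
    intro M B F hk hMB hL
    rcases (Bd \ (M ∪ B)).eq_empty_or_nonempty with he | hne
    · apply Forces.done he
      have hL0 : 0 < S.L M B F := by
        refine lt_of_le_of_lt ?_ hL
        positivity
      have hT : 0 < S.T M B F := by
        unfold Sys.L at hL0
        have := S.G_nonneg M B F
        linarith
      unfold Sys.T at hT
      obtain ⟨φ, hφ, hpos⟩ := exists_lt_of_sum_lt (s := F) (f := fun _ => (0 : ℝ))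
        (g := fun φ => S.T1 M B φ) (by simpa using hT)
      have hd : Disjoint (S.A φ) B := by
        by_contra hcon
        unfold Sys.T1 pw at hpos
        rw [if_neg hcon, zero_mul] at hpos
        exact lt_irrefl _ hpos
      apply hgoal φ M
      intro z hz
      by_contra hzM
      have h1 : z ∈ Bd \ (M ∪ B) := by
        rw [mem_sdiff, mem_union, not_or]
        exact ⟨hA φ hz, hzM, disjoint_left.mp hd hz⟩
      rw [he] at h1
      exact notMem_empty z h1
    · obtain ⟨F', hF', hclean, hLF⟩ := S.exists_clean M B F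
      obtain ⟨Q, hQ, hQc, htop⟩ := exists_top (fun z => S.j M B F' z) (Bd \ (M ∪ B))
        (min S.m (Bd \ (M ∪ B)).card) (min_le_right _ _)
      refine Forces.move hne Q hQ hQc ?_
      intro R hR hRc
      have hkpos : 0 < k := by rw [← hk]; exact card_pos.mpr hne
      have hQpos : 0 < Q.card := by
        rw [hQc, hk]
        have := S.hm
        omega
      have hfree : ∀ z ∈ Bd \ (M ∪ B), z ∉ M ∧ z ∉ B := by
        intro z hz
        rw [mem_sdiff, mem_union, not_or] at hz
        exact hz.2
      have hR' : R ⊆ Bd \ (M ∪ B) := hR.trans sdiff_subset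
      have hQM : Disjoint Q M := disjoint_left.mpr (fun z hz => (hfree z (hQ hz)).1)
      have hQB : Disjoint Q B := disjoint_left.mpr (fun z hz => (hfree z (hQ hz)).2)
      have hRM : Disjoint R M := disjoint_left.mpr (fun z hz => (hfree z (hR' hz)).1)
      have hRB : Disjoint R B := disjoint_left.mpr (fun z hz => (hfree z (hR' hz)).2)
      have hQR : Disjoint Q R := by
        rw [disjoint_right]
        intro z hz
        exact (mem_sdiff.mp (hR hz)).2
      have hfull : R = ∅ ∨ Q.card = S.m := by
        rcases Nat.lt_or_ge (Bd \ (M ∪ B)).card S.m with h | h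
        · left
          have h1 : Q.card = (Bd \ (M ∪ B)).card := by rw [hQc]; omega
          have h2 : Q = Bd \ (M ∪ B) := eq_of_subset_of_card_le hQ (by omega)
          rw [h2, Finset.sdiff_self] at hR
          exact subset_empty.mp hR
        · right; rw [hQc]; omega
      have hround := S.round (X := M) (Y := B) (A0 := Q) (B0 := R) hclean
        (fun z _ _ => hchain M B F' z) hρ0 hρ1 hρ2
        (hcap M B F' hclean) hC hQM hQB hRM hRB hQR
        (by rw [hQc]; exact min_le_left _ _) (by rw [hRc]; exact min_le_left _ _) hfull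
        (fun x hx y hy => htop x hx y (hR hy))
      have hlt : (Bd \ ((M ∪ Q) ∪ (B ∪ R))).card < k := by
        rw [← hk]
        apply card_lt_card
        refine ⟨?_, ?_⟩
        · intro z hz
          simp only [mem_sdiff, mem_union, not_or] at hz ⊢
          exact ⟨hz.1, hz.2.1.1, hz.2.2.1⟩
        · intro hcon
          obtain ⟨z, hz⟩ := card_pos.mp hQpos
          have := hcon (hQ hz)
          simp only [mem_sdiff, mem_union, not_or] at this
          exact this.2.1.2 hz
      refine ih _ hlt (M ∪ Q) (B ∪ R) F' rfl ?_ ?_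
      · rw [disjoint_union_left, disjoint_union_right, disjoint_union_right]
        exact ⟨⟨hMB, hRM.symm⟩, hQB, hQR⟩
      · have h1 : ((Bd \ ((M ∪ Q) ∪ (B ∪ R))).card : ℝ) ≤ (k : ℝ) - 1 := by
          have : (Bd \ ((M ∪ Q) ∪ (B ∪ R))).card + 1 ≤ k := hlt
          have h2 : (((Bd \ ((M ∪ Q) ∪ (B ∪ R))).card : ℕ) : ℝ) + 1 ≤ (k : ℝ) := by
            exact_mod_cast this
          linarith
        have h2 := mul_le_mul_of_nonneg_right h1 hloss0
        linarith

end

end Pool.Agent.Helper340.MB
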