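import Mathlib
import Pool.Agent.Helper340.MB.Conc
import Pool.Agent.Helper340.MB.Play

set_option autoImplicit false
set_option linter.unusedVariables false
set_option linter.unusedSectionVars false
set_option linter.unusedSimpArgs false

namespace Pool.Agent.Helper340.MB

open Finset Pool.Agent.Helper340.TwoEdges

section start
variable {V : Type*} [DecidableEq V] {q n : ℕ} [NeZero n]

lemma card_es {e : Fin q × Fin n → V} (he : Function.Injective e) (I : Finset (Fin q))
    (φ : Fin q → Fin n) : (es e I φ).card = I.card.choose 2 := by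
  unfold es
  rw [card_image_of_injOn, card_prs]
  intro p hp p' hp' h
  rw [mem_coe, mem_prs] at hp hp'
  exact (ed_inj he hp.2.2 hp'.2.2 h).1

lemma card_lmm (κ : Lv q n) : (lmm κ).card = n ^ (q - (dom κ).card) := by
  have h : lmm κ = Fintype.piFinset
      (fun i => if i ∈ dom κ then {fl κ i} else (univ : Finset (Fin n))) := by
    ext φ
    unfold lmm
    simp only [mem_filter, mem_univ, true_and, Fintype.mem_piFinset]
    constructor
    · intro h i
      split_ifs with hi
      · rw [mem_singleton]; exact h i hi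
      · exact mem_univ _
    · intro h i hi
      have := h i
      rw [if_pos hi, mem_singleton] at this
      exact this
  rw [h, Fintype.card_piFinset]
  have h2 : ∀ i : Fin q, (if i ∈ dom κ then ({fl κ i} : Finset (Fin n)) else univ).card
      = if i ∈ dom κ then 1 else n := by
    intro i; split_ifs <;> simp
  rw [prod_congr rfl (fun i _ => h2 i), prod_ite]
  simp only [prod_const_one, one_mul, prod_const]
  congr 1
  have : (univ.filter (fun i => i ∉ dom κ)) = (dom κ)ᶜ := by
    ext i; simp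
  rw [this, card_compl, Fintype.card_fin]

lemma card_dom (I : Finset (Fin q)) :
    ((univ : Finset (Lv q n)).filter (fun κ => dom κ = I)).card = n ^ I.card := by
  have h : (univ : Finset (Lv q n)).filter (fun κ => dom κ = I) = Fintype.piFinset
      (fun i => if i ∈ I then (univ : Finset (Fin n)).image some else {none}) := by
    ext κ
    simp only [mem_filter, mem_univ, true_and, Fintype.mem_piFinset]
    constructor
    · rintro rfl i
      split_ifs with hi
      · rw [mem_image]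
        exact ⟨fl κ i, mem_univ _, (mem_dom.mp hi).symm⟩
      · rw [mem_singleton]; exact none_of_notMem hi
    · intro h
      ext i
      have h1 := h i
      constructor
      · intro hi
        by_contra hI
        rw [if_neg hI, mem_singleton] at h1
        have := mem_dom.mp hi
        rw [h1] at this
        exact absurd this (by simp)
      · intro hI
        rw [if_pos hI, mem_image] at h1
        obtain ⟨a, _, ha⟩ := h1
        exact (dom_of_some ha.symm).1
  rw [h, Fintype.card_piFinset]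
  have h2 : ∀ i : Fin q, (if i ∈ I then (univ : Finset (Fin n)).image some else
      {none}).card = if i ∈ I then n else 1 := by
    intro i
    split_ifs
    · rw [card_image_of_injective _ (Option.some_injective _), card_univ, Fintype.card_fin]
    · rw [card_singleton]
  rw [prod_congr rfl (fun i _ => h2 i), prod_ite]
  simp only [prod_const_one, mul_one, prod_const]
  congr 1
  have : (univ.filter (fun i => i ∈ I)) = I := by
    ext i; simp
  rw [this]

/-- starting total -/
noncomputable def Tr (q n : ℕ) (c : ℝ) : ℝ := (n : ℝ) ^ q * (1 / c) ^ (q.choose 2)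

lemma Tr_pos {c : ℝ} (hc : 1 < c) : 0 < Tr q n c := by
  unfold Tr
  have : 0 < n := Nat.pos_of_ne_zero (NeZero.ne n)
  have : (0 : ℝ) < n := by exact_mod_cast this
  positivity

lemma pw_start (c : ℝ) {E : Type*} [DecidableEq E] (S : Finset E) :
    pw c ∅ ∅ S = (1 / c) ^ S.card := by
  unfold pw
  rw [if_pos (disjoint_empty_right S), sdiff_empty]

variable (D : Dat q n V)

lemma T_start : Tr q n D.sys.c ≤ D.sys.T ∅ ∅ univ := by
  unfold Sys.T Tr
  have h1 : ∀ φ ∈ (univ : Finset (Fin q → Fin n)), (1 / D.sys.c) ^ (q.choose 2)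
      ≤ D.sys.T1 ∅ ∅ φ := by
    intro φ _
    unfold Sys.T1
    rw [pw_start]
    have h2 : (D.sys.A φ).card = q.choose 2 := by
      show (es D.e univ φ).card = q.choose 2
      rw [card_es D.he, card_univ, Fintype.card_fin]
    rw [h2]
    have h3 : (1 : ℝ) ≤ Real.exp (D.sys.η * ss D.sys.c ∅ (D.sys.stA φ)) := by
      rw [Real.one_le_exp_iff]
      exact mul_nonneg D.sys.η_pos.le (ss_nonneg D.sys.c_gt _ _)
    have h4 : (0 : ℝ) ≤ (1 / D.sys.c) ^ (q.choose 2) := by
      have := D.sys.c_gt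
      positivity
    nlinarith
  have h2 := sum_le_sum h1
  rw [sum_const, nsmul_eq_mul, card_univ] at h2
  simp only [Fintype.card_fun, Fintype.card_fin, Nat.cast_pow] at h2
  exact h2

lemma V_start (κ : Lv q n) : D.sys.V ∅ ∅ univ κ
    = Tr q n D.sys.c * (D.sys.c ^ ((dom κ).card.choose 2) / (n : ℝ) ^ (dom κ).card) := by
  have hc := D.sys.c_gt
  have hn : 0 < n := Nat.pos_of_ne_zero (NeZero.ne n)
  have hn' : (0 : ℝ) < n := by exact_mod_cast hn
  have hle : (dom κ).card ≤ q := by
    have := card_le_univ (dom κ)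
    rwa [Fintype.card_fin] at this
  unfold Sys.V
  rw [univ_inter]
  have h1 : ∀ φ ∈ D.sys.mem κ, D.sys.vv ∅ ∅ κ φ
      = (1 / D.sys.c) ^ (q.choose 2) * D.sys.c ^ ((dom κ).card.choose 2) := by
    intro φ hφ
    unfold Sys.vv
    rw [pw_start]
    have h2 : (D.sys.A φ \ D.sys.inn κ).card + (dom κ).card.choose 2 = q.choose 2 := by
      have h3 := card_sdiff_add_card_eq_card (D.sys.inn_sub κ φ hφ)
      have h4 : (D.sys.inn κ).card = (dom κ).card.choose 2 := card_es D.he _ _
      have h5 : (D.sys.A φ).card = q.choose 2 := by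
        show (es D.e univ φ).card = q.choose 2
        rw [card_es D.he, card_univ, Fintype.card_fin]
      rw [h4, h5] at h3
      exact h3
    rw [← h2, pow_add]
    have hc0 : D.sys.c ≠ 0 := by linarith
    have : (1 / D.sys.c) ^ ((dom κ).card.choose 2) * D.sys.c ^ ((dom κ).card.choose 2) = 1 := by
      rw [← mul_pow, one_div_mul_cancel hc0, one_pow]
    rw [mul_assoc, this, mul_one]
  rw [sum_congr rfl h1, sum_const, nsmul_eq_mul]
  have h2 : (D.sys.mem κ).card = n ^ (q - (dom κ).card) := card_lmm κ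
  rw [h2]
  unfold Tr
  push_cast
  have h3 : (n : ℝ) ^ q = (n : ℝ) ^ (q - (dom κ).card) * (n : ℝ) ^ (dom κ).card := by
    rw [← pow_add]
    congr 1
    omega
  rw [h3]
  field_simp

lemma G_start (l3 R : ℝ) (hl : D.l = fun i => l3 * R ^ (i - 3)) (hl3 : 0 < l3) (hR : 1 ≤ R) :
    D.sys.G ∅ ∅ univ ≤ Tr q n D.sys.c ^ 2 * (l3 * ∑ i ∈ Ico 3 q, (q.choose i : ℝ)
      * R ^ (i - 3) * (D.sys.c ^ (i.choose 2) / (n : ℝ) ^ i)) := by
  have hc := D.sys.c_gt
  have hn : 0 < n := Nat.pos_of_ne_zero (NeZero.ne n)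
  have hn' : (0 : ℝ) < n := by exact_mod_cast hn
  have hT := Tr_pos (q := q) (n := n) hc
  set T := Tr q n D.sys.c with hTdef
  obtain ⟨h, hh⟩ : ∃ h : ℕ → ℝ, ∀ i, h i = (if 3 ≤ i ∧ i < q then l3 * R ^ (i - 3) else 0) *
    (T ^ 2 * (D.sys.c ^ (i.choose 2) / ((n : ℝ) ^ i * (n : ℝ) ^ i))) := ⟨_, fun _ => rfl⟩
  have h1 : ∀ κ : Lv q n, D.sys.g ∅ ∅ univ κ ≤ h (dom κ).card := by
    intro κ
    rw [hh]
    unfold Sys.g
    have h2 : D.sys.lam κ = if 3 ≤ (dom κ).card ∧ (dom κ).card < q
        then l3 * R ^ ((dom κ).card - 3) else 0 := by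
      show (if 3 ≤ (dom κ).card ∧ (dom κ).card < q then D.l (dom κ).card else 0) = _
      rw [hl]
    rw [← h2]
    apply mul_le_mul_of_nonneg_left _ (D.sys.lam_nonneg κ)
    rw [V_start, ← hTdef]
    set i := (dom κ).card
    have h3 : D.sys.w ∅ ∅ κ ≤ (1 / D.sys.c) ^ (i.choose 2) := by
      unfold Sys.w
      rw [pw_start]
      have h4 : (D.sys.inn κ).card = i.choose 2 := card_es D.he _ _
      rw [h4]
      have h5 : Real.exp (-(D.sys.η * ss D.sys.c ∅ (D.sys.st κ))) ≤ 1 := by
        rw [Real.exp_le_one_iff]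
        have := mul_nonneg D.sys.η_pos.le (ss_nonneg hc ∅ (D.sys.st κ))
        linarith
      have h6 : (0 : ℝ) ≤ (1 / D.sys.c) ^ (i.choose 2) := by positivity
      calc (1 / D.sys.c) ^ (i.choose 2) * Real.exp (-(D.sys.η * ss D.sys.c ∅ (D.sys.st κ)))
          ≤ (1 / D.sys.c) ^ (i.choose 2) * 1 := mul_le_mul_of_nonneg_left h5 h6
        _ = _ := mul_one _
    have h4 : (0 : ℝ) ≤ (T * (D.sys.c ^ (i.choose 2) / (n : ℝ) ^ i)) ^ 2 := sq_nonneg _
    refine (mul_le_mul_of_nonneg_right h3 h4).trans (le_of_eq ?_)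
    have hc0 : D.sys.c ≠ 0 := by linarith
    have h5 : (1 / D.sys.c) ^ (i.choose 2) * D.sys.c ^ (i.choose 2) = 1 := by
      rw [← mul_pow, one_div_mul_cancel hc0, one_pow]
    calc (1 / D.sys.c) ^ (i.choose 2) * (T * (D.sys.c ^ (i.choose 2) / (n : ℝ) ^ i)) ^ 2
        = ((1 / D.sys.c) ^ (i.choose 2) * D.sys.c ^ (i.choose 2))
          * (T ^ 2 * (D.sys.c ^ (i.choose 2) / ((n : ℝ) ^ i * (n : ℝ) ^ i))) := by
          rw [mul_pow, div_pow]; ring
      _ = _ := by rw [h5, one_mul]
  have h2 : D.sys.G ∅ ∅ univ ≤ ∑ κ : Lv q n, h (dom κ).card := by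
    unfold Sys.G
    exact sum_le_sum (fun κ _ => h1 κ)
  refine h2.trans (le_of_eq ?_)
  have h3 : ∑ κ : Lv q n, h (dom κ).card = ∑ I : Finset (Fin q), (n : ℝ) ^ I.card * h I.card := by
    rw [← sum_fiberwise (univ : Finset (Lv q n)) dom]
    apply sum_congr rfl
    intro I _
    rw [sum_congr rfl (g := fun _ => h I.card)]
    · rw [sum_const, nsmul_eq_mul, card_dom, Nat.cast_pow]
    · intro κ hκ
      rw [mem_filter] at hκ
      rw [hκ.2]
  rw [h3]
  have h4 : (univ : Finset (Finset (Fin q))) = (univ : Finset (Fin q)).powerset := by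
    rw [powerset_univ]
  rw [h4, sum_powerset_apply_card (fun i => (n : ℝ) ^ i * h i), card_univ, Fintype.card_fin]
  have h5 : ∀ i ∈ range (q + 1), q.choose i • ((n : ℝ) ^ i * h i)
      = if 3 ≤ i ∧ i < q then T ^ 2 * (l3 * ((q.choose i : ℝ)
      * R ^ (i - 3) * (D.sys.c ^ (i.choose 2) / (n : ℝ) ^ i))) else 0 := by
    intro i _
    rw [nsmul_eq_mul, hh]
    split_ifs
    · field_simp
    · ring
  rw [sum_congr rfl h5, ← sum_filter, mul_sum, mul_sum]
  apply sum_congr _ (fun _ _ => rfl)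
  ext i
  simp only [mem_filter, mem_range, mem_Ico]
  omega

/-- Maker wins the `(m:b)` game on a board containing all edges of the `q`-partite graph, as soon
as the numerical conditions hold. -/
theorem start_forces (Bd : Finset (Sym2 V)) (goal : Finset (Sym2 V) → Prop)
    (hA : ∀ φ, es D.e univ φ ⊆ Bd) (hgoal : ∀ φ M, es D.e univ φ ⊆ M → goal M)
    (l3 R : ℝ) (hl : D.l = fun i => l3 * R ^ (i - 3)) (hl3 : 0 < l3) (hR : 1 ≤ R)
    (hq : 5 ≤ q)
    (hR1 : D.sys.C3 * (3 * (1 / R)) ≤ D.η / 4)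
    (hR2 : D.sys.C3 * (3 * (1 / R)) ≤ (D.sys.c - 1) * (D.η / 4))
    (h3 : l3 * R ^ (q - 3) ≤ 1)
    (h4 : 4 * ((Bd.card : ℝ) * ((D.sys.C1 + D.sys.C2) * (D.sys.NN ^ 2
      * Real.exp (3 * (D.η * q))))) ≤ l3 * Tr q n D.sys.c)
    (h5 : Tr q n D.sys.c * (l3 * ∑ i ∈ Ico 3 q, (q.choose i : ℝ)
      * R ^ (i - 3) * (D.sys.c ^ (i.choose 2) / (n : ℝ) ^ i)) ≤ 1 / 2) :
    Forces D.m D.b Bd goal ∅ ∅ := by
  have hc := D.sys.c_gt
  have hT := Tr_pos (q := q) (n := n) hc
  have hR0 : 0 < R := by linarith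
  have hC1 : 0 ≤ D.sys.C1 := by unfold Sys.C1; have := D.sys.bpos; linarith
  have hC2 := D.sys.C2_nonneg
  set Cap := Real.exp (3 * (D.η * q)) / l3 with hCap
  have hCap0 : 0 ≤ Cap := by positivity
  set loss := (D.sys.C1 + D.sys.C2) * (D.sys.NN ^ 2 * Cap) with hloss
  have hloss0 : 0 ≤ loss := by positivity
  have hchain := D.chain (ρ := 1 / R) (by positivity)
    (by
      intro i j hi hij hj
      rw [hl]
      show l3 * R ^ (i - 3) ≤ 1 / R * (l3 * R ^ (j - 3))
      have h6 : R ^ (i - 3) * R ≤ R ^ (j - 3) := by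
        rw [← pow_succ]
        exact pow_le_pow_right₀ hR (by omega)
      have h7 := mul_le_mul_of_nonneg_left h6 hl3.le
      rw [one_div, ← mul_assoc, mul_comm R⁻¹ l3, mul_assoc]
      have h8 : R ^ (i - 3) ≤ R⁻¹ * R ^ (j - 3) := by
        rw [inv_mul_eq_div, le_div_iff₀ hR0]
        exact h6
      exact mul_le_mul_of_nonneg_left h8 hl3.le)
    (by
      intro i hi hiq
      rw [hl]
      show l3 * R ^ (i - 3) ≤ 1 / R
      rw [le_div_iff₀ hR0, mul_assoc, ← pow_succ]
      have h6 : R ^ (i - 3 + 1) ≤ R ^ (q - 3) := pow_le_pow_right₀ hR (by omega)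
      exact (mul_le_mul_of_nonneg_left h6 hl3.le).trans h3)
  have hG := G_start D l3 R hl hl3 hR
  have hTs := T_start D
  refine forces_of_pot D.sys Bd goal hA hgoal hchain (by positivity) hR1 hR2
    (fun X Y F hcl z z' hne => D.cap hl3 (by
      intro i hi _
      rw [hl]
      show l3 ≤ l3 * R ^ (i - 3)
      have h6 : 1 ≤ R ^ (i - 3) := one_le_pow₀ hR
      nlinarith) hq hcl z z' hne) hCap0 (le_of_eq rfl) hloss0 Bd.card ∅ ∅ univ (by simp)
    (disjoint_empty_left _) ?_
  have h6 : (Bd.card : ℝ) * loss ≤ Tr q n D.sys.c / 4 := by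
    have h7 : (Bd.card : ℝ) * loss = (Bd.card : ℝ) * ((D.sys.C1 + D.sys.C2) * (D.sys.NN ^ 2
      * Real.exp (3 * (D.η * q)))) / l3 := by
      rw [hloss, hCap]; ring
    rw [h7, div_le_iff₀ hl3]
    linarith
  have h7 : D.sys.G ∅ ∅ univ ≤ Tr q n D.sys.c / 2 := by
    refine hG.trans ?_
    rw [sq, mul_assoc]
    have := mul_le_mul_of_nonneg_left h5 hT.le
    linarith
  unfold Sys.L
  linarith

end start

end Pool.Agent.Helper340.MB
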