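import Mathlib
import Pool.Agent.Helper340.MB.Start

set_option autoImplicit false
set_option linter.unusedVariables false
set_option linter.unusedSectionVars false
set_option linter.unusedSimpArgs false

namespace Pool.Agent.Helper340.MB

open Finset

lemma two_choose (i : ℕ) : 2 * i.choose 2 = (i - 1) * i := by
  rw [Nat.choose_two_right, mul_comm (i - 1) i]
  exact Nat.mul_div_cancel' (Nat.even_mul_pred_self i).two_dvd

lemma pow_choose {c s : ℝ} (hs : s ^ 2 = c) (i : ℕ) : c ^ (i.choose 2) = (s ^ (i - 1)) ^ i := by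
  rw [← hs, ← pow_mul, ← pow_mul, two_choose]

/-- the numerical heart -/
lemma numer_main {c s R δ M B : ℝ} {q n N : ℕ}
    (hc : 1 < c) (hs1 : 1 < s) (hs : s ^ 2 = c) (hR : 1 ≤ R) (hδ0 : 0 < δ)
    (hδ : 4 * R * δ * c ^ 4 ≤ 1) (hM : M ^ 10 = (N : ℝ)) (hM1 : 2 ≤ M)
    (he : (N : ℝ) ^ 3 ≤ c ^ (2 * q)) (hd : s ^ (q - 1) ≤ δ * n)
    (hB0 : 0 ≤ B) (hB : B ≤ M ^ 24) (hcM : 2 * R * c ^ 15 * (q : ℝ) ^ 2 ≤ M)
    (hf : (N : ℝ) ≤ 2 * q * n) (hnN : n ≤ N) (hn : 1 ≤ n) (hq : 7 ≤ q) :
    B * R ^ (q - 3) ≤ Tr q n c ∧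
    B * ∑ i ∈ Ico 3 q, (q.choose i : ℝ) * R ^ (i - 3) * (c ^ (i.choose 2) / (n : ℝ) ^ i)
      ≤ 1 / 2 := by
  have hn0 : (0 : ℝ) < n := by exact_mod_cast hn
  have hM0 : 0 < M := by linarith
  have hMge1 : 1 ≤ M := by linarith
  have hN0 : (0 : ℝ) < N := by rw [← hM]; positivity
  have hq7 : (7 : ℝ) ≤ q := by exact_mod_cast hq
  have hq0 : (0 : ℝ) < q := by linarith
  have hc0 : 0 < c := by linarith
  have hc15 : 1 ≤ c ^ 15 := one_le_pow₀ hc.le
  have hs0 : 0 < s := by linarith
  have hR0 : 0 < R := by linarith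
  have hRq : 2 * R * (q : ℝ) ^ 2 ≤ M := by
    refine le_trans ?_ hcM
    have : 0 ≤ 2 * R * (q : ℝ) ^ 2 := by positivity
    nlinarith
  have hcM' : c ^ 15 ≤ M := by
    refine le_trans ?_ hcM
    have : 1 ≤ 2 * R * (q : ℝ) ^ 2 := by nlinarith
    nlinarith
  have hqM : (q : ℝ) ≤ M := by
    refine le_trans ?_ hRq
    nlinarith
  -- `R q / n ≤ M / N`
  have hrn : R * q / n ≤ M / N := by
    rw [div_le_div_iff₀ hn0 hN0]
    calc R * q * N ≤ R * q * (2 * q * n) := mul_le_mul_of_nonneg_left hf (by positivity)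
      _ = (2 * R * (q : ℝ) ^ 2) * n := by ring
      _ ≤ M * n := mul_le_mul_of_nonneg_right hRq hn0.le
  have hMN : M / N = 1 / M ^ 9 := by
    rw [← hM, div_eq_div_iff (by positivity) (by positivity)]
    ring
  have hinv : 1 / M ≤ 1 := by rw [div_le_one hM0]; exact hMge1
  have hinv0 : 0 ≤ 1 / M := by positivity
  constructor
  · -- (h3)
    unfold Tr
    have h1 : (1 / c) ^ (q.choose 2) = 1 / (s ^ (q - 1)) ^ q := by
      rw [one_div_pow, pow_choose hs]
    rw [h1, mul_one_div]
    have h2 : 0 < (s ^ (q - 1)) ^ q := by positivity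
    rw [le_div_iff₀ h2]
    have h3 : (s ^ (q - 1)) ^ q ≤ (δ * n) ^ q := pow_le_pow_left₀ (by positivity) hd q
    have h4 : R ^ (q - 3) ≤ R ^ q := pow_le_pow_right₀ hR (by omega)
    have h5 : (R * δ) ^ q * (c ^ 4) ^ q ≤ 1 := by
      rw [← mul_pow]
      apply pow_le_one₀ (by positivity)
      have : 0 ≤ R * δ * c ^ 4 := by positivity
      linarith
    have h6 : B ≤ (c ^ 4) ^ q := by
      have h7 : (N : ℝ) ^ 3 ≤ (c ^ 4) ^ q := by
        refine he.trans ?_
        rw [← pow_mul]
        exact pow_le_pow_right₀ hc.le (by omega)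
      refine hB.trans (le_trans ?_ h7)
      rw [← hM, ← pow_mul]
      exact pow_le_pow_right₀ hMge1 (by norm_num)
    calc B * R ^ (q - 3) * (s ^ (q - 1)) ^ q ≤ (c ^ 4) ^ q * R ^ q * (δ * n) ^ q :=
          mul_le_mul (mul_le_mul h6 h4 (by positivity) (by positivity)) h3 h2.le (by positivity)
      _ = ((R * δ) ^ q * (c ^ 4) ^ q) * (n : ℝ) ^ q := by rw [mul_pow, mul_pow]; ring
      _ ≤ 1 * (n : ℝ) ^ q := mul_le_mul_of_nonneg_right h5 (by positivity)
      _ = (n : ℝ) ^ q := one_mul _
  · -- (h5)
    have hterm : ∀ i ∈ Ico 3 q, B * ((q.choose i : ℝ) * R ^ (i - 3)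
        * (c ^ (i.choose 2) / (n : ℝ) ^ i)) ≤ (1 / M) ^ 2 := by
      intro i hi
      rw [mem_Ico] at hi
      have hRi : R ^ (i - 3) ≤ R ^ i := pow_le_pow_right₀ hR (by omega)
      have hch : (q.choose i : ℝ) ≤ (q : ℝ) ^ i := by exact_mod_cast Nat.choose_le_pow q i
      have e1 : c ^ (i.choose 2) / (n : ℝ) ^ i = (s ^ (i - 1) / n) ^ i := by
        rw [pow_choose hs, div_pow]
      rcases Nat.lt_or_ge i 7 with h7 | h7
      · -- low
        have h1 : c ^ (i.choose 2) ≤ M := by
          refine le_trans ?_ hcM'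
          apply pow_le_pow_right₀ hc.le
          have : i.choose 2 ≤ Nat.choose 6 2 := Nat.choose_le_choose 2 (by omega)
          refine this.trans ?_
          decide
        have h2 : (q.choose i : ℝ) * R ^ (i - 3) * (c ^ (i.choose 2) / (n : ℝ) ^ i)
            ≤ (R * q / n) ^ i * M := by
          calc (q.choose i : ℝ) * R ^ (i - 3) * (c ^ (i.choose 2) / (n : ℝ) ^ i)
              ≤ (q : ℝ) ^ i * R ^ i * (M / (n : ℝ) ^ i) := by
                apply mul_le_mul
                · exact mul_le_mul hch hRi (by positivity) (by positivity)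
                · exact div_le_div_of_nonneg_right h1 (by positivity)
                · positivity
                · positivity
            _ = _ := by rw [div_pow, mul_pow]; ring
        have h3 : (R * q / n) ^ i ≤ (1 / M) ^ 27 := by
          calc (R * q / n) ^ i ≤ (M / N) ^ i := pow_le_pow_left₀ (by positivity) hrn i
            _ = (1 / M) ^ (9 * i) := by
              rw [hMN, pow_mul, one_div_pow M 9]
            _ ≤ (1 / M) ^ 27 := pow_le_pow_of_le_one hinv0 hinv (by omega)
        calc B * ((q.choose i : ℝ) * R ^ (i - 3) * (c ^ (i.choose 2) / (n : ℝ) ^ i))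
            ≤ M ^ 24 * ((1 / M) ^ 27 * M) := by
              apply mul_le_mul hB _ (by positivity) (by positivity)
              exact h2.trans (mul_le_mul_of_nonneg_right h3 hM0.le)
          _ = (1 / M) ^ 2 := by field_simp
      · rcases Nat.lt_or_ge q (2 * i) with h8 | h8
        · -- high
          have h1 : (q.choose i : ℝ) ≤ 4 ^ i := by
            have h9 : q.choose i ≤ 2 ^ q := Nat.choose_le_two_pow q i
            have h10 : 2 ^ q ≤ 4 ^ i := by
              have : (4 : ℕ) ^ i = 2 ^ (2 * i) := by rw [pow_mul]; norm_num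
              rw [this]
              exact Nat.pow_le_pow_right (by norm_num) (by omega)
            exact_mod_cast h9.trans h10
          have h2 : s ^ (i - 1) / n ≤ δ := by
            rw [div_le_iff₀ hn0]
            exact (pow_le_pow_right₀ hs1.le (by omega)).trans hd
          have h3 : (q.choose i : ℝ) * R ^ (i - 3) * (c ^ (i.choose 2) / (n : ℝ) ^ i)
              ≤ (4 * R * δ) ^ i := by
            rw [e1, mul_pow, mul_pow]
            apply mul_le_mul
            · exact mul_le_mul h1 hRi (by positivity) (by positivity)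
            · exact pow_le_pow_left₀ (by positivity) h2 i
            · positivity
            · positivity
          have h4 : (4 * R * δ) ^ i ≤ (1 / M) ^ 26 := by
            have h5 : 4 * R * δ ≤ 1 / c ^ 4 := by
              rw [le_div_iff₀ (by positivity)]
              exact hδ
            have h6 : M ^ 26 ≤ c ^ (4 * i) := by
              have h9 : M ^ 26 ≤ (N : ℝ) ^ 3 := by
                rw [← hM, ← pow_mul]
                exact pow_le_pow_right₀ hMge1 (by norm_num)
              exact (h9.trans he).trans (pow_le_pow_right₀ hc.le (by omega))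
            calc (4 * R * δ) ^ i ≤ (1 / c ^ 4) ^ i := pow_le_pow_left₀ (by positivity) h5 i
              _ = 1 / c ^ (4 * i) := by rw [one_div_pow, ← pow_mul]
              _ ≤ 1 / M ^ 26 := one_div_le_one_div_of_le (by positivity) h6
              _ = (1 / M) ^ 26 := by rw [one_div_pow]
          calc B * ((q.choose i : ℝ) * R ^ (i - 3) * (c ^ (i.choose 2) / (n : ℝ) ^ i))
              ≤ M ^ 24 * (1 / M) ^ 26 :=
                mul_le_mul hB (h3.trans h4) (by positivity) (by positivity)
            _ = (1 / M) ^ 2 := by field_simp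
        · -- middle
          have h1 : s ^ (i - 1) ≤ M ^ 5 := by
            have h9 : (s ^ (i - 1)) ^ 2 ≤ (M ^ 5) ^ 2 := by
              rw [← pow_mul, ← pow_mul]
              have h10 : s ^ ((i - 1) * 2) ≤ s ^ (q - 1) := pow_le_pow_right₀ hs1.le (by omega)
              refine h10.trans (hd.trans ?_)
              show δ * (n : ℝ) ≤ M ^ 10
              rw [hM]
              have h11 : δ ≤ 1 := by
                have h12 : 1 ≤ 4 * R * c ^ 4 := by
                  have : 1 ≤ c ^ 4 := one_le_pow₀ hc.le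
                  nlinarith
                nlinarith
              have h12 : (n : ℝ) ≤ N := by exact_mod_cast hnN
              nlinarith
            exact le_of_sq_le_sq h9 (by positivity)
          have h2 : (q.choose i : ℝ) * R ^ (i - 3) * (c ^ (i.choose 2) / (n : ℝ) ^ i)
              ≤ ((R * q / n) * M ^ 5) ^ i := by
            rw [e1]
            calc (q.choose i : ℝ) * R ^ (i - 3) * (s ^ (i - 1) / n) ^ i
                ≤ (q : ℝ) ^ i * R ^ i * (M ^ 5 / n) ^ i := by
                  apply mul_le_mul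
                  · exact mul_le_mul hch hRi (by positivity) (by positivity)
                  · exact pow_le_pow_left₀ (by positivity)
                      (div_le_div_of_nonneg_right h1 hn0.le) i
                  · positivity
                  · positivity
              _ = _ := by rw [← mul_pow, ← mul_pow]; congr 1; ring
          have h3 : ((R * q / n) * M ^ 5) ^ i ≤ (1 / M) ^ 26 := by
            have h4 : (R * q / n) * M ^ 5 ≤ (1 / M) ^ 4 := by
              calc (R * q / n) * M ^ 5 ≤ (M / N) * M ^ 5 :=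
                    mul_le_mul_of_nonneg_right hrn (by positivity)
                _ = (1 / M) ^ 4 := by rw [hMN]; field_simp
            calc ((R * q / n) * M ^ 5) ^ i ≤ ((1 / M) ^ 4) ^ i :=
                  pow_le_pow_left₀ (by positivity) h4 i
              _ = (1 / M) ^ (4 * i) := by rw [← pow_mul]
              _ ≤ (1 / M) ^ 26 := pow_le_pow_of_le_one hinv0 hinv (by omega)
          calc B * ((q.choose i : ℝ) * R ^ (i - 3) * (c ^ (i.choose 2) / (n : ℝ) ^ i))
              ≤ M ^ 24 * (1 / M) ^ 26 :=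
                mul_le_mul hB (h2.trans h3) (by positivity) (by positivity)
            _ = (1 / M) ^ 2 := by field_simp
    rw [mul_sum]
    refine (sum_le_sum hterm).trans ?_
    rw [sum_const, nsmul_eq_mul, Nat.card_Ico]
    have h1 : ((q - 3 : ℕ) : ℝ) ≤ M := by
      have : ((q - 3 : ℕ) : ℝ) ≤ (q : ℝ) := by exact_mod_cast (Nat.sub_le q 3)
      linarith
    calc ((q - 3 : ℕ) : ℝ) * (1 / M) ^ 2 ≤ M * (1 / M) ^ 2 :=
          mul_le_mul_of_nonneg_right h1 (by positivity)
      _ = 1 / M := by field_simp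
      _ ≤ 1 / 2 := one_div_le_one_div_of_le (by norm_num) hM1

end Pool.Agent.Helper340.MB
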