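import Mathlib
import Pool.Agent.Helper340.MB.Numer

set_option autoImplicit false
set_option linter.unusedVariables false
set_option linter.unusedSectionVars false
set_option linter.unusedSimpArgs false

namespace Pool.Agent.Helper340.MB

open Finset Filter

/-- all edges of the complete graph on `Fin N` -/
def edges (N : ℕ) : Finset (Sym2 (Fin N)) := univ.filter (fun z => ¬ z.IsDiag)

/-- `M` contains all edges of a clique on `q` vertices -/
def HasClique {N : ℕ} (q : ℕ) (M : Finset (Sym2 (Fin N))) : Prop :=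
  ∃ S : Finset (Fin N), S.card = q ∧ ∀ u ∈ S, ∀ v ∈ S, u ≠ v → s(u, v) ∈ M

lemma card_edges_le (N : ℕ) : ((edges N).card : ℝ) ≤ (N : ℝ) ^ 2 := by
  have h1 : (edges N).card ≤ N ^ 2 := by
    have h2 : edges N ⊆ (univ : Finset (Fin N × Fin N)).image (fun p => s(p.1, p.2)) := by
      intro z _
      induction z using Sym2.ind with
      | _ x y => exact mem_image.mpr ⟨(x, y), mem_univ _, rfl⟩
    refine (card_le_card h2).trans (card_image_le.trans ?_)
    rw [card_univ, Fintype.card_prod, Fintype.card_fin, sq]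
  exact_mod_cast h1

lemma Forces.mono {E : Type*} [DecidableEq E] {m b : ℕ} {Bd : Finset E}
    {goal goal' : Finset E → Prop} (h : ∀ M, goal M → goal' M) {M B : Finset E}
    (hf : Forces m b Bd goal M B) : Forces m b Bd goal' M B := by
  induction hf with
  | done h0 hg => exact Forces.done h0 (h _ hg)
  | move hne Q hQ hc _ ih => exact Forces.move hne Q hQ hc ih

lemma HasClique.mono {N q q' : ℕ} (h : q' ≤ q) {M : Finset (Sym2 (Fin N))}
    (hM : HasClique q M) : HasClique q' M := by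
  obtain ⟨S, hS, hc⟩ := hM
  obtain ⟨S', hS', hc'⟩ := exists_subset_card_eq (s := S) (n := q') (by omega)
  exact ⟨S', hc', fun u hu v hv huv => hc u (hS' hu) v (hS' hv) huv⟩

lemma es_sub_edges {N q n : ℕ} [NeZero n] {e : Fin q × Fin n → Fin N}
    (he : Function.Injective e) (φ : Fin q → Fin n) : es e univ φ ⊆ edges N := by
  intro z hz
  obtain ⟨p, hp, rfl⟩ := mem_es.mp hz
  unfold edges
  rw [mem_filter]
  refine ⟨mem_univ _, ?_⟩
  unfold TwoEdges.ed
  rw [Sym2.mk_isDiag_iff]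
  intro h
  have h1 := he h
  rw [Prod.mk.injEq] at h1
  have := (mem_prs.mp hp).2.2
  rw [h1.1] at this
  exact lt_irrefl _ this

lemma clique_of_es {N q n : ℕ} [NeZero n] {e : Fin q × Fin n → Fin N}
    (he : Function.Injective e) (φ : Fin q → Fin n) (M : Finset (Sym2 (Fin N)))
    (h : es e univ φ ⊆ M) : HasClique q M := by
  refine ⟨univ.image (fun i => e (i, φ i)), ?_, ?_⟩
  · rw [card_image_of_injective, card_univ, Fintype.card_fin]
    intro i j hij
    have := he hij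
    rw [Prod.mk.injEq] at this
    exact this.1
  · intro u hu v hv huv
    simp only [mem_image, mem_univ, true_and] at hu hv
    obtain ⟨i, rfl⟩ := hu
    obtain ⟨j, rfl⟩ := hv
    have hij : i ≠ j := by
      rintro rfl
      exact huv rfl
    rcases lt_or_gt_of_ne hij with h1 | h1
    · exact h (mem_es.mpr ⟨(i, j), mem_prs.mpr ⟨mem_univ _, mem_univ _, h1⟩, rfl⟩)
    · rw [Sym2.eq_swap]
      exact h (mem_es.mpr ⟨(j, i), mem_prs.mpr ⟨mem_univ _, mem_univ _, h1⟩, rfl⟩)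

/-- the parameter-dependent constants -/
lemma param_const (m b : ℕ) (hm : 1 ≤ m) (hb : 1 ≤ b) :
    ∃ CA C3 : ℝ, 1 ≤ CA ∧ 1 ≤ C3 ∧ ∀ (q n : ℕ) (_ : NeZero n) (V : Type) (_ : DecidableEq V)
      (D : Dat q n V), D.m = m → D.b = b →
      4 * ((D.sys.C1 + D.sys.C2) * D.sys.NN ^ 2) = CA ∧ D.sys.C3 = C3 := by
  classical
  let D0 : Dat 1 1 (Fin 1 × Fin 1) :=
    { e := id, he := Function.injective_id, m := m, b := b, hm := hm, hb := hb
      η := 1 / (8 * b)
      η_pos := by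
        have : (0 : ℝ) < b := by exact_mod_cast hb
        positivity
      η_le := by
        have : (0 : ℝ) < b := by exact_mod_cast hb
        rw [one_div_mul_cancel (by positivity)]
      l := fun _ => 0, hl := fun _ => le_refl _ }
  refine ⟨4 * ((D0.sys.C1 + D0.sys.C2) * D0.sys.NN ^ 2), D0.sys.C3, ?_, D0.sys.C3_ge, ?_⟩
  · have h1 : 1 ≤ D0.sys.C1 := by unfold Sys.C1; have := D0.sys.bpos; linarith
    have h2 := D0.sys.C2_nonneg
    have h3 : 1 ≤ D0.sys.NN := by
      unfold Sys.NN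
      have := D0.sys.one_le_m; have := D0.sys.bpos; linarith
    have h4 : 1 ≤ D0.sys.NN ^ 2 := one_le_pow₀ h3
    nlinarith
  · intro q n _ V _ D hDm hDb
    have e1 : D.sys.m = D0.sys.m := hDm
    have e2 : D.sys.b = D0.sys.b := hDb
    unfold Sys.C1 Sys.C2 Sys.C3 Sys.C0 Sys.NN Sys.c
    rw [e1, e2]
    exact ⟨rfl, rfl⟩

/-- Maker wins on `K_N` as soon as the numerical hypotheses hold. -/
lemma wins_of_numer {m b : ℕ} (hm : 1 ≤ m) (hb : 1 ≤ b) {CA C3 η R δ M : ℝ} {q n N : ℕ}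
    (hconst : ∀ (q n : ℕ) (_ : NeZero n) (V : Type) (_ : DecidableEq V)
      (D : Dat q n V), D.m = m → D.b = b →
      4 * ((D.sys.C1 + D.sys.C2) * D.sys.NN ^ 2) = CA ∧ D.sys.C3 = C3)
    (hCA : 1 ≤ CA) (hη0 : 0 < η) (hη1 : η * (8 * b) ≤ 1) (hR : 1 ≤ R)
    (hR1 : C3 * (3 * (1 / R)) ≤ η / 4) (hR2 : C3 * (3 * (1 / R)) ≤ (cc m b - 1) * (η / 4))
    (hδ0 : 0 < δ) (hδ : 4 * R * δ * cc m b ^ 4 ≤ 1) (hM : M ^ 10 = (N : ℝ)) (hM1 : 2 ≤ M)
    (hMA : CA ≤ M) (hMe : Real.exp (3 * (η * q)) ≤ M ^ 3)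
    (he : (N : ℝ) ^ 3 ≤ cc m b ^ (2 * q)) (hd : (Real.sqrt (cc m b)) ^ (q - 1) ≤ δ * n)
    (hcM : 2 * R * cc m b ^ 15 * (q : ℝ) ^ 2 ≤ M)
    (hf : (N : ℝ) ≤ 2 * q * n) (hqn : q * n ≤ N) (hn : 1 ≤ n) (hq : 7 ≤ q) :
    Forces m b (edges N) (HasClique q) ∅ ∅ := by
  have : NeZero n := ⟨by omega⟩
  have hcard : Fintype.card (Fin q × Fin n) ≤ Fintype.card (Fin N) := by
    rw [Fintype.card_prod, Fintype.card_fin, Fintype.card_fin, Fintype.card_fin]
    exact hqn
  obtain ⟨e⟩ := Function.Embedding.nonempty_of_card_le hcard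
  have hmp : (0 : ℝ) < m := by exact_mod_cast hm
  have hbp : (0 : ℝ) < b := by exact_mod_cast hb
  have hc : 1 < cc m b := by
    unfold cc
    have := div_pos hbp hmp
    linarith
  have hT := Tr_pos (q := q) (n := n) hc
  set B := CA * (N : ℝ) ^ 2 * Real.exp (3 * (η * q)) with hB
  have hM0 : 0 < M := by linarith
  have hN0 : (0 : ℝ) < N := by rw [← hM]; positivity
  have hB0 : 0 < B := by positivity
  have hBM : B ≤ M ^ 24 := by
    calc B = CA * (M ^ 10) ^ 2 * Real.exp (3 * (η * q)) := by rw [hB, hM]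
      _ ≤ M * (M ^ 10) ^ 2 * M ^ 3 := by
        apply mul_le_mul _ hMe (Real.exp_pos _).le (by positivity)
        exact mul_le_mul_of_nonneg_right hMA (by positivity)
      _ = M ^ 24 := by ring
  have hnN : n ≤ N := by nlinarith
  have hs1 : 1 < Real.sqrt (cc m b) := by
    rw [show (1 : ℝ) = Real.sqrt 1 by simp]
    exact Real.sqrt_lt_sqrt (by norm_num) hc
  have hs2 : Real.sqrt (cc m b) ^ 2 = cc m b := Real.sq_sqrt (by linarith)
  obtain ⟨h3, h5⟩ := numer_main hc hs1 hs2 hR hδ0 hδ hM hM1 he hd hB0.le hBM hcM hf hnN hn hq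
  set l3 := B / Tr q n (cc m b) with hl3
  have hl30 : 0 < l3 := by positivity
  let D : Dat q n (Fin N) :=
    { e := e, he := e.injective, m := m, b := b, hm := hm, hb := hb
      η := η, η_pos := hη0, η_le := hη1
      l := fun i => l3 * R ^ (i - 3), hl := fun i => by positivity }
  obtain ⟨k1, k2⟩ := hconst q n _ (Fin N) _ D rfl rfl
  refine start_forces D (edges N) (HasClique q) (es_sub_edges e.injective)
    (clique_of_es e.injective) l3 R rfl hl30 hR (by omega) ?_ ?_ ?_ ?_ ?_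
  · rw [k2]; exact hR1
  · rw [k2]; exact hR2
  · rw [hl3, div_mul_eq_mul_div, div_le_one hT]
    exact h3
  · have h6 : l3 * Tr q n D.sys.c = B := by
      show B / Tr q n (cc m b) * Tr q n (cc m b) = B
      rw [div_mul_cancel₀ _ hT.ne']
    rw [h6]
    have h7 : 4 * (((edges N).card : ℝ) * ((D.sys.C1 + D.sys.C2) * (D.sys.NN ^ 2
      * Real.exp (3 * (D.η * q))))) = CA * ((edges N).card : ℝ) * Real.exp (3 * (η * q)) := by
      rw [← k1]
      show 4 * (((edges N).card : ℝ) * ((D.sys.C1 + D.sys.C2) * (D.sys.NN ^ 2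
      * Real.exp (3 * (η * q))))) = _
      ring
    rw [h7, hB]
    apply mul_le_mul_of_nonneg_right _ (Real.exp_pos _).le
    exact mul_le_mul_of_nonneg_left (card_edges_le N) (by linarith)
  · show Tr q n (cc m b) * (l3 * ∑ i ∈ Ico 3 q, (q.choose i : ℝ)
      * R ^ (i - 3) * (cc m b ^ (i.choose 2) / (n : ℝ) ^ i)) ≤ 1 / 2
    rw [← mul_assoc, hl3, mul_div_cancel₀ _ hT.ne']
    exact h5

end Pool.Agent.Helper340.MB
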