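import Mathlib
import Pool.Agent.Helper340.MB.Final

set_option autoImplicit false
set_option linter.unusedVariables false
set_option linter.unusedSectionVars false
set_option linter.unusedSimpArgs false

namespace Pool.Agent.Helper340.MB

open Finset Filter

lemma eventually_facts (lc CA K C : ℝ) (hlc : 0 < lc) :
    ∀ᶠ y : ℝ in atTop, 5 ≤ y / lc ∧ CA ≤ Real.exp (y / 10) ∧ 2 ≤ Real.exp (y / 10) ∧
      K * (2 * (y / lc)) ^ 2 ≤ Real.exp (y / 10) ∧
      2 * (Real.log (y / lc) / lc) + C + 1 ≤ 1 / 2 * (y / lc) := by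
  have h1 : Tendsto (fun y : ℝ => y / lc) atTop atTop := tendsto_id.atTop_div_const hlc
  have h2 : Tendsto (fun y : ℝ => Real.exp (y / 10)) atTop atTop :=
    Real.tendsto_exp_atTop.comp (tendsto_id.atTop_div_const (by norm_num))
  have e1 : ∀ᶠ y : ℝ in atTop, 5 ≤ y / lc := h1.eventually_ge_atTop 5
  have e2 : ∀ᶠ y : ℝ in atTop, CA ≤ Real.exp (y / 10) := h2.eventually_ge_atTop CA
  have e3 : ∀ᶠ y : ℝ in atTop, 2 ≤ Real.exp (y / 10) := h2.eventually_ge_atTop 2
  have e4 : ∀ᶠ y : ℝ in atTop, K * (2 * (y / lc)) ^ 2 ≤ Real.exp (y / 10) := by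
    have h3 := isLittleO_pow_exp_pos_mul_atTop (k := 2) (show (0 : ℝ) < 1 / 10 by norm_num)
    set K' := |K| * (4 / lc ^ 2) + 1 with hK'
    have hK'0 : 0 < K' := by positivity
    have h4 := h3.def (show 0 < 1 / K' by positivity)
    filter_upwards [h4, eventually_ge_atTop (0 : ℝ)] with y hy hy0
    rw [Real.norm_of_nonneg (by positivity), Real.norm_of_nonneg (Real.exp_pos _).le] at hy
    have h5 : y ^ 2 * K' ≤ Real.exp (1 / 10 * y) := by
      have := mul_le_mul_of_nonneg_right hy hK'0.le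
      have e : 1 / K' * Real.exp (1 / 10 * y) * K' = Real.exp (1 / 10 * y) := by field_simp
      rwa [e] at this
    have h6 : K * (2 * (y / lc)) ^ 2 ≤ y ^ 2 * K' := by
      have e : K * (2 * (y / lc)) ^ 2 = y ^ 2 * (K * (4 / lc ^ 2)) := by
        field_simp; ring
      rw [e]
      apply mul_le_mul_of_nonneg_left _ (by positivity)
      have h7 : K * (4 / lc ^ 2) ≤ |K| * (4 / lc ^ 2) :=
        mul_le_mul_of_nonneg_right (le_abs_self K) (by positivity)
      linarith
    have h7 : Real.exp (1 / 10 * y) = Real.exp (y / 10) := by congr 1; ring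
    rw [h7] at h5
    linarith
  have e5 : ∀ᶠ y : ℝ in atTop, 2 * (Real.log (y / lc) / lc) + C + 1 ≤ 1 / 2 * (y / lc) := by
    have h3 : ∀ᶠ x : ℝ in atTop, 2 * (Real.log x / lc) + C + 1 ≤ 1 / 2 * x := by
      have h4 := Real.isLittleO_log_id_atTop.def (show 0 < lc / 8 by positivity)
      filter_upwards [h4, eventually_ge_atTop (4 * (|C| + 1)), eventually_ge_atTop (1 : ℝ)]
        with x hx hx1 hx2
      rw [Real.norm_of_nonneg (Real.log_nonneg hx2), id, Real.norm_of_nonneg (by linarith)] at hx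
      have h5 : Real.log x / lc ≤ x / 8 := by
        rw [div_le_iff₀ hlc]
        linarith
      have h6 := le_abs_self C
      linarith
    exact h1.eventually h3
  filter_upwards [e1, e2, e3, e4, e5] with y h1 h2 h3 h4 h5
  exact ⟨h1, h2, h3, h4, h5⟩

/-- **Maker's clique size in the `(m:b)` game, up to an additive constant.** -/
theorem clique_forces (m b : ℕ) (hm : 1 ≤ m) (hb : 1 ≤ b) :
    ∃ C : ℝ, ∃ N₀ : ℕ, ∀ N : ℕ, N₀ ≤ N →
      7 ≤ 2 * Real.logb (cc m b) N
        - 2 * Real.logb (cc m b) (Real.logb (cc m b) N) - C ∧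
      Forces m b (edges N) (HasClique ⌊2 * Real.logb (cc m b) N
        - 2 * Real.logb (cc m b) (Real.logb (cc m b) N) - C⌋₊) ∅ ∅ := by
  obtain ⟨CA, C3, hCA, hC3, hconst⟩ := param_const m b hm hb
  have hmp : (0 : ℝ) < m := by exact_mod_cast hm
  have hbp : (0 : ℝ) < b := by exact_mod_cast hb
  have hb1 : (1 : ℝ) ≤ b := by exact_mod_cast hb
  have hc : 1 < cc m b := by
    unfold cc
    have := div_pos hbp hmp
    linarith
  set c := cc m b with hcdef
  set lc := Real.log c with hlcdef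
  have hlc : 0 < lc := Real.log_pos hc
  set η := min (1 / (8 * (b : ℝ))) (lc / 20) with hη
  have hη0 : 0 < η := lt_min (by positivity) (by positivity)
  have hη1 : η * (8 * b) ≤ 1 := by
    have : η ≤ 1 / (8 * (b : ℝ)) := min_le_left _ _
    rw [le_div_iff₀ (by positivity)] at this
    exact this
  have hη2 : η ≤ lc / 20 := min_le_right _ _
  set μ := min 1 (c - 1) with hμ
  have hμ0 : 0 < μ := lt_min (by norm_num) (by linarith)
  have hμ1 : μ ≤ 1 := min_le_left _ _
  have hμ2 : μ ≤ c - 1 := min_le_right _ _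
  set R := 12 * C3 / (η * μ) with hR
  have hηs : η ≤ 1 := by nlinarith
  have hR1 : 1 ≤ R := by
    rw [hR, le_div_iff₀ (by positivity), one_mul]
    have : η * μ ≤ 1 * 1 := mul_le_mul hηs hμ1 hμ0.le (by norm_num)
    linarith
  have hR0 : 0 < R := by linarith
  have hRe : C3 * (3 * (1 / R)) = η * μ / 4 := by
    rw [hR]
    have : C3 ≠ 0 := by linarith
    field_simp
    norm_num
  have hRa : C3 * (3 * (1 / R)) ≤ η / 4 := by
    rw [hRe]
    have : η * μ ≤ η * 1 := mul_le_mul_of_nonneg_left hμ1 hη0.le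
    linarith
  have hRb : C3 * (3 * (1 / R)) ≤ (c - 1) * (η / 4) := by
    rw [hRe]
    have : η * μ ≤ η * (c - 1) := mul_le_mul_of_nonneg_left hμ2 hη0.le
    linarith
  set δ := 1 / (4 * R * c ^ 4) with hδ
  have hc0 : 0 < c := by linarith
  have hδ0 : 0 < δ := by positivity
  have hδe : 4 * R * δ * c ^ 4 ≤ 1 := by
    rw [hδ]
    apply le_of_eq
    field_simp
  have hδ1 : δ ≤ 1 := by
    rw [hδ, div_le_one (by positivity)]
    have : 1 ≤ c ^ 4 := one_le_pow₀ hc.le
    nlinarith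
  have hl4 : 0 ≤ Real.log (4 / δ) := by
    apply Real.log_nonneg
    rw [le_div_iff₀ hδ0]
    linarith
  set C := 2 * Real.log (4 / δ) / lc with hC
  have hC0 : 0 ≤ C := by positivity
  have hev := eventually_facts lc CA (2 * R * c ^ 15) C hlc
  have hev2 := (Real.tendsto_log_atTop.comp tendsto_natCast_atTop_atTop).eventually hev
  obtain ⟨N₀, hN₀⟩ := eventually_atTop.mp hev2
  refine ⟨C, max N₀ 1, ?_⟩
  intro N hN
  have hN1 : 1 ≤ N := (le_max_right _ _).trans hN
  have hNR : (0 : ℝ) < N := by exact_mod_cast hN1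
  obtain ⟨f1, f2, f3, f4, f5⟩ := hN₀ N ((le_max_left _ _).trans hN)
  simp only [Function.comp_apply] at f1 f2 f3 f4 f5
  set y := Real.log (N : ℝ) with hy
  have hNy : (N : ℝ) = Real.exp y := (Real.exp_log hNR).symm
  set x := y / lc with hx
  have hxy : x * lc = y := by rw [hx]; field_simp
  have hx0 : 0 < x := by linarith
  have hlogbN : Real.logb c N = x := rfl
  have hlogbx : Real.logb c x = Real.log x / lc := rfl
  rw [hlogbN, hlogbx]
  have hlx : 0 ≤ Real.log x / lc := by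
    have := Real.log_nonneg (show 1 ≤ x by linarith)
    positivity
  set bd := 2 * x - 2 * (Real.log x / lc) - C with hbd
  have hbd0 : 0 ≤ bd := by rw [hbd]; linarith
  set q0 := ⌊bd⌋₊ with hq0
  have hq0le : (q0 : ℝ) ≤ bd := Nat.floor_le hbd0
  have hq0gt : bd - 1 < (q0 : ℝ) := Nat.sub_one_lt_floor _
  have hq02 : (q0 : ℝ) ≤ 2 * x := by linarith
  have hq015 : 3 / 2 * x ≤ (q0 : ℝ) := by linarith
  have hq07 : 7 ≤ q0 := by
    have : (7 : ℝ) ≤ q0 := by linarith
    exact_mod_cast this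
  refine ⟨by linarith, ?_⟩
  set M := Real.exp (y / 10) with hM
  have hM10 : M ^ 10 = (N : ℝ) := by
    rw [hM, hNy, ← Real.exp_nat_mul]
    congr 1
    push_cast
    ring
  have h4x : 4 * x ≤ N := by
    have h1 : M ≤ M ^ 10 := le_self_pow₀ (by linarith) (by norm_num)
    rw [hM10] at h1
    refine le_trans ?_ (f4.trans h1)
    have h2 : 1 ≤ c ^ 15 := one_le_pow₀ hc.le
    have h3 : 2 ≤ 2 * R * c ^ 15 := by nlinarith
    have h4 : 4 * x ≤ (2 * x) ^ 2 := by nlinarith
    have h5 : 0 ≤ (2 * x) ^ 2 := sq_nonneg _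
    nlinarith
  have h2qN : 2 * q0 ≤ N := by
    have : 2 * (q0 : ℝ) ≤ N := by linarith
    exact_mod_cast this
  have hdm := Nat.div_add_mod N q0
  have hml := Nat.mod_lt N (show 0 < q0 by omega)
  have hn1 : 1 ≤ N / q0 := (Nat.one_le_div_iff (by omega)).mpr (by omega)
  have hfN : N ≤ 2 * (q0 * (N / q0)) := by omega
  have hf : (N : ℝ) ≤ 2 * q0 * ((N / q0 : ℕ) : ℝ) := by
    have : (N : ℝ) ≤ ((2 * (q0 * (N / q0)) : ℕ) : ℝ) := by exact_mod_cast hfN
    push_cast at this
    linarith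
  have hq00 : (0 : ℝ) < q0 := by
    have : (7 : ℝ) ≤ q0 := by exact_mod_cast hq07
    linarith
  have hs0 : 0 ≤ Real.sqrt c := Real.sqrt_nonneg _
  have hs1 : 1 ≤ Real.sqrt c := by
    rw [show (1 : ℝ) = Real.sqrt 1 by simp]
    exact Real.sqrt_le_sqrt hc.le
  have hcexp : c ^ q0 = Real.exp ((q0 : ℝ) * lc) := by
    rw [Real.exp_nat_mul, hlcdef, Real.exp_log hc0]
  have hd : (Real.sqrt c) ^ (q0 - 1) ≤ δ * ((N / q0 : ℕ) : ℝ) := by
    have h1 : (Real.sqrt c) ^ (q0 - 1) ≤ (Real.sqrt c) ^ q0 :=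
      pow_le_pow_right₀ hs1 (by omega)
    have h2 : (Real.sqrt c) ^ q0 ≤ δ * N / (4 * x) := by
      have h3 : ((Real.sqrt c) ^ q0) ^ 2 ≤ (δ * N / (4 * x)) ^ 2 := by
        rw [← pow_mul, mul_comm q0 2, pow_mul, Real.sq_sqrt hc0.le, hcexp]
        have h4 : (δ * N / (4 * x)) = Real.exp (y - Real.log x - Real.log (4 / δ)) := by
          rw [Real.exp_sub, Real.exp_sub, Real.exp_log hx0,
            Real.exp_log (show (0 : ℝ) < 4 / δ by positivity), ← hNy]
          field_simp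
        rw [h4, ← Real.exp_nat_mul]
        apply Real.exp_le_exp.mpr
        have h5 : (q0 : ℝ) * lc ≤ bd * lc := mul_le_mul_of_nonneg_right hq0le hlc.le
        have h6 : bd * lc = 2 * y - 2 * Real.log x - 2 * Real.log (4 / δ) := by
          rw [hbd, hC, ← hxy]; field_simp
        rw [h6] at h5
        push_cast
        linarith
      exact le_of_sq_le_sq h3 (by positivity)
    refine h1.trans (h2.trans ?_)
    rw [div_le_iff₀ (by positivity)]
    have h7 : (N : ℝ) ≤ 4 * x * ((N / q0 : ℕ) : ℝ) := by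
      refine hf.trans ?_
      apply mul_le_mul_of_nonneg_right _ (Nat.cast_nonneg _)
      linarith
    calc δ * N ≤ δ * (4 * x * ((N / q0 : ℕ) : ℝ)) := mul_le_mul_of_nonneg_left h7 hδ0.le
      _ = _ := by ring
  refine wins_of_numer hm hb hconst hCA hη0 hη1 hR1 hRa hRb hδ0 hδe hM10 f3 f2 ?_ ?_ hd ?_ hf
    (Nat.mul_div_le N q0) hn1 hq07
  · rw [hM, ← Real.exp_nat_mul]
    apply Real.exp_le_exp.mpr
    push_cast
    have h1 : η * q0 ≤ lc / 20 * (2 * x) :=
      mul_le_mul hη2 hq02 hq00.le (by positivity)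
    have h2 : lc / 20 * (2 * x) = y / 10 := by rw [← hxy]; ring
    rw [h2] at h1
    linarith
  · rw [← hcdef, mul_comm 2 q0, pow_mul, hcexp, hNy, ← Real.exp_nat_mul, ← Real.exp_nat_mul]
    apply Real.exp_le_exp.mpr
    push_cast
    have h1 : 3 / 2 * x * lc ≤ (q0 : ℝ) * lc := mul_le_mul_of_nonneg_right hq015 hlc.le
    have h2 : 3 / 2 * x * lc = 3 / 2 * y := by rw [← hxy]; ring
    rw [h2] at h1
    linarith
  · refine le_trans ?_ f4
    apply mul_le_mul_of_nonneg_left _ (by positivity)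
    exact pow_le_pow_left₀ hq00.le hq02 2

end Pool.Agent.Helper340.MB
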