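import Mathlib
import Pool.Agent.Helper340.MB.Final

set_option autoImplicit false
set_option linter.unusedVariables false
set_option linter.unusedSectionVars false
set_option linter.unusedSimpArgs false

namespace Pool.Agent.Helper340.MB

open Finset

section block
variable {E E' : Type*} [DecidableEq E] [DecidableEq E']

/-- Once the (monotone) goal is reached, Maker wins by playing arbitrarily. -/
lemma forces_of_goal {m b : ℕ} (hm : 1 ≤ m) {Bd : Finset E} {goal : Finset E → Prop}
    (hmono : ∀ M M' : Finset E, M ⊆ M' → goal M → goal M') :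
    ∀ (k : ℕ) (M B : Finset E), (Bd \ (M ∪ B)).card = k → goal M → Forces m b Bd goal M B := by
  intro k
  induction k using Nat.strong_induction_on with
  | _ k ih =>
    intro M B hk hg
    rcases (Bd \ (M ∪ B)).eq_empty_or_nonempty with he | hne
    · exact Forces.done he hg
    · obtain ⟨Q, hQ, hc⟩ := exists_subset_card_eq (s := Bd \ (M ∪ B))
        (n := min m (Bd \ (M ∪ B)).card) (min_le_right _ _)
      refine Forces.move hne Q hQ hc ?_
      intro R hR hRc
      refine ih _ ?_ _ _ rfl (hmono _ _ subset_union_left hg)
      rw [← hk]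
      apply card_lt_card
      have h2 : 0 < Q.card := by
        rw [hc]
        have := card_pos.mpr hne
        omega
      obtain ⟨z, hz⟩ := card_pos.mp h2
      refine ⟨?_, ?_⟩
      · intro t ht
        simp only [mem_sdiff, mem_union, not_or] at ht ⊢
        exact ⟨ht.1, ht.2.1.1, ht.2.2.1⟩
      · intro hcon
        have h4 := hcon (hQ hz)
        simp only [mem_sdiff, mem_union, not_or] at h4
        exact h4.2.1.2 hz

/-- **Block transfer.** A `(1:b)` win on a board of disjoint blocks of size at most `m` gives an
`(m:b)` win on the underlying board. -/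
theorem block_transfer {m b : ℕ} (hm : 1 ≤ m) (Bd : Finset E) (Bd' : Finset E')
    (blk : E' → Finset E) (hblk : ∀ z ∈ Bd', blk z ⊆ Bd) (hcard : ∀ z ∈ Bd', (blk z).card ≤ m)
    (hdisj : ∀ z ∈ Bd', ∀ z' ∈ Bd', z ≠ z' → Disjoint (blk z) (blk z'))
    (M0 : Finset E) {goal : Finset E → Prop} {goal' : Finset E' → Prop}
    (hmono : ∀ M M' : Finset E, M ⊆ M' → goal M → goal M')
    (hg : ∀ M' M, goal' M' → (∀ z ∈ M', blk z ⊆ M) → M0 ⊆ M → goal M)
    {M' B' : Finset E'} (hf : Forces 1 b Bd' goal' M' B') :
    ∀ M B : Finset E, (∀ z ∈ M', blk z ⊆ M) →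
      (∀ z ∈ Bd' \ (M' ∪ B'), Disjoint (blk z) B) → M0 ⊆ M → Forces m b Bd goal M B := by
  induction hf with
  | @done M' B' he hgoal =>
    intro M B h1 _ h3
    exact forces_of_goal hm hmono _ M B rfl (hg M' M hgoal h1 h3)
  | @move M' B' hne Q' hQ' hc' _ ih =>
    intro M B h1 h2 h3
    have hQ1 : Q'.card = 1 := by
      rw [hc']
      have := card_pos.mpr hne
      omega
    obtain ⟨z, rfl⟩ := card_eq_one.mp hQ1
    have hz : z ∈ Bd' \ (M' ∪ B') := hQ' (mem_singleton_self z)
    have hzBd : z ∈ Bd' := (mem_sdiff.mp hz).1
    have hsub : blk z \ M ⊆ Bd \ (M ∪ B) := by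
      intro e he
      rw [mem_sdiff] at he
      rw [mem_sdiff, mem_union, not_or]
      exact ⟨hblk z hzBd he.1, he.2, disjoint_left.mp (h2 z hz) he.1⟩
    rcases (Bd \ (M ∪ B)).eq_empty_or_nonempty with he | hne2
    · -- the real board is exhausted: the super game goes on virtually
      obtain ⟨R', hR', hRc'⟩ := exists_subset_card_eq (s := (Bd' \ (M' ∪ B')) \ {z})
        (n := min b ((Bd' \ (M' ∪ B')) \ {z}).card) (min_le_right _ _)
      refine ih R' hR' hRc' M B ?_ ?_ h3
      · intro z' hz'
        rcases mem_union.mp hz' with h | h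
        · exact h1 z' h
        · rw [mem_singleton] at h
          subst h
          rw [he] at hsub
          intro e hee
          by_contra hcon
          exact notMem_empty e (hsub (mem_sdiff.mpr ⟨hee, hcon⟩))
      · intro z' hz'
        apply h2
        rw [mem_sdiff, mem_union, mem_union, mem_union] at hz'
        rw [mem_sdiff, mem_union]
        exact ⟨hz'.1, fun h => hz'.2 (by tauto)⟩
    · have hcz : (blk z \ M).card ≤ min m (Bd \ (M ∪ B)).card :=
        le_min ((card_le_card sdiff_subset).trans (hcard z hzBd)) (card_le_card hsub)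
      obtain ⟨Q, hQ1, hQ2, hQc⟩ := exists_subsuperset_card_eq hsub hcz (min_le_right _ _)
      refine Forces.move hne2 Q hQ2 hQc ?_
      intro R hR hRc
      set T' := ((Bd' \ (M' ∪ B')) \ {z}).filter (fun z' => ¬ Disjoint (blk z') R) with hT'
      have hTc : T'.card ≤ b := by
        have hRb : R.card ≤ b := by rw [hRc]; exact min_le_left _ _
        refine le_trans ?_ hRb
        have hex : ∀ z' ∈ T', ∃ e, e ∈ blk z' ∧ e ∈ R := by
          intro z' hz'
          rw [hT', mem_filter, not_disjoint_iff] at hz'
          exact hz'.2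
        have : Nonempty E := ⟨hne2.choose⟩
        choose! g hg1 using hex
        apply card_le_card_of_injOn g
        · intro z' hz'
          exact (hg1 z' hz').2
        · intro z1 hz1 z2 hz2 heq
          by_contra hne3
          have hb1 : z1 ∈ Bd' := (mem_sdiff.mp (mem_sdiff.mp (mem_filter.mp hz1).1).1).1
          have hb2 : z2 ∈ Bd' := (mem_sdiff.mp (mem_sdiff.mp (mem_filter.mp hz2).1).1).1
          have hd := hdisj z1 hb1 z2 hb2 hne3
          have e1 := (hg1 z1 hz1).1
          have e2 := (hg1 z2 hz2).1
          rw [heq] at e1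
          exact disjoint_left.mp hd e1 e2
      have hTsub : T' ⊆ (Bd' \ (M' ∪ B')) \ {z} := filter_subset _ _
      obtain ⟨R', hR1, hR2, hRc'⟩ := exists_subsuperset_card_eq hTsub
        (le_min hTc (card_le_card hTsub)) (min_le_right _ _)
      refine ih R' hR2 hRc' (M ∪ Q) (B ∪ R) ?_ ?_ (h3.trans subset_union_left)
      · intro z' hz'
        rcases mem_union.mp hz' with h | h
        · exact (h1 z' h).trans subset_union_left
        · rw [mem_singleton] at h
          subst h
          intro e hee
          rw [mem_union]
          by_cases heM : e ∈ M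
          · left; exact heM
          · right; exact hQ1 (mem_sdiff.mpr ⟨hee, heM⟩)
      · intro z' hz'
        rw [mem_sdiff, mem_union, mem_union, mem_union] at hz'
        rw [disjoint_union_right]
        constructor
        · apply h2
          rw [mem_sdiff, mem_union]
          exact ⟨hz'.1, fun h => hz'.2 (by tauto)⟩
        · by_contra hcon
          apply hz'.2
          right; right
          apply hR1
          rw [hT', mem_filter]
          refine ⟨?_, hcon⟩
          rw [mem_sdiff, mem_sdiff, mem_union]
          refine ⟨⟨hz'.1, fun h => hz'.2 (by tauto)⟩, fun h => hz'.2 (by tauto)⟩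

end block

end Pool.Agent.Helper340.MB
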