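import Mathlib
import Pool.Agent.Helper340.MB.Block

set_option autoImplicit false
set_option linter.unusedVariables false
set_option linter.unusedSectionVars false
set_option linter.unusedSimpArgs false

namespace Pool.Agent.Helper340.MB

open Finset

section pre
variable {E ι : Type*} [DecidableEq E] [DecidableEq ι] [Fintype ι]

/-- number of blocks touched by a set -/
lemma touched_le {blk : ι → Finset E} (s : Finset ι)
    (hdisj : ∀ i ∈ s, ∀ j ∈ s, i ≠ j → Disjoint (blk i) (blk j)) (B : Finset E) :
    (s.filter (fun i => ¬ Disjoint (blk i) B)).card ≤ B.card := by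
  rcases B.eq_empty_or_nonempty with hB | hB
  · subst hB
    have : s.filter (fun i => ¬ Disjoint (blk i) (∅ : Finset E)) = ∅ := by
      rw [filter_eq_empty_iff]
      intro i _
      simp
    rw [this]
    simp
  · have hex : ∀ z' ∈ s.filter (fun i => ¬ Disjoint (blk i) B), ∃ e, e ∈ blk z' ∧ e ∈ B := by
      intro z' hz'
      rw [mem_filter, not_disjoint_iff] at hz'
      exact hz'.2
    have : Nonempty E := ⟨hB.choose⟩
    choose! g hg1 using hex
    apply card_le_card_of_injOn g
    · intro z' hz'
      exact (hg1 z' hz').2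
    · intro z1 hz1 z2 hz2 heq
      by_contra hne3
      have hb1 : z1 ∈ s := (mem_filter.mp hz1).1
      have hb2 : z2 ∈ s := (mem_filter.mp hz2).1
      have hd := hdisj z1 hb1 z2 hb2 hne3
      have e1 := (hg1 z1 hz1).1
      have e2 := (hg1 z2 hz2).1
      rw [heq] at e1
      exact disjoint_left.mp hd e1 e2

/-- **Pre-phase.** Maker first claims `t` of the blocks `I i`. -/
theorem prephase {m b : ℕ} (hm : 1 ≤ m) (Bd : Finset E) (I : ι → Finset E)
    (hI : ∀ i, I i ⊆ Bd) (hIc : ∀ i, (I i).card ≤ m)
    (hdisj : ∀ i j, i ≠ j → Disjoint (I i) (I j)) (t : ℕ)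
    (ht : (b + 1) * t ≤ Fintype.card ι) (hBd : (m + b) * t ≤ Bd.card)
    {goal : Finset E → Prop}
    (h : ∀ (W : Finset ι) (M B : Finset E), W.card = t → (∀ i ∈ W, I i ⊆ M) → B.card ≤ b * t →
      Disjoint M B → Forces m b Bd goal M B) : Forces m b Bd goal ∅ ∅ := by
  have key : ∀ (k : ℕ) (W : Finset ι) (M B : Finset E), k + W.card = t →
      (∀ i ∈ W, I i ⊆ M) → B.card ≤ b * W.card → M.card ≤ m * W.card → Disjoint M B →
      Forces m b Bd goal M B := by
    intro k
    induction k with
    | zero =>
      intro W M B hW h1 h2 _ h4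
      rw [zero_add] at hW
      rw [hW] at h2
      exact h W M B hW h1 h2 h4
    | succ k ih =>
      intro W M B hW h1 h2 h3 h4
      have hWt : W.card < t := by omega
      -- an untouched unchosen block
      have hex : ∃ i, i ∉ W ∧ Disjoint (I i) B := by
        by_contra hcon
        push Not at hcon
        have hu : (univ : Finset ι) ⊆ W ∪ univ.filter (fun i => ¬ Disjoint (I i) B) := by
          intro i _
          rw [mem_union, mem_filter]
          by_cases hi : i ∈ W
          · left; exact hi
          · right; exact ⟨mem_univ _, hcon i hi⟩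
        have h5 := (card_le_card hu).trans (card_union_le _ _)
        rw [card_univ] at h5
        have h6 := touched_le (blk := I) univ (fun i _ j _ hij => hdisj i j hij) B
        have h7 : (b + 1) * W.card < (b + 1) * t := Nat.mul_lt_mul_of_pos_left hWt (by omega)
        have h8 : (b + 1) * W.card = b * W.card + W.card := by ring
        omega
      obtain ⟨i, hi, hiB⟩ := hex
      have hsub : I i \ M ⊆ Bd \ (M ∪ B) := by
        intro e he
        rw [mem_sdiff] at he
        rw [mem_sdiff, mem_union, not_or]
        exact ⟨hI i he.1, he.2, disjoint_left.mp hiB he.1⟩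
      have hfree : 0 < (Bd \ (M ∪ B)).card := by
        have h5 := le_card_sdiff (M ∪ B) Bd
        have h6 := card_union_le M B
        have h7 : (m + b) * W.card < (m + b) * t := Nat.mul_lt_mul_of_pos_left hWt (by omega)
        have h8 : (m + b) * W.card = m * W.card + b * W.card := by ring
        omega
      have hcz : (I i \ M).card ≤ min m (Bd \ (M ∪ B)).card :=
        le_min ((card_le_card sdiff_subset).trans (hIc i)) (card_le_card hsub)
      obtain ⟨Q, hQ1, hQ2, hQc⟩ := exists_subsuperset_card_eq hsub hcz (min_le_right _ _)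
      refine Forces.move (card_pos.mp hfree) Q hQ2 hQc ?_
      intro R hR hRc
      have hRb : R.card ≤ b := by rw [hRc]; exact min_le_left _ _
      have hQm : Q.card ≤ m := by rw [hQc]; exact min_le_left _ _
      have hWi : (insert i W).card = W.card + 1 := card_insert_of_notMem hi
      refine ih (insert i W) (M ∪ Q) (B ∪ R) (by rw [hWi]; omega) ?_ ?_ ?_ ?_
      · intro j hj
        rw [mem_insert] at hj
        rcases hj with rfl | hj
        · intro e he
          rw [mem_union]
          by_cases heM : e ∈ M
          · left; exact heM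
          · right; exact hQ1 (mem_sdiff.mpr ⟨he, heM⟩)
        · exact (h1 j hj).trans subset_union_left
      · rw [hWi]
        have := card_union_le B R
        have h8 : b * (W.card + 1) = b * W.card + b := by ring
        omega
      · rw [hWi]
        have := card_union_le M Q
        have h8 : m * (W.card + 1) = m * W.card + m := by ring
        omega
      · rw [disjoint_union_left, disjoint_union_right, disjoint_union_right]
        have hRf : R ⊆ Bd \ (M ∪ B) := hR.trans sdiff_subset
        refine ⟨⟨h4, ?_⟩, ?_, ?_⟩
        · rw [disjoint_right]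
          intro e he
          have := hRf he
          rw [mem_sdiff, mem_union, not_or] at this
          exact this.2.1
        · rw [disjoint_left]
          intro e he
          have := hQ2 he
          rw [mem_sdiff, mem_union, not_or] at this
          exact this.2.2
        · rw [disjoint_right]
          intro e he
          exact (mem_sdiff.mp (hR he)).2
  exact key t ∅ ∅ ∅ (by simp) (by simp) (by simp) (by simp) (disjoint_empty_left _)

/-- A sparse graph has a linear independent set. -/
lemma exists_indep (W : Finset ι) (r : ι → ι → Prop) [DecidableRel r]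
    (hsymm : ∀ i j, r i j → r j i) (b : ℕ)
    (hr : ((W ×ˢ W).filter (fun p => p.1 ≠ p.2 ∧ r p.1 p.2)).card ≤ 2 * (b * W.card)) :
    ∃ W2 ⊆ W, (∀ i ∈ W2, ∀ j ∈ W2, i ≠ j → ¬ r i j) ∧ W.card ≤ 2 * (4 * b + 1) * W2.card := by
  classical
  set deg : ι → ℕ := fun i => (W.filter (fun j => i ≠ j ∧ r i j)).card with hdeg
  have hsum : ∑ i ∈ W, deg i ≤ 2 * (b * W.card) := by
    refine le_trans (le_of_eq ?_) hr
    rw [card_filter, sum_product]
    apply sum_congr rfl
    intro i _
    rw [hdeg]
    simp only
    rw [card_filter]
  set L := W.filter (fun i => deg i ≤ 4 * b) with hL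
  have hLc : W.card ≤ 2 * L.card := by
    have h1 : (W.filter (fun i => ¬ deg i ≤ 4 * b)).card * (4 * b + 1) ≤ 2 * (b * W.card) := by
      refine le_trans ?_ hsum
      have h2 : ∑ i ∈ W.filter (fun i => ¬ deg i ≤ 4 * b), (4 * b + 1)
          ≤ ∑ i ∈ W.filter (fun i => ¬ deg i ≤ 4 * b), deg i := by
        apply sum_le_sum
        intro i hi
        rw [mem_filter] at hi
        omega
      rw [sum_const, smul_eq_mul] at h2
      refine h2.trans ?_
      exact sum_le_sum_of_subset (filter_subset _ _)
    have h3 := card_filter_add_card_filter_not (s := W) (fun i => deg i ≤ 4 * b)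
    by_contra hcon
    push Not at hcon
    have h4 : W.card < 2 * (W.filter (fun i => ¬ deg i ≤ 4 * b)).card := by
      rw [hL] at hcon
      omega
    have h5 : (W.filter (fun i => ¬ deg i ≤ 4 * b)).card * (4 * b + 1)
        = 2 * b * (2 * (W.filter (fun i => ¬ deg i ≤ 4 * b)).card)
          + (W.filter (fun i => ¬ deg i ≤ 4 * b)).card := by ring
    have h6 : 2 * b * W.card ≤ 2 * b * (2 * (W.filter (fun i => ¬ deg i ≤ 4 * b)).card) :=
      Nat.mul_le_mul_left _ h4.le
    have h7 : 2 * b * W.card = 2 * (b * W.card) := by ring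
    have h8 : 0 < (W.filter (fun i => ¬ deg i ≤ 4 * b)).card := by omega
    omega
  obtain ⟨J, hJ, hmax⟩ := exists_max_image
    (L.powerset.filter (fun J => ∀ i ∈ J, ∀ j ∈ J, i ≠ j → ¬ r i j)) card
    ⟨∅, by rw [mem_filter, mem_powerset]; exact ⟨empty_subset _, by simp⟩⟩
  rw [mem_filter, mem_powerset] at hJ
  refine ⟨J, hJ.1.trans (filter_subset _ _), hJ.2, ?_⟩
  have hcov : L ⊆ J.biUnion (fun j => insert j (W.filter (fun i => j ≠ i ∧ r j i))) := by
    intro i hi
    rw [mem_biUnion]
    by_contra hcon
    push Not at hcon
    have hiJ : i ∉ J := fun h => hcon i h (mem_insert_self _ _)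
    have hiW : i ∈ W := (mem_filter.mp hi).1
    have hno : ∀ j ∈ J, ¬ r j i := by
      intro j hj hr'
      apply hcon j hj
      rw [mem_insert, mem_filter]
      right
      refine ⟨hiW, ?_, hr'⟩
      rintro rfl
      exact hiJ hj
    have h1 : insert i J ∈ L.powerset.filter (fun J => ∀ i ∈ J, ∀ j ∈ J, i ≠ j → ¬ r i j) := by
      rw [mem_filter, mem_powerset]
      refine ⟨insert_subset hi hJ.1, ?_⟩
      intro a ha c hc hac hr'
      rw [mem_insert] at ha hc
      rcases ha with rfl | ha
      · rcases hc with rfl | hc
        · exact hac rfl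
        · exact hno c hc (hsymm _ _ hr')
      · rcases hc with rfl | hc
        · exact hno a ha hr'
        · exact hJ.2 a ha c hc hac hr'
    have h2 := hmax _ h1
    rw [card_insert_of_notMem hiJ] at h2
    omega
  have h1 : L.card ≤ J.card * (4 * b + 1) := by
    refine (card_le_card hcov).trans (card_biUnion_le_card_mul _ _ _ ?_)
    intro j hj
    have hjL := (mem_filter.mp (hJ.1 hj)).2
    refine (card_insert_le _ _).trans ?_
    simp only [hdeg] at hjL
    omega
  calc W.card ≤ 2 * L.card := hLc
    _ ≤ 2 * (J.card * (4 * b + 1)) := Nat.mul_le_mul_left _ h1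
    _ = _ := by ring

end pre

end Pool.Agent.Helper340.MB
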