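import Mathlib
import Pool.Agent.Helper340.MB.Pre

set_option autoImplicit false
set_option linter.unusedVariables false
set_option linter.unusedSectionVars false
set_option linter.unusedSimpArgs false

namespace Pool.Agent.Helper340.MB

open Finset

section blow
variable {N n K : ℕ} (τ : Fin n × Fin K → Fin N)

/-- the block of all edges between the groups `i` and `j` -/
def PB (i j : Fin n) : Finset (Sym2 (Fin N)) :=
  (univ : Finset (Fin K × Fin K)).image (fun p => s(τ (i, p.1), τ (j, p.2)))

/-- the block of all edges inside the group `i` -/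
def IB (i : Fin n) : Finset (Sym2 (Fin N)) :=
  ((univ : Finset (Fin K × Fin K)).filter (fun p => p.1 ≠ p.2)).image
    (fun p => s(τ (i, p.1), τ (i, p.2)))

lemma mem_PB {i j : Fin n} {e : Sym2 (Fin N)} :
    e ∈ PB τ i j ↔ ∃ a b : Fin K, s(τ (i, a), τ (j, b)) = e := by
  unfold PB
  simp

lemma mem_IB {i : Fin n} {e : Sym2 (Fin N)} :
    e ∈ IB τ i ↔ ∃ a b : Fin K, a ≠ b ∧ s(τ (i, a), τ (i, b)) = e := by
  unfold IB
  simp

lemma PB_comm (i j : Fin n) : PB τ i j = PB τ j i := by
  ext e
  rw [mem_PB, mem_PB]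
  constructor
  · rintro ⟨a, b, rfl⟩
    exact ⟨b, a, Sym2.eq_swap⟩
  · rintro ⟨a, b, rfl⟩
    exact ⟨b, a, Sym2.eq_swap⟩

lemma card_PB_le (i j : Fin n) : (PB τ i j).card ≤ K * K := by
  unfold PB
  refine card_image_le.trans ?_
  rw [card_univ, Fintype.card_prod, Fintype.card_fin]

lemma card_IB_le (i : Fin n) : (IB τ i).card ≤ K * K := by
  unfold IB
  refine card_image_le.trans ((card_le_card (filter_subset _ _)).trans ?_)
  rw [card_univ, Fintype.card_prod, Fintype.card_fin]

variable {τ} (hτ : Function.Injective τ)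
include hτ

lemma IB_sub_edges (i : Fin n) : IB τ i ⊆ edges N := by
  intro e he
  obtain ⟨a, b, hab, rfl⟩ := (mem_IB τ).mp he
  unfold edges
  rw [mem_filter]
  refine ⟨mem_univ _, ?_⟩
  rw [Sym2.mk_isDiag_iff]
  intro h
  have := hτ h
  rw [Prod.mk.injEq] at this
  exact hab this.2

lemma PB_sub_edges {i j : Fin n} (hij : i ≠ j) : PB τ i j ⊆ edges N := by
  intro e he
  obtain ⟨a, b, rfl⟩ := (mem_PB τ).mp he
  unfold edges
  rw [mem_filter]
  refine ⟨mem_univ _, ?_⟩
  rw [Sym2.mk_isDiag_iff]
  intro h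
  have := hτ h
  rw [Prod.mk.injEq] at this
  exact hij this.1

lemma PB_eq_of_not_disjoint {i j i' j' : Fin n}
    (h : ¬ Disjoint (PB τ i j) (PB τ i' j')) : s(i, j) = s(i', j') := by
  rw [not_disjoint_iff] at h
  obtain ⟨e, h1, h2⟩ := h
  obtain ⟨a, b, rfl⟩ := (mem_PB τ).mp h1
  obtain ⟨a', b', h3⟩ := (mem_PB τ).mp h2
  rw [Sym2.eq_iff] at h3
  rw [Sym2.eq_iff]
  rcases h3 with ⟨h4, h5⟩ | ⟨h4, h5⟩
  · have h6 := hτ h4
    have h7 := hτ h5
    rw [Prod.mk.injEq] at h6 h7
    left
    exact ⟨h6.1.symm, h7.1.symm⟩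
  · have h6 := hτ h4
    have h7 := hτ h5
    rw [Prod.mk.injEq] at h6 h7
    right
    exact ⟨h7.1.symm, h6.1.symm⟩

lemma IB_disjoint {i j : Fin n} (hij : i ≠ j) : Disjoint (IB τ i) (IB τ j) := by
  by_contra hcon
  rw [not_disjoint_iff] at hcon
  obtain ⟨e, h1, h2⟩ := hcon
  obtain ⟨a, b, _, rfl⟩ := (mem_IB τ).mp h1
  obtain ⟨a', b', _, h3⟩ := (mem_IB τ).mp h2
  rw [Sym2.eq_iff] at h3
  rcases h3 with ⟨h4, _⟩ | ⟨h4, _⟩
  · have h6 := hτ h4
    rw [Prod.mk.injEq] at h6
    exact hij h6.1.symm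
  · have h6 := hτ h4
    rw [Prod.mk.injEq] at h6
    exact hij h6.1.symm

/-- the number of ordered pairs of groups whose block is touched by `B` -/
lemma touched_pairs (W : Finset (Fin n)) (B : Finset (Sym2 (Fin N))) :
    ((W ×ˢ W).filter (fun p => p.1 ≠ p.2 ∧ ¬ Disjoint (PB τ p.1 p.2) B)).card ≤ 2 * B.card := by
  classical
  set P : Finset (Fin N × Fin N) := univ.filter (fun p => s(p.1, p.2) ∈ B) with hP
  have hPc : P.card ≤ 2 * B.card := by
    have h1 : ∀ z ∈ B, (P.filter (fun p => s(p.1, p.2) = z)).card ≤ 2 := by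
      intro z _
      induction z using Sym2.ind with
      | _ x y =>
        have h2 : P.filter (fun p => s(p.1, p.2) = s(x, y)) ⊆ {(x, y), (y, x)} := by
          intro p hp
          rw [mem_filter, Sym2.eq_iff] at hp
          rw [mem_insert, mem_singleton]
          rcases hp.2 with h | h
          · left; exact Prod.ext h.1 h.2
          · right; exact Prod.ext h.1 h.2
        exact (card_le_card h2).trans card_le_two
    exact card_le_mul_card_image_of_maps_to (f := fun p : Fin N × Fin N => s(p.1, p.2))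
      (fun p hp => (mem_filter.mp hp).2) 2 h1
  refine le_trans ?_ hPc
  have hex : ∀ p ∈ (W ×ˢ W).filter (fun p => p.1 ≠ p.2 ∧ ¬ Disjoint (PB τ p.1 p.2) B),
      ∃ ab : Fin K × Fin K, s(τ (p.1, ab.1), τ (p.2, ab.2)) ∈ B := by
    intro p hp
    rw [mem_filter, not_disjoint_iff] at hp
    obtain ⟨e, h1, h2⟩ := hp.2.2
    obtain ⟨a, b, rfl⟩ := (mem_PB τ).mp h1
    exact ⟨(a, b), h2⟩
  rcases ((W ×ˢ W).filter (fun p => p.1 ≠ p.2 ∧ ¬ Disjoint (PB τ p.1 p.2) B)).eq_empty_or_nonempty
    with he | hne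
  · rw [he]; simp
  · have : Nonempty (Fin K × Fin K) := by
      obtain ⟨p, hp⟩ := hne
      exact ⟨(hex p hp).choose⟩
    choose! g hg using hex
    apply card_le_card_of_injOn (fun p => (τ (p.1, (g p).1), τ (p.2, (g p).2)))
    · intro p hp
      rw [hP, mem_coe, mem_filter]
      exact ⟨mem_univ _, hg p hp⟩
    · intro p _ p' _ h
      simp only [Prod.mk.injEq] at h
      have h1 := hτ h.1
      have h2 := hτ h.2
      rw [Prod.mk.injEq] at h1 h2
      exact Prod.ext h1.1 h2.1

/-- **Blow-up.** If `K² ≤ m` and Maker can force `K_r` in the `(1:b)` game on `K_{n₃}`, then he can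
force `K_{Kr}` in the `(m:b)` game on `K_N`. -/
theorem blowup_forces_aux {m b t n3 r : ℕ} (hm : 1 ≤ m) (hK : K * K ≤ m)
    (ht : (b + 1) * t ≤ n) (hBd : (m + b) * t ≤ (edges N).card)
    (hn3 : 2 * (4 * b + 1) * n3 ≤ t)
    (hf : Forces 1 b (edges n3) (HasClique r) ∅ ∅) :
    Forces m b (edges N) (HasClique (K * r)) ∅ ∅ := by
  classical
  refine prephase (ι := Fin n) hm (edges N) (IB τ) (IB_sub_edges hτ)
    (fun i => (card_IB_le τ i).trans hK) (fun i j hij => IB_disjoint hτ hij) t
    (by rw [Fintype.card_fin]; exact ht) hBd ?_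
  intro W M B hW hM hB hMB
  obtain ⟨W2, hW2, hind, hc2⟩ := exists_indep W (fun i j => ¬ Disjoint (PB τ i j) B)
    (fun i j h => by rwa [PB_comm]) b
    ((touched_pairs hτ W B).trans (by rw [hW]; omega))
  have hn3' : n3 ≤ W2.card := by
    rw [hW] at hc2
    have h1 : 2 * (4 * b + 1) * n3 ≤ 2 * (4 * b + 1) * W2.card := hn3.trans hc2
    exact Nat.le_of_mul_le_mul_left h1 (by positivity)
  -- an injection into `W2`
  obtain ⟨f⟩ : Nonempty (Fin n3 ↪ W2) := by
    apply Function.Embedding.nonempty_of_card_le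
    rw [Fintype.card_fin, Fintype.card_coe]
    exact hn3'
  set g : Fin n3 → Fin n := fun i => (f i : Fin n) with hg
  have hginj : Function.Injective g := by
    intro i j hij
    exact f.injective (Subtype.ext hij)
  have hgW : ∀ i, g i ∈ W2 := fun i => (f i).2
  set blk : Sym2 (Fin n3) → Finset (Sym2 (Fin N)) :=
    Sym2.lift ⟨fun i j => PB τ (g i) (g j), fun i j => PB_comm τ _ _⟩ with hblk
  have hblk' : ∀ i j, blk s(i, j) = PB τ (g i) (g j) := fun i j => rfl
  refine block_transfer (E' := Sym2 (Fin n3)) hm (edges N) (edges n3) blk ?_ ?_ ?_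
    M ?_ ?_ hf M B (by simp) ?_ (subset_refl _)
  · intro z hz
    induction z using Sym2.ind with
    | _ i j =>
      unfold edges at hz
      rw [mem_filter, Sym2.mk_isDiag_iff] at hz
      rw [hblk']
      exact PB_sub_edges hτ (fun h => hz.2 (hginj h))
  · intro z hz
    induction z using Sym2.ind with
    | _ i j =>
      rw [hblk']
      exact (card_PB_le τ _ _).trans hK
  · intro z hz z' hz' hne
    induction z using Sym2.ind with
    | _ i j =>
      induction z' using Sym2.ind with
      | _ i' j' =>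
        rw [hblk', hblk']
        by_contra hcon
        have h1 := PB_eq_of_not_disjoint hτ hcon
        apply hne
        rw [Sym2.eq_iff] at h1 ⊢
        rcases h1 with h | h
        · left; exact ⟨hginj h.1, hginj h.2⟩
        · right; exact ⟨hginj h.1, hginj h.2⟩
  · intro M1 M2 h12 hcl
    obtain ⟨S, hS, hc⟩ := hcl
    exact ⟨S, hS, fun u hu v hv huv => h12 (hc u hu v hv huv)⟩
  · intro M' M1 hgoal h1 h2
    obtain ⟨S', hS', hc'⟩ := hgoal
    refine ⟨(S' ×ˢ (univ : Finset (Fin K))).image (fun p => τ (g p.1, p.2)), ?_, ?_⟩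
    · rw [card_image_of_injective, card_product, card_univ, Fintype.card_fin, hS', mul_comm]
      intro p p' h
      have h3 := hτ h
      rw [Prod.mk.injEq] at h3
      exact Prod.ext (hginj h3.1) h3.2
    · intro u hu v hv huv
      simp only [mem_image, mem_product, mem_univ, and_true, Prod.exists] at hu hv
      obtain ⟨i, a, hi, rfl⟩ := hu
      obtain ⟨j, c, hj, rfl⟩ := hv
      by_cases hij : i = j
      · subst hij
        have hac : a ≠ c := by
          rintro rfl
          exact huv rfl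
        apply h2
        apply hM (g i) (hW2 (hgW i))
        rw [mem_IB]
        exact ⟨a, c, hac, rfl⟩
      · have h3 := h1 s(i, j) (hc' i hi j hj hij)
        rw [hblk'] at h3
        apply h3
        rw [mem_PB]
        exact ⟨a, c, rfl⟩
  · intro z hz
    induction z using Sym2.ind with
    | _ i j =>
      have hz1 := (mem_sdiff.mp hz).1
      unfold edges at hz1
      rw [mem_filter, Sym2.mk_isDiag_iff] at hz1
      have h1 := hind (g i) (hgW i) (g j) (hgW j) (fun h => hz1.2 (hginj h))
      rw [not_not] at h1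
      rw [hblk']
      exact h1

omit hτ in
lemma le_card_edges (N : ℕ) : N - 1 ≤ (edges N).card := by
  rcases Nat.eq_zero_or_pos N with h | h
  · subst h; simp
  · have : NeZero N := ⟨by omega⟩
    have h1 : ((univ : Finset (Fin N)).erase 0).card ≤ (edges N).card := by
      apply card_le_card_of_injOn (fun i => s(0, i))
      · intro i hi
        rw [mem_coe, mem_erase] at hi
        unfold edges
        rw [mem_coe, mem_filter, Sym2.mk_isDiag_iff]
        exact ⟨mem_univ _, fun h => hi.1 h.symm⟩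
      · intro i _ j _ h
        rw [Sym2.eq_iff] at h
        rcases h with h | h
        · exact h.2
        · exact h.2.trans h.1
    rwa [card_erase_of_mem (mem_univ _), card_univ, Fintype.card_fin] at h1

end blow

/-- **Blow-up**, version with explicit sizes: `n₃ = N / D` with
`D = 2 (4b+1) * (m+b+1) * (K+1)`. -/
theorem blowup_forces {m b K N r : ℕ} (hm : 1 ≤ m) (hK0 : 1 ≤ K) (hK : K * K ≤ m) (hN : 1 ≤ N)
    (hf : Forces 1 b (edges (N / (2 * (4 * b + 1) * (m + b + 1) * K))) (HasClique r) ∅ ∅) :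
    Forces m b (edges N) (HasClique (K * r)) ∅ ∅ := by
  set n3 := N / (2 * (4 * b + 1) * (m + b + 1) * K) with hn3
  set t := 2 * (4 * b + 1) * n3 with ht
  have h0 : K * ((m + b + 1) * t) ≤ N := by
    have h1 := Nat.div_mul_le_self N (2 * (4 * b + 1) * (m + b + 1) * K)
    rw [← hn3] at h1
    calc K * ((m + b + 1) * t) = n3 * (2 * (4 * b + 1) * (m + b + 1) * K) := by rw [ht]; ring
      _ ≤ N := h1
  have h00 : (m + b + 1) * t ≤ N := by
    refine le_trans ?_ h0
    exact Nat.le_mul_of_pos_left _ hK0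
  -- groups
  have hcard : Fintype.card (Fin ((m + b + 1) * t) × Fin K) ≤ Fintype.card (Fin N) := by
    rw [Fintype.card_prod, Fintype.card_fin, Fintype.card_fin, Fintype.card_fin, mul_comm]
    exact h0
  obtain ⟨τ⟩ := Function.Embedding.nonempty_of_card_le hcard
  refine blowup_forces_aux (τ := τ) τ.injective (t := t) (n3 := n3) hm hK ?_ ?_ (le_refl _) hf
  · apply Nat.mul_le_mul_right
    omega
  · have h1 := le_card_edges N
    rcases Nat.eq_zero_or_pos t with h2 | h2
    · rw [h2]; simp
    · have h3 : (m + b + 1) * t = (m + b) * t + t := by ring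
      omega

end Pool.Agent.Helper340.MB
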