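import Mathlib
import Pool.Agent.Helper340.MB.Blow
import Pool.Agent.Helper340.MB.Asym

set_option autoImplicit false
set_option linter.unusedVariables false
set_option linter.unusedSectionVars false
set_option linter.unusedSimpArgs false

namespace Pool.Agent.Helper340.MB

open Finset Filter

/-- **The block strategy beats the random-graph value.** If `K² ≤ m` and `1 + b < ((m+b)/m)^K`,
then Maker can force cliques that are larger by a constant factor than
`2 log_c N`, `c = (m+b)/m`. -/
theorem block_beats (m b K : ℕ) (hm : 1 ≤ m) (hb : 1 ≤ b) (hK : K * K ≤ m)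
    (hexp : (1 + b : ℝ) < cc m b ^ K) :
    ∃ δ : ℝ, 0 < δ ∧ ∀ K2 : ℝ, ∃ N₀ : ℕ, ∀ N : ℕ, N₀ ≤ N →
      ∀ q : ℕ, (q : ℝ) ≤ (1 + δ) * (2 * Real.logb (cc m b) N + K2) →
        Forces m b (edges N) (HasClique q) ∅ ∅ := by
  have hmp : (0 : ℝ) < m := by exact_mod_cast hm
  have hbp : (0 : ℝ) < b := by exact_mod_cast hb
  have hc1 : 1 < cc m b := by
    unfold cc
    have := div_pos hbp hmp
    linarith
  have hK0 : 1 ≤ K := by
    rcases Nat.eq_zero_or_pos K with h | h
    · subst h
      rw [pow_zero] at hexp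
      linarith
    · exact h
  have hKp : (0 : ℝ) < K := by exact_mod_cast hK0
  have hcc1 : cc 1 b = 1 + b := by
    unfold cc
    push_cast
    ring
  set L1 := Real.log (1 + b) with hL1
  set L2 := Real.log (cc m b) with hL2
  have hL1p : 0 < L1 := Real.log_pos (by linarith)
  have hL2p : 0 < L2 := Real.log_pos hc1
  have hL12 : L1 < K * L2 := by
    have := Real.log_lt_log (by linarith) hexp
    rwa [Real.log_pow] at this
  set δ := (K * L2 / L1 - 1) / 2 with hδ
  have hδ0 : 0 < δ := by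
    have : 1 < K * L2 / L1 := by rwa [lt_div_iff₀ hL1p, one_mul]
    rw [hδ]
    linarith
  set a := K / L1 - (1 + δ) / L2 with ha
  have ha0 : 0 < a := by
    rw [ha, sub_pos, div_lt_iff₀ hL2p]
    have h1 : (K : ℝ) / L1 * L2 = K * L2 / L1 := by ring
    rw [h1]
    have h2 : K * L2 / L1 = 1 + 2 * δ := by rw [hδ]; ring
    rw [h2]
    linarith
  refine ⟨δ, hδ0, ?_⟩
  intro K2
  obtain ⟨C, N₁, h⟩ := clique_forces 1 b (le_refl 1) hb
  rw [hcc1] at h
  set D : ℕ := 2 * (4 * b + 1) * (m + b + 1) * K with hD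
  have hD0 : 1 ≤ D := by
    rw [hD]
    exact Nat.mul_pos (Nat.mul_pos (by positivity) (by omega)) hK0
  have hDp : (0 : ℝ) < D := by exact_mod_cast hD0
  -- the asymptotic inequality in `x = log N`
  have hasym : ∀ᶠ x : ℝ in atTop, (1 + δ) * (2 * (x / L2) + K2)
      ≤ K * (2 * ((x - Real.log (2 * D)) / L1) - 2 * (Real.log (x / L1) / L1) - C - 1) := by
    set c0 : ℝ := (1 + δ) * K2 + K * (2 * (Real.log (2 * D) / L1) - 2 * (Real.log L1 / L1) + C + 1)
      with hc0
    have h4 := Real.isLittleO_log_id_atTop.def (show 0 < a * L1 / (2 * K) by positivity)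
    filter_upwards [h4, eventually_ge_atTop (1 : ℝ), eventually_ge_atTop (c0 / a)]
      with x hx hx1 hx2
    rw [Real.norm_of_nonneg (Real.log_nonneg hx1), id, Real.norm_of_nonneg (by linarith)] at hx
    have h5 : 2 * K / L1 * Real.log x ≤ a * x := by
      have h6 := mul_le_mul_of_nonneg_left hx (show 0 ≤ 2 * (K : ℝ) / L1 by positivity)
      have e : 2 * (K : ℝ) / L1 * (a * L1 / (2 * K) * x) = a * x := by
        field_simp
      linarith
    have h7 : c0 ≤ a * x := by
      rw [div_le_iff₀ ha0] at hx2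
      linarith
    have h8 : Real.log (x / L1) = Real.log x - Real.log L1 :=
      Real.log_div (by linarith) hL1p.ne'
    rw [h8]
    have h9 : K * (2 * ((x - Real.log (2 * D)) / L1) - 2 * ((Real.log x - Real.log L1) / L1)
        - C - 1) - (1 + δ) * (2 * (x / L2) + K2)
        = 2 * (a * x) - 2 * K / L1 * Real.log x - c0 := by
      rw [ha, hc0]
      field_simp
      ring
    linarith
  have hlogN : Tendsto (fun N : ℕ => Real.log N) atTop atTop :=
    Real.tendsto_log_atTop.comp tendsto_natCast_atTop_atTop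
  have hev : ∀ᶠ N : ℕ in atTop, (1 + δ) * (2 * (Real.log N / L2) + K2)
      ≤ K * (2 * ((Real.log N - Real.log (2 * D)) / L1) - 2 * (Real.log (Real.log N / L1) / L1)
        - C - 1) := hlogN.eventually hasym
  obtain ⟨N₂, hN₂⟩ := eventually_atTop.mp hev
  obtain ⟨N₃, hN₃⟩ : ∃ N₃ : ℕ, ∀ N : ℕ, N₃ ≤ N → L1 < Real.log N :=
    eventually_atTop.mp (hlogN.eventually_gt_atTop L1)
  refine ⟨max (max (D * (N₁ + 1)) N₂) (D * (N₃ + 1)), ?_⟩
  intro N hN q hq
  have hNa : D * (N₁ + 1) ≤ N := (le_max_left _ _).trans ((le_max_left _ _).trans hN)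
  have hNb : N₂ ≤ N := (le_max_right _ _).trans ((le_max_left _ _).trans hN)
  have hNc : D * (N₃ + 1) ≤ N := (le_max_right _ _).trans hN
  have hN1 : 1 ≤ N := le_trans (Nat.mul_pos hD0 (by omega)) hNa
  have hNp : (0 : ℝ) < N := by exact_mod_cast hN1
  set n3 := N / D with hn3
  have hn3a : N₁ + 1 ≤ n3 := by
    rw [hn3, Nat.le_div_iff_mul_le hD0, mul_comm]
    exact hNa
  have hn3b : N₃ + 1 ≤ n3 := by
    rw [hn3, Nat.le_div_iff_mul_le hD0, mul_comm]
    exact hNc
  have hn3p : (0 : ℝ) < n3 := by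
    have : 0 < n3 := by omega
    exact_mod_cast this
  obtain ⟨_, hf⟩ := h n3 (by omega)
  have hf2 := blowup_forces (N := N) hm hK0 hK hN1 hf
  refine Forces.mono (fun M hM => ?_) hf2
  refine HasClique.mono ?_ hM
  have hfloor : Real.logb (1 + b) n3 = Real.log n3 / L1 := rfl
  set bd := 2 * Real.logb (1 + b) n3 - 2 * Real.logb (1 + b) (Real.logb (1 + b) n3) - C with hbd
  have hn3N : (N : ℝ) ≤ 2 * D * n3 := by
    have h1 : N < D * (n3 + 1) := by
      have := Nat.lt_mul_div_succ N hD0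
      rwa [← hn3] at this
    have h2 : D * (n3 + 1) ≤ D * (2 * n3) := Nat.mul_le_mul_left _ (by omega)
    have h3 : N ≤ 2 * D * n3 := by
      calc N ≤ D * (2 * n3) := by omega
        _ = 2 * D * n3 := by ring
    exact_mod_cast h3
  have hlog1 : Real.log N - Real.log (2 * D) ≤ Real.log n3 := by
    have h1 := Real.log_le_log hNp hn3N
    rw [Real.log_mul (by positivity) hn3p.ne'] at h1
    linarith
  have hn3le : (n3 : ℝ) ≤ N := by
    have : n3 ≤ N := Nat.div_le_self _ _
    exact_mod_cast this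
  have hlog2 : Real.log n3 ≤ Real.log N := Real.log_le_log hn3p hn3le
  have hn3L : L1 < Real.log n3 := hN₃ n3 (by omega)
  have hlog3 : Real.log (Real.log n3 / L1) ≤ Real.log (Real.log N / L1) := by
    apply Real.log_le_log (div_pos (by linarith) hL1p)
    exact (div_le_div_iff_of_pos_right hL1p).mpr hlog2
  have hbd1 : 2 * ((Real.log N - Real.log (2 * D)) / L1) - 2 * (Real.log (Real.log N / L1) / L1)
        - C ≤ bd := by
    rw [hbd]
    have e1 : Real.logb (1 + b) n3 = Real.log n3 / L1 := rfl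
    have e2 : Real.logb (1 + b) (Real.log n3 / L1) = Real.log (Real.log n3 / L1) / L1 := rfl
    rw [e1, e2]
    have h1 : (Real.log N - Real.log (2 * D)) / L1 ≤ Real.log n3 / L1 :=
      (div_le_div_iff_of_pos_right hL1p).mpr hlog1
    have h2 : Real.log (Real.log n3 / L1) / L1 ≤ Real.log (Real.log N / L1) / L1 :=
      (div_le_div_iff_of_pos_right hL1p).mpr hlog3
    linarith
  have h10 := hN₂ N hNb
  have e3 : Real.logb (cc m b) N = Real.log N / L2 := rfl
  rw [e3] at hq
  have h11 : (q : ℝ) ≤ K * (bd - 1) := by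
    refine hq.trans (h10.trans ?_)
    apply mul_le_mul_of_nonneg_left _ hKp.le
    linarith
  have h12 : bd - 1 < (⌊bd⌋₊ : ℝ) := by
    have := Nat.lt_floor_add_one bd
    linarith
  have h13 : (q : ℝ) < ((K * ⌊bd⌋₊ : ℕ) : ℝ) := by
    push_cast
    refine lt_of_le_of_lt h11 ?_
    exact mul_lt_mul_of_pos_left h12 hKp
  exact_mod_cast h13.le

end Pool.Agent.Helper340.MB
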