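import Mathlib
import Pool.Agent.Helper340.MB.Asym

set_option autoImplicit false
set_option linter.unusedVariables false
set_option linter.unusedSectionVars false
set_option linter.unusedSimpArgs false

namespace Pool.Agent.Helper340.MB

open Finset

/-- From `Forces` to strategies given as functions of the position. -/
theorem exists_strategy {E : Type*} [DecidableEq E] {m b : ℕ} (hm : 1 ≤ m) {Bd : Finset E}
    {goal : Finset E → Prop} (h : Forces m b Bd goal ∅ ∅) :
    ∃ σ : Finset E → Finset E → Finset E,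
      (∀ M B, σ M B ⊆ Bd \ (M ∪ B) ∧ (σ M B).card = min m (Bd \ (M ∪ B)).card) ∧
      ∀ pM pB R : ℕ → Finset E, pM 0 = ∅ → pB 0 = ∅ →
        (∀ i, pM (i + 1) = pM i ∪ σ (pM i) (pB i)) → (∀ i, pB (i + 1) = pB i ∪ R i) →
        (∀ i, R i ⊆ (Bd \ (pM i ∪ pB i)) \ σ (pM i) (pB i) ∧
          (R i).card = min b ((Bd \ (pM i ∪ pB i)) \ σ (pM i) (pB i)).card) →
        ∃ i, Bd \ (pM i ∪ pB i) = ∅ ∧ goal (pM i) := by
  classical
  obtain ⟨Good, hGood⟩ : ∃ Good : Finset E → Finset E → Finset E → Prop, ∀ M B Q, Good M B Q ↔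
    (Q ⊆ Bd \ (M ∪ B) ∧ Q.card = min m (Bd \ (M ∪ B)).card ∧
      ∀ R ⊆ (Bd \ (M ∪ B)) \ Q, R.card = min b ((Bd \ (M ∪ B)) \ Q).card →
        Forces m b Bd goal (M ∪ Q) (B ∪ R)) := ⟨_, fun _ _ _ => Iff.rfl⟩
  have hex : ∀ M B, ∃ Q : Finset E, (Q ⊆ Bd \ (M ∪ B) ∧ Q.card = min m (Bd \ (M ∪ B)).card) ∧
      ((∃ Q', Good M B Q') → Good M B Q) := by
    intro M B
    by_cases hg : ∃ Q', Good M B Q'
    · obtain ⟨Q', hQ'⟩ := hg
      have h1 := (hGood M B Q').mp hQ'
      exact ⟨Q', ⟨h1.1, h1.2.1⟩, fun _ => hQ'⟩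
    · obtain ⟨Q', hQ', hc⟩ := exists_subset_card_eq (s := Bd \ (M ∪ B))
        (n := min m (Bd \ (M ∪ B)).card) (min_le_right _ _)
      exact ⟨Q', ⟨hQ', hc⟩, fun h => absurd h hg⟩
  choose σ hσ using hex
  refine ⟨σ, fun M B => (hσ M B).1, ?_⟩
  intro pM pB R h0 h0' hM hB hR
  have hinv : ∀ i, Forces m b Bd goal (pM i) (pB i) := by
    intro i
    induction i with
    | zero => rw [h0, h0']; exact h
    | succ i ih =>
      rw [hM, hB]
      obtain ⟨hR1, hR2⟩ := hR i
      cases ih with
      | done he hg =>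
        have h1 : σ (pM i) (pB i) = ∅ := by
          have := (hσ (pM i) (pB i)).1.1
          rw [he] at this
          exact subset_empty.mp this
        have h2 : R i = ∅ := by
          rw [he] at hR1
          have := hR1.trans sdiff_subset
          exact subset_empty.mp this
        rw [h1, h2, union_empty, union_empty]
        exact Forces.done he hg
      | move hne Q hQ hc hf =>
        have h1 : Good (pM i) (pB i) Q := (hGood _ _ _).mpr ⟨hQ, hc, hf⟩
        have h2 := (hGood _ _ _).mp ((hσ (pM i) (pB i)).2 ⟨Q, h1⟩)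
        exact h2.2.2 (R i) hR1 hR2
  have hend : ∃ i, Bd \ (pM i ∪ pB i) = ∅ := by
    by_contra hcon
    push Not at hcon
    have hdec : ∀ i, (Bd \ (pM (i + 1) ∪ pB (i + 1))).card < (Bd \ (pM i ∪ pB i)).card := by
      intro i
      apply card_lt_card
      have h1 := (hσ (pM i) (pB i)).1
      have h2 : 0 < (σ (pM i) (pB i)).card := by
        rw [h1.2]
        have h3 : 0 < (Bd \ (pM i ∪ pB i)).card := card_pos.mpr (by
          rw [nonempty_iff_ne_empty]
          exact Finset.nonempty_iff_ne_empty.mp (hcon i))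
        omega
      obtain ⟨z, hz⟩ := card_pos.mp h2
      refine ⟨?_, ?_⟩
      · rw [hM, hB]
        intro t ht
        simp only [mem_sdiff, mem_union, not_or] at ht ⊢
        exact ⟨ht.1, ht.2.1.1, ht.2.2.1⟩
      · intro hc
        have h4 := hc (h1.1 hz)
        rw [hM] at h4
        simp only [mem_sdiff, mem_union, not_or] at h4
        exact h4.2.1.2 hz
    have hle : ∀ i, (Bd \ (pM i ∪ pB i)).card + i ≤ (Bd \ (pM 0 ∪ pB 0)).card := by
      intro i
      induction i with
      | zero => simp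
      | succ i ih => have := hdec i; omega
    have h1 := hle ((Bd \ (pM 0 ∪ pB 0)).card + 1)
    omega
  obtain ⟨i, hi⟩ := hend
  refine ⟨i, hi, ?_⟩
  have h1 := hinv i
  generalize pM i = M at hi h1 ⊢
  generalize pB i = B at hi h1
  cases h1 with
  | done he hg => exact hg
  | move hne Q hQ hc hf =>
    rw [hi] at hne
    exact absurd hne not_nonempty_empty

end Pool.Agent.Helper340.MB
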